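import Pool.Agent.Work.MP_c07f0d_lc.TL.GDefs

/-!
# Parity contradictions on grids with parallel edges, and the depth of a formula above small
subformulas

The vertices are the points of the 3-dimensional grid of side `M`.  Every edge of the grid is
replaced by `J` parallel edges, and there is one propositional variable for every one of them.
The constraint of a vertex `v` says that the sum modulo 2 of the (at most `6 J`) variables on the
edges at `v` is `1` if `v` is the zero vertex, and `0` otherwise.  As every variable occurs in
exactly two constraints, the constraints are contradictory.
-/

namespace AcFrege

open FregeEF LineSize GridLine

/-- The propositional variables: the edges of the multigraph. -/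
abbrev PV (M J : ℕ) : Type := GE 3 M × Fin J

/-- The parity of the variables on the edges at `v` (exactly one end of which is `v`), in some
fixed order. -/
noncomputable def pparity {M J : ℕ} (v : GV 3 M) : Fm (PV M J) :=
  parity (((Finset.univ : Finset (PV M J)).filter
    fun x => gsrc x.1 = v ∨ gtgt x.1 = v).toList.map Fm.var)

/-- The constraint of the vertex `v`. -/
noncomputable def pAx {M J : ℕ} (v : GV 3 M) : Fm (PV M J) :=
  if gcharge v = true then pparity v else .neg (pparity v)

/-- The contradictory list of all constraints. -/
noncomputable def pAxioms (M J : ℕ) : List (Fm (PV M J)) :=
  (Finset.univ : Finset (GV 3 M)).toList.map pAx

/-- The kind of a formula: its outermost connective. -/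
inductive Kind : Type
  | small
  | neg
  | and
  | or
  | imp
  deriving DecidableEq

/-- The kind of a formula with respect to the threshold `s`: formulas with at most `s` symbols
(and atoms) are small, the kind of the other formulas is their outermost connective. -/
def kind {α : Type} (s : ℕ) : Fm α → Kind
  | .var _ => .small
  | .bot => .small
  | .neg a => if (Fm.neg a).size ≤ s then .small else .neg
  | .and a b => if (Fm.and a b).size ≤ s then .small else .and
  | .or a b => if (Fm.or a b).size ≤ s then .small else .or
  | .imp a b => if (Fm.imp a b).size ≤ s then .small else .imp

/-- The depth of a formula above its subformulas with at most `s` symbols: the number of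
alternating blocks of connectives on the paths from the root to these subformulas.  Consecutive
conjunctions form one block.  Consecutive disjunctions and implications form one block, where
`a → b` is read as `¬ a ∨ b` (so a premise `a` always starts a new block).  Negations are not counted,
but they interrupt the blocks. -/
def depth {α : Type} (s : ℕ) : Fm α → ℕ
  | .var _ => 0
  | .bot => 0
  | .neg a => if (Fm.neg a).size ≤ s then 0 else depth s a
  | .and a b => if (Fm.and a b).size ≤ s then 0 else
      max (if kind s a = .and then depth s a else depth s a + 1)
        (if kind s b = .and then depth s b else depth s b + 1)
  | .or a b => if (Fm.or a b).size ≤ s then 0 else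
      max (if kind s a = .or ∨ kind s a = .imp then depth s a else depth s a + 1)
        (if kind s b = .or ∨ kind s b = .imp then depth s b else depth s b + 1)
  | .imp a b => if (Fm.imp a b).size ≤ s then 0 else
      max (depth s a + 1)
        (if kind s b = .or ∨ kind s b = .imp then depth s b else depth s b + 1)

end AcFrege
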