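import Pool.Agent.Work.MP_c07f0d_lc.AC.AcNon
import Mathlib.Data.Finset.Sigma
import Mathlib.Data.Finset.Prod
import Mathlib.Data.Finset.Union
import Mathlib.Algebra.Order.BigOperators.Group.Finset
import Mathlib.Algebra.BigOperators.Ring.Finset
import Mathlib.Algebra.Order.Field.Basic
import Mathlib.Data.Rat.Cast.Order
import Mathlib.Algebra.Order.Interval.Finset.SuccPred
import Mathlib.Order.Interval.Finset.Nat
import Mathlib.Tactic.Positivity
import Mathlib.Tactic.GCongr
import Mathlib.Tactic.NormNum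
import Mathlib.Algebra.Group.Action.Defs
import Mathlib.Algebra.Module.NatInt

/-!
# Counting the extensions of a matching

`E ρ l` is the set of the extensions of the matching `ρ` with exactly `l` free vertices.
`card_E_step` compares `E ρ (l - 2)` and `E ρ l` (delete one edge), and `card_bad_of_count` is the count of the bad extensions from a bound for
the decoding.
-/

namespace AcFrege

section edges

variable {V : Type} [DecidableEq V]

/-- Remove the edge of `x`. -/
def Mt.del (μ : Mt V) (x : V) : Mt V where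
  f v := if v = x ∨ v = μ x then v else μ v
  inv v := by
    by_cases h1 : v = x ∨ v = μ x
    · simp [h1]
    · have h2 : ¬ (μ v = x ∨ μ v = μ x) := by
        rintro (h3 | h3)
        · exact h1 (Or.inr (by rw [← h3, μ.invol]))
        · exact h1 (Or.inl (μ.inj h3))
      simp only [h1, if_false, h2]
      exact μ.invol v

theorem Mt.del_apply (μ : Mt V) (x v : V) :
    (μ.del x) v = if v = x ∨ v = μ x then v else μ v := rfl

/-- The matching is recovered from the deletion and the deleted edge. -/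
theorem Mt.del_inj {μ μ' : Mt V} {x : V} (h : μ.del x = μ'.del x) (h' : μ x = μ' x) : μ = μ' := by
  ext v
  by_cases h1 : v = x
  · rw [h1, h']
  · by_cases h2 : v = μ x
    · rw [h2, μ.invol, h', μ'.invol]
    · have h3 : (μ.del x) v = (μ'.del x) v := by rw [h]
      rw [Mt.del_apply, Mt.del_apply, if_neg (by push Not; exact ⟨h1, h2⟩),
        if_neg (by push Not; exact ⟨h1, by rw [← h']; exact h2⟩)] at h3
      exact h3

theorem Mt.le_del {ρ μ : Mt V} (h : ρ ≤ μ) {x : V} (hx : ρ x = x) : ρ ≤ μ.del x := by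
  intro v hv
  have h6 := h v hv
  have h7 : v ≠ x := fun h => hv (by rw [h, hx])
  have h8 : v ≠ μ x := by
    intro h
    have h9 : ρ v = x := by rw [← h6, h, μ.invol]
    have h10 : v = x := by rw [← ρ.invol v, h9, hx]
    exact h7 h10
  rw [Mt.del_apply, if_neg (by push Not; exact ⟨h7, h8⟩)]
  exact h6

variable [Fintype V]

theorem free_del (μ : Mt V) (x : V) : free (μ.del x) = insert x (insert (μ x) (free μ)) := by
  ext v
  simp only [mem_free, Finset.mem_insert, Mt.del_apply]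
  by_cases h1 : v = x ∨ v = μ x
  · rcases h1 with h1 | h1 <;> simp [h1]
  · simp only [h1, if_false]
    push Not at h1
    simp [h1.1, h1.2]

end edges

section count

variable {V : Type} [Fintype V] [DecidableEq V]

/-- LEMMA E, one step. -/
theorem card_E_add_two (ρ : Mt V) (l : ℕ) :
    (E ρ l).card * ((free ρ).card - l) ≤ (E ρ (l + 2)).card * (l + 2) ^ 2 := by
  classical
  set s : Finset (Σ _ : Mt V, V) := (E ρ l).sigma fun μ => free ρ \ free μ with hs
  set t : Finset (Σ _ : Mt V, V × V) := (E ρ (l + 2)).sigma fun μ => free μ ×ˢ free μ with ht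
  have h1 : s.card = (E ρ l).card * ((free ρ).card - l) := by
    rw [hs, Finset.card_sigma, Finset.sum_const_nat (m := (free ρ).card - l)]
    intro μ hμ
    obtain ⟨h3, h4⟩ := mem_E.1 hμ
    rw [Finset.card_sdiff_of_subset (free_anti h3), h4]
  have h2 : t.card = (E ρ (l + 2)).card * (l + 2) ^ 2 := by
    rw [ht, Finset.card_sigma, Finset.sum_const_nat (m := (l + 2) ^ 2)]
    intro μ hμ
    obtain ⟨h3, h4⟩ := mem_E.1 hμ
    rw [Finset.card_product, h4, sq]
  rw [← h1, ← h2]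
  refine Finset.card_le_card_of_injOn
    (fun p => (⟨p.1.del p.2, (p.2, p.1 p.2)⟩ : Σ _ : Mt V, V × V)) ?_ ?_
  · rintro ⟨μ, x⟩ hp
    rw [hs, Finset.mem_coe, Finset.mem_sigma, Finset.mem_sdiff] at hp
    obtain ⟨hμ, hx, hx'⟩ := hp
    obtain ⟨h4, h5⟩ := mem_E.1 hμ
    simp only at hx hx' h4 h5
    have hne : μ x ≠ x := fun h => hx' (mem_free.2 h)
    have hmx : μ x ∉ free μ := by
      intro h
      rw [mem_free, μ.invol] at h
      exact hne h.symm
    have hxr : ρ x = x := mem_free.1 hx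
    have hfr := free_del μ x
    have hmem : x ∈ free (μ.del x) ∧ μ x ∈ free (μ.del x) := by
      rw [hfr]
      simp
    rw [ht, Finset.mem_coe, Finset.mem_sigma, Finset.mem_product, mem_E]
    refine ⟨⟨Mt.le_del h4 hxr, ?_⟩, hmem.1, hmem.2⟩
    show (free (μ.del x)).card = l + 2
    rw [hfr, Finset.card_insert_of_notMem, Finset.card_insert_of_notMem hmx, h5]
    rw [Finset.mem_insert]
    push Not
    exact ⟨fun h => hne h.symm, hx'⟩
  · rintro ⟨μ, x⟩ hp ⟨μ', x'⟩ hp' h
    simp only [Sigma.mk.injEq, heq_eq_eq, Prod.mk.injEq] at h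
    obtain ⟨h4, h5, h6⟩ := h
    subst h5
    have h7 : μ = μ' := Mt.del_inj h4 h6
    subst h7
    rfl

/-- LEMMA E. -/
theorem card_E_step (ρ : Mt V) {l : ℕ} (hl : 2 ≤ l) :
    (E ρ (l - 2)).card * ((free ρ).card - l) ≤ (E ρ l).card * l ^ 2 := by
  have h1 := card_E_add_two ρ (l - 2)
  have h2 : l - 2 + 2 = l := by omega
  rw [h2] at h1
  exact (Nat.mul_le_mul_left _ (by omega)).trans h1

/-- The iterate of LEMMA E. -/
theorem card_E_iter (ρ : Mt V) {l : ℕ} : ∀ b : ℕ, 2 * b ≤ l →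
    (E ρ (l - 2 * b)).card * ((free ρ).card - l) ^ b ≤ (E ρ l).card * l ^ (2 * b) := by
  intro b
  induction b with
  | zero =>
    intro _
    simp
  | succ b ih =>
    intro hb
    have h1 := ih (by omega)
    have h2 := card_E_add_two ρ (l - 2 * (b + 1))
    have h3 : l - 2 * (b + 1) + 2 = l - 2 * b := by omega
    rw [h3] at h2
    have h4 : (free ρ).card - l ≤ (free ρ).card - (l - 2 * (b + 1)) := by omega
    have h5 : (l - 2 * b) ^ 2 ≤ l ^ 2 := Nat.pow_le_pow_left (by omega) 2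
    calc (E ρ (l - 2 * (b + 1))).card * ((free ρ).card - l) ^ (b + 1)
        = ((E ρ (l - 2 * (b + 1))).card * ((free ρ).card - l)) * ((free ρ).card - l) ^ b := by ring
      _ ≤ ((E ρ (l - 2 * (b + 1))).card * ((free ρ).card - (l - 2 * (b + 1)))) *
          ((free ρ).card - l) ^ b := by gcongr
      _ ≤ ((E ρ (l - 2 * b)).card * (l - 2 * b) ^ 2) * ((free ρ).card - l) ^ b := by gcongr
      _ = ((E ρ (l - 2 * b)).card * ((free ρ).card - l) ^ b) * (l - 2 * b) ^ 2 := by ring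
      _ ≤ ((E ρ l).card * l ^ (2 * b)) * l ^ 2 := by gcongr
      _ = (E ρ l).card * l ^ (2 * (b + 1)) := by ring

/-- The geometric sum at the end of the count. -/
theorem sum_le_of_geom {N s q : ℕ} (hq : 2 ≤ q) {T : Finset ℕ} (hT : ∀ b ∈ T, s < b) {x : ℕ → ℕ}
    (hx : ∀ b ∈ T, x b * q ^ b ≤ N) : (∑ b ∈ T, x b) * q ^ s ≤ N := by
  have h1 : ∀ b ∈ T, (x b : ℚ) * q ^ s ≤ (N : ℚ) * (1 / 2) ^ (b - s) := by
    intro b hb
    have h2 : ((x b * q ^ b : ℕ) : ℚ) ≤ N := by exact_mod_cast hx b hb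
    have h3 : b = s + (b - s) := by have := hT b hb; omega
    have h4 : (2 : ℚ) ^ (b - s) ≤ (q : ℚ) ^ (b - s) := by
      gcongr
      exact_mod_cast hq
    have h5 : (x b : ℚ) * q ^ s * 2 ^ (b - s) ≤ N := by
      calc (x b : ℚ) * q ^ s * 2 ^ (b - s) ≤ (x b : ℚ) * q ^ s * q ^ (b - s) := by gcongr
        _ = (x b : ℚ) * q ^ b := by rw [mul_assoc, ← pow_add, ← h3]
        _ ≤ N := by exact_mod_cast h2
    have h6 : (0 : ℚ) < 2 ^ (b - s) := by positivity
    rw [one_div, inv_pow, ← div_eq_mul_inv, le_div_iff₀ h6]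
    exact h5
  have h2 : ∑ b ∈ T, ((1 : ℚ) / 2) ^ (b - s) ≤ 1 := by
    have h3 : ∀ M : ℕ, ∑ b ∈ Finset.Ioc s (s + M), ((1 : ℚ) / 2) ^ (b - s) = 1 - (1 / 2) ^ M := by
      intro M
      induction M with
      | zero => simp
      | succ M ih =>
        have h4 : Finset.Ioc s (s + (M + 1)) = insert (s + (M + 1)) (Finset.Ioc s (s + M)) := by
          ext a
          simp only [Finset.mem_Ioc, Finset.mem_insert]
          omega
        rw [h4, Finset.sum_insert (by simp), ih]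
        have h5 : s + (M + 1) - s = M + 1 := by omega
        rw [h5, pow_succ]
        ring
    obtain ⟨M, hM⟩ : ∃ M, T ⊆ Finset.Ioc s (s + M) := by
      refine ⟨T.sup id, fun b hb => Finset.mem_Ioc.2 ⟨hT b hb, ?_⟩⟩
      have := Finset.le_sup (f := id) hb
      simp only [id] at this
      omega
    calc ∑ b ∈ T, ((1 : ℚ) / 2) ^ (b - s) ≤ ∑ b ∈ Finset.Ioc s (s + M), ((1 : ℚ) / 2) ^ (b - s) :=
          Finset.sum_le_sum_of_subset_of_nonneg hM fun _ _ _ => by positivity
      _ = 1 - (1 / 2) ^ M := h3 M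
      _ ≤ 1 := by
          have : (0 : ℚ) < (1 / 2) ^ M := by positivity
          linarith
  have h3 : (((∑ b ∈ T, x b) * q ^ s : ℕ) : ℚ) ≤ N := by
    push_cast
    rw [Finset.sum_mul]
    calc ∑ b ∈ T, (x b : ℚ) * q ^ s ≤ ∑ b ∈ T, (N : ℚ) * (1 / 2) ^ (b - s) := Finset.sum_le_sum h1
      _ = N * ∑ b ∈ T, ((1 : ℚ) / 2) ^ (b - s) := by rw [Finset.mul_sum]
      _ ≤ N * 1 := by gcongr
      _ = N := mul_one _
  exact_mod_cast h3

/-- The bad extensions are few, if the decoding is bounded: `X τ b` is the set of the starting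
points decoded from `τ` with total `b`. -/
theorem card_bad_of_count (ρ : Mt V) {r l s q : ℕ} (hq : 2 ≤ q)
    (hF : 8 * r ^ 2 * l ^ 4 * q + l ≤ (free ρ).card) (B : Finset (Mt V))
    (X : Mt V → ℕ → Finset (Mt V))
    (hX : ∀ b, 2 * b ≤ l → ∀ τ ∈ E ρ (l - 2 * b), (X τ b).card ≤ (2 * (2 * r * l) ^ 2) ^ b)
    (hB : ∀ μ ∈ B, ∃ b, s < b ∧ 2 * b ≤ l ∧ ∃ τ ∈ E ρ (l - 2 * b), μ ∈ X τ b) :
    B.card * q ^ s ≤ (E ρ l).card := by
  classical
  have hsize : 8 * r ^ 2 * l ^ 4 * q ≤ (free ρ).card - l := by omega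
  set T : Finset ℕ := (Finset.range (l + 1)).filter fun b => s < b ∧ 2 * b ≤ l with hT
  have h1 : B ⊆ T.biUnion fun b => (E ρ (l - 2 * b)).biUnion fun τ => X τ b := by
    intro μ hμ
    obtain ⟨b, h2, h3, τ, h4, h5⟩ := hB μ hμ
    rw [Finset.mem_biUnion]
    refine ⟨b, ?_, Finset.mem_biUnion.2 ⟨τ, h4, h5⟩⟩
    rw [hT, Finset.mem_filter, Finset.mem_range]
    exact ⟨by omega, h2, h3⟩
  have h2 : B.card ≤ ∑ b ∈ T, (E ρ (l - 2 * b)).card * (2 * (2 * r * l) ^ 2) ^ b := by
    refine (Finset.card_le_card h1).trans (Finset.card_biUnion_le.trans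
      (Finset.sum_le_sum fun b hb => ?_))
    rw [hT, Finset.mem_filter] at hb
    refine Finset.card_biUnion_le.trans ?_
    rw [← smul_eq_mul]
    exact Finset.sum_le_card_nsmul _ _ _ fun τ hτ => hX b hb.2.2 τ hτ
  have h3 : (∑ b ∈ T, (E ρ (l - 2 * b)).card * (2 * (2 * r * l) ^ 2) ^ b) * q ^ s ≤
      (E ρ l).card := by
    refine sum_le_of_geom hq (fun b hb => ?_) fun b hb => ?_
    · rw [hT, Finset.mem_filter] at hb
      exact hb.2.1
    · rw [hT, Finset.mem_filter] at hb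
      have hb1 : 1 ≤ b := by omega
      have hl : 0 < l := by omega
      have h4 := card_E_iter ρ b hb.2.2
      have h5 : (8 * r ^ 2 * l ^ 4 * q) ^ b ≤ ((free ρ).card - l) ^ b := Nat.pow_le_pow_left hsize b
      have h6 : (E ρ (l - 2 * b)).card * (2 * (2 * r * l) ^ 2) ^ b * q ^ b * (l ^ 2) ^ b ≤
          (E ρ l).card * (l ^ 2) ^ b := by
        calc (E ρ (l - 2 * b)).card * (2 * (2 * r * l) ^ 2) ^ b * q ^ b * (l ^ 2) ^ b
            = (E ρ (l - 2 * b)).card * (8 * r ^ 2 * l ^ 4 * q) ^ b := by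
              rw [mul_assoc, mul_assoc, ← mul_pow, ← mul_pow]
              congr 2
              ring
          _ ≤ (E ρ (l - 2 * b)).card * ((free ρ).card - l) ^ b := by gcongr
          _ ≤ (E ρ l).card * l ^ (2 * b) := h4
          _ = (E ρ l).card * (l ^ 2) ^ b := by rw [pow_mul]
      exact Nat.le_of_mul_le_mul_right h6 (by positivity)
  exact (Nat.mul_le_mul_right _ h2).trans h3

/-- The bad extensions are few, from the bound for `Enc`. -/
theorem card_bad_of_enc (D : Set (Mt V)) (ρ : Mt V) {r l s q : ℕ} (hq : 2 ≤ q)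
    (hF : 8 * r ^ 2 * l ^ 4 * q + l ≤ (free ρ).card)
    (hEnc : ∀ (b : ℕ) (τ : Mt V), (free τ).card + 2 * b ≤ l →
      (by classical exact (Finset.univ.filter (fun μ => Enc D ρ μ b τ)).card : ℕ) ≤
        (2 * (2 * r * l) ^ 2) ^ b)
    (B : Finset (Mt V))
    (hB : ∀ μ ∈ B, ∃ b, s < b ∧ 2 * b ≤ l ∧ ∃ τ ∈ E ρ (l - 2 * b), Enc D ρ μ b τ) :
    B.card * q ^ s ≤ (E ρ l).card := by
  classical
  refine card_bad_of_count ρ hq hF B (fun τ b => Finset.univ.filter (fun μ => Enc D ρ μ b τ))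
    (fun b hb τ hτ => ?_) fun μ hμ => ?_
  · obtain ⟨-, h1⟩ := mem_E.1 hτ
    have h2 := hEnc b τ (by omega)
    convert h2
  · obtain ⟨b, h1, h2, τ, h3, h4⟩ := hB μ hμ
    exact ⟨b, h1, h2, τ, h3, by simpa using h4⟩

/-- The union bound: fewer than `q ^ s` families of bad extensions leave a good one. -/
theorem exists_good_of_card {ρ : Mt V} {l s q : ℕ} (hne : (E ρ l).Nonempty) {ι : Type*}
    (P : Finset ι) (hP : P.card < q ^ s) (B : ι → Finset (Mt V))
    (hB : ∀ i ∈ P, (B i).card * q ^ s ≤ (E ρ l).card) :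
    ∃ μ ∈ E ρ l, ∀ i ∈ P, μ ∉ B i := by
  classical
  by_contra hcon
  push Not at hcon
  have h1 : E ρ l ⊆ P.biUnion B := by
    intro μ hμ
    obtain ⟨i, hi, h⟩ := hcon μ hμ
    exact Finset.mem_biUnion.2 ⟨i, hi, h⟩
  have h2 : (E ρ l).card ≤ ∑ i ∈ P, (B i).card :=
    (Finset.card_le_card h1).trans Finset.card_biUnion_le
  have h3 : (∑ i ∈ P, (B i).card) * q ^ s ≤ P.card * (E ρ l).card := by
    rw [Finset.sum_mul, ← smul_eq_mul]
    exact Finset.sum_le_card_nsmul _ _ _ hB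
  have h4 : 0 < (E ρ l).card := Finset.card_pos.2 hne
  have h5 : (E ρ l).card * q ^ s ≤ P.card * (E ρ l).card :=
    (Nat.mul_le_mul_right _ h2).trans h3
  have h6 : P.card * (E ρ l).card < q ^ s * (E ρ l).card :=
    Nat.mul_lt_mul_of_pos_right hP h4
  rw [mul_comm] at h5
  exact absurd (h5.trans_lt h6) (lt_irrefl _)

end count

end AcFrege
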