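import Pool.Agent.Work.MP_c07f0d_lc.AC.AcMat
import Mathlib

/-!
# The number of matchings with a given code
-/

namespace AcFrege

open Finset

variable {V : Type} [Fintype V] [DecidableEq V]

/-- Delete the edges of `μ` which meet `Q`. -/
def delQ (Q : Finset V) (μ : Mt V) : Mt V where
  f v := if v ∈ Q ∨ μ v ∈ Q then v else μ v
  inv v := by
    by_cases h : v ∈ Q ∨ μ v ∈ Q
    · rw [if_pos h, if_pos h]
    · rw [if_neg h]
      have h' : ¬ (μ v ∈ Q ∨ μ (μ v) ∈ Q) := by
        rw [μ.invol]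
        exact fun hc => h hc.symm
      rw [if_neg h', μ.invol]

/-- The possible next matchings. -/
noncomputable def encNxt (Q : Finset V) (τ : Mt V) : Finset (Mt V) := by
  classical exact Finset.univ.filter (fun τ₁ =>
    (∀ v ∈ Q, τ₁ v ≠ v ∧ (τ₁ v ∈ Q ∨ τ (τ₁ v) = τ₁ v)) ∧
    (∀ v, v ∉ Q → τ₁ v ∈ Q ∨ τ₁ v = τ v))

lemma mem_encNxt {Q : Finset V} {τ τ₁ : Mt V} : τ₁ ∈ encNxt Q τ ↔
    (∀ v ∈ Q, τ₁ v ≠ v ∧ (τ₁ v ∈ Q ∨ τ (τ₁ v) = τ₁ v)) ∧
    (∀ v, v ∉ Q → τ₁ v ∈ Q ∨ τ₁ v = τ v) := by
  simp [encNxt]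

lemma free_encNxt {Q : Finset V} {τ τ₁ : Mt V} (h : τ₁ ∈ encNxt Q τ) : free τ₁ ⊆ free τ := by
  rw [mem_encNxt] at h
  intro v hv
  rw [mem_free] at hv ⊢
  have hvQ : v ∉ Q := fun hc => (h.1 v hc).1 hv
  rcases h.2 v hvQ with h1 | h1
  · rw [hv] at h1
    exact absurd h1 hvQ
  · rw [← h1, hv]

lemma encNxt_eq {Q : Finset V} {τ τ₁ τ₂ : Mt V} (h1 : τ₁ ∈ encNxt Q τ) (h2 : τ₂ ∈ encNxt Q τ)
    (h : ∀ v ∈ Q, τ₁ v = τ₂ v) : τ₁ = τ₂ := by
  rw [mem_encNxt] at h1 h2
  have key : ∀ {σ σ' : Mt V}, (∀ v ∈ Q, σ v = σ' v) → ∀ v, σ v ∈ Q → σ v = σ' v := by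
    intro σ σ' hh v hv
    have e := hh (σ v) hv
    rw [σ.invol] at e
    -- `v = σ' (σ v)`
    have e2 := congrArg σ' e
    rw [σ'.invol] at e2
    exact e2.symm
  ext v
  by_cases hv : v ∈ Q
  · exact h v hv
  · rcases h1.2 v hv with e1 | e1
    · exact key h v e1
    · rcases h2.2 v hv with e2 | e2
      · exact (key (fun w hw => (h w hw).symm) v e2).symm
      · rw [e1, e2]

lemma card_encNxt_le (Q : Finset V) (τ : Mt V) :
    (encNxt Q τ).card ≤ (Q.card + (free τ).card) ^ Q.card := by
  classical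
  have h1 : (encNxt Q τ).card ≤ (Fintype.piFinset (fun _ : Q => Q ∪ free τ)).card := by
    refine Finset.card_le_card_of_injOn (fun τ₁ (v : Q) => τ₁ (v : V)) ?_ ?_
    · intro τ₁ hτ
      rw [Finset.mem_coe, mem_encNxt] at hτ
      rw [Finset.mem_coe, Fintype.mem_piFinset]
      intro v
      rw [Finset.mem_union, mem_free]
      exact (hτ.1 v v.2).2
    · intro τ₁ h1 τ₂ h2 h
      exact encNxt_eq h1 h2 fun v hv => congrFun h ⟨v, hv⟩
  refine h1.trans ?_
  rw [Fintype.card_piFinset, Finset.prod_const, Finset.card_univ, Fintype.card_coe]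
  exact Nat.pow_le_pow_left (Finset.card_union_le _ _) _

lemma geom_le (Y b : ℕ) : ∑ i ∈ Finset.range b, Y ^ (i + 1) * (2 * Y) ^ (b - (i + 1)) ≤
    (2 * Y) ^ b := by
  induction b with
  | zero => simp
  | succ b ih =>
    rw [Finset.sum_range_succ']
    have h1 : ∑ i ∈ Finset.range b, Y ^ (i + 1 + 1) * (2 * Y) ^ (b + 1 - (i + 1 + 1)) =
        Y * ∑ i ∈ Finset.range b, Y ^ (i + 1) * (2 * Y) ^ (b - (i + 1)) := by
      rw [Finset.mul_sum]
      refine Finset.sum_congr rfl fun i _ => ?_
      rw [show b + 1 - (i + 1 + 1) = b - (i + 1) by omega, pow_succ Y (i + 1)]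
      ring
    rw [h1]
    have h2 : Y ^ (0 + 1) * (2 * Y) ^ (b + 1 - (0 + 1)) = Y * (2 * Y) ^ b := by
      rw [show b + 1 - (0 + 1) = b by omega, zero_add, pow_one]
    rw [h2]
    have h3 := Nat.mul_le_mul_left Y ih
    calc Y * ∑ i ∈ Finset.range b, Y ^ (i + 1) * (2 * Y) ^ (b - (i + 1)) + Y * (2 * Y) ^ b
        ≤ Y * (2 * Y) ^ b + Y * (2 * Y) ^ b := Nat.add_le_add_right h3 _
      _ = (2 * Y) ^ (b + 1) := by ring

/-- The number of matchings with a given code. -/
theorem card_enc_le (D : Set (Mt V)) (ρ : Mt V) {r L : ℕ}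
    (hD : ∀ t ∈ D, Compat t ρ → cost ρ t ≤ 2 * r) : ∀ (b : ℕ) (τ : Mt V),
    (free τ).card + 2 * b ≤ L →
    (by classical exact (Finset.univ.filter (fun μ => Enc D ρ μ b τ)).card : ℕ) ≤
      (2 * (2 * r * L) ^ 2) ^ b := by
  classical
  intro b
  induction b using Nat.strong_induction_on with
  | _ b ih =>
    intro τ hτ
    by_cases hex : ∃ t, IsFirst D (fun t => t ≤ τ) t ∧ Compat t ρ
    · obtain ⟨t, ht, htc⟩ := hex
      obtain ⟨S, hS⟩ : ∃ S : Finset V, S = (free ρ).filter (fun v => t v ≠ v) := ⟨_, rfl⟩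
      have hScard : S.card ≤ 2 * r := by
        rw [hS]
        exact hD t ht.1 htc
      rcases Nat.eq_zero_or_pos b with hb0 | hb0
      · subst hb0
        rw [pow_zero]
        refine (Finset.card_le_card (t := {τ}) fun μ hμ => ?_).trans (by simp)
        rw [Finset.mem_filter] at hμ
        rw [Finset.mem_singleton]
        have h2 := hμ.2
        generalize hn : (0 : ℕ) = n at h2
        cases h2 with
        | nil => rfl
        | cons Q _ _ _ _ _ ha1 => omega
      have hsub : (Finset.univ.filter (fun μ => Enc D ρ μ b τ)) ⊆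
          (Finset.range b).biUnion fun i => (Finset.powersetCard (2 * (i + 1)) S).biUnion fun Q =>
            (encNxt Q τ).biUnion fun τ₁ =>
              (Finset.univ.filter (fun μ => Enc D ρ μ (b - (i + 1)) τ₁)).image (delQ Q) := by
        intro μ hμ
        rw [Finset.mem_filter] at hμ
        have h2 := hμ.2
        generalize hn : b = n at h2
        cases h2 with
        | nil => omega
        | @cons μ μ₁ τ τ₁ t' a b' Q h₁ ht' hc hQ ha ha1 hin hout hμ' =>
          have htt : t' = t := ht'.unique ht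
          subst htt
          rw [Finset.mem_biUnion]
          refine ⟨a - 1, Finset.mem_range.2 (by omega), ?_⟩
          rw [Finset.mem_biUnion]
          refine ⟨Q, ?_, ?_⟩
          · rw [Finset.mem_powersetCard]
            refine ⟨fun v hv => ?_, by omega⟩
            rw [hS, Finset.mem_filter, mem_free]
            exact hQ v hv
          · rw [Finset.mem_biUnion]
            refine ⟨τ₁, mem_encNxt.2 ⟨hin, hout⟩, ?_⟩
            rw [Finset.mem_image]
            refine ⟨μ₁, ?_, ?_⟩
            · rw [Finset.mem_filter]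
              refine ⟨Finset.mem_univ _, ?_⟩
              rw [show a + b' - (a - 1 + 1) = b' by omega]
              exact h₁
            · ext v
              rw [hμ']
              rfl
      refine (Finset.card_le_card hsub).trans ?_
      refine Finset.card_biUnion_le.trans ?_
      refine le_trans (Finset.sum_le_sum fun i hi => ?_) (geom_le ((2 * r * L) ^ 2) b)
      rw [Finset.mem_range] at hi
      refine Finset.card_biUnion_le.trans ?_
      have hone : ∀ Q ∈ Finset.powersetCard (2 * (i + 1)) S,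
          ((encNxt Q τ).biUnion fun τ₁ =>
            (Finset.univ.filter (fun μ => Enc D ρ μ (b - (i + 1)) τ₁)).image (delQ Q)).card ≤
            L ^ (2 * (i + 1)) * (2 * (2 * r * L) ^ 2) ^ (b - (i + 1)) := by
        intro Q hQ
        rw [Finset.mem_powersetCard] at hQ
        refine Finset.card_biUnion_le.trans ?_
        calc ∑ τ₁ ∈ encNxt Q τ,
              ((Finset.univ.filter (fun μ => Enc D ρ μ (b - (i + 1)) τ₁)).image (delQ Q)).card
            ≤ ∑ _τ₁ ∈ encNxt Q τ, (2 * (2 * r * L) ^ 2) ^ (b - (i + 1)) := by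
              refine Finset.sum_le_sum fun τ₁ hτ₁ => Finset.card_image_le.trans ?_
              refine ih (b - (i + 1)) (by omega) τ₁ ?_
              have h3 := Finset.card_le_card (free_encNxt hτ₁)
              omega
          _ = (encNxt Q τ).card * (2 * (2 * r * L) ^ 2) ^ (b - (i + 1)) := by
              rw [Finset.sum_const, smul_eq_mul]
          _ ≤ L ^ (2 * (i + 1)) * (2 * (2 * r * L) ^ 2) ^ (b - (i + 1)) := by
              refine Nat.mul_le_mul_right _ ((card_encNxt_le Q τ).trans ?_)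
              rw [hQ.2]
              exact Nat.pow_le_pow_left (by omega) _
      calc ∑ Q ∈ Finset.powersetCard (2 * (i + 1)) S, ((encNxt Q τ).biUnion fun τ₁ =>
            (Finset.univ.filter (fun μ => Enc D ρ μ (b - (i + 1)) τ₁)).image (delQ Q)).card
          ≤ ∑ _Q ∈ Finset.powersetCard (2 * (i + 1)) S,
            L ^ (2 * (i + 1)) * (2 * (2 * r * L) ^ 2) ^ (b - (i + 1)) := Finset.sum_le_sum hone
        _ = (S.card.choose (2 * (i + 1))) *
            (L ^ (2 * (i + 1)) * (2 * (2 * r * L) ^ 2) ^ (b - (i + 1))) := by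
            rw [Finset.sum_const, smul_eq_mul, Finset.card_powersetCard]
        _ ≤ (2 * r) ^ (2 * (i + 1)) *
            (L ^ (2 * (i + 1)) * (2 * (2 * r * L) ^ 2) ^ (b - (i + 1))) := by
            refine Nat.mul_le_mul_right _ ((Nat.choose_le_pow _ _).trans ?_)
            exact Nat.pow_le_pow_left hScard _
        _ = ((2 * r * L) ^ 2) ^ (i + 1) * (2 * (2 * r * L) ^ 2) ^ (b - (i + 1)) := by
            rw [← mul_assoc, ← mul_pow, pow_mul]
    · -- no round is possible
      rcases Nat.eq_zero_or_pos b with hb0 | hb0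
      · subst hb0
        rw [pow_zero]
        refine (Finset.card_le_card (t := {τ}) fun μ hμ => ?_).trans (by simp)
        rw [Finset.mem_filter] at hμ
        rw [Finset.mem_singleton]
        have h2 := hμ.2
        generalize hn : (0 : ℕ) = n at h2
        cases h2 with
        | nil => rfl
        | cons Q _ _ _ _ _ ha1 => omega
      · have hempty : (Finset.univ.filter (fun μ => Enc D ρ μ b τ)) = ∅ := by
          refine Finset.filter_eq_empty_iff.2 fun μ _ h2 => ?_
          generalize hn : b = n at h2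
          cases h2 with
          | nil => omega
          | cons Q h₁ ht' hc => exact hex ⟨_, ht', hc⟩
        rw [hempty]
        exact Nat.zero_le _

end AcFrege
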