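import Mathlib.Data.Fintype.Pi
import Mathlib.Data.Fintype.EquivFin
import Mathlib.Data.Fintype.Card
import Mathlib.Data.Finset.Card
import Mathlib.Algebra.BigOperators.Group.Finset.Basic
import Mathlib.Tactic.Linarith
import Mathlib.Tactic.Ring

/-!
# Matchings on a finite set as involutions

A matching is an involution of the vertex set; its fixed points are the free vertices.
-/

namespace AcFrege

/-- A matching: an involution of `V`.  The fixed points are the free vertices. -/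
structure Mt (V : Type) where
  /-- the partner of a vertex (the vertex itself if it is free) -/
  f : V → V
  inv : ∀ v, f (f v) = v

variable {V : Type}

instance : CoeFun (Mt V) (fun _ => V → V) := ⟨Mt.f⟩

@[ext] theorem Mt.ext {μ ν : Mt V} (h : ∀ v, μ v = ν v) : μ = ν := by
  cases μ; cases ν; simp only [Mt.mk.injEq]; exact funext h

@[simp] theorem Mt.invol (μ : Mt V) (v : V) : μ (μ v) = v := μ.inv v

theorem Mt.inj (μ : Mt V) {v w : V} (h : μ v = μ w) : v = w := by
  rw [← μ.invol v, h, μ.invol]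

theorem Mt.ne_partner (μ : Mt V) {v : V} (h : μ v ≠ v) : μ (μ v) ≠ μ v := by
  intro h'; exact h (μ.inj h')

instance [Fintype V] [DecidableEq V] : DecidableEq (Mt V) := fun μ ν =>
  decidable_of_iff (μ.f = ν.f) ⟨fun h => Mt.ext (fun v => congrFun h v), fun h => by rw [h]⟩

noncomputable instance [Fintype V] [DecidableEq V] : Fintype (Mt V) :=
  Fintype.ofInjective (fun μ : Mt V => μ.f) (fun _ _ h => Mt.ext (fun v => congrFun h v))

/-- `μ ≤ ν`: every edge of `μ` is an edge of `ν`. -/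
instance : PartialOrder (Mt V) where
  le μ ν := ∀ v, μ v ≠ v → ν v = μ v
  le_refl μ v _ := rfl
  le_trans μ ν κ h1 h2 v hv := by
    have h := h1 v hv
    rw [h2 v (by rw [h]; exact hv), h]
  le_antisymm μ ν h1 h2 := by
    ext v
    by_cases hv : μ v = v
    · by_cases hw : ν v = v
      · rw [hv, hw]
      · exact h2 v hw
    · exact (h1 v hv).symm

theorem Mt.le_def {μ ν : Mt V} : μ ≤ ν ↔ ∀ v, μ v ≠ v → ν v = μ v := Iff.rfl

theorem Mt.free_of_le {μ ν : Mt V} (h : μ ≤ ν) {v : V} (hv : ν v = v) : μ v = v := by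
  by_contra hc
  have := h v hc
  rw [hv] at this; exact hc this.symm

/-- Two matchings are compatible if their union is a matching. -/
def Compat (μ ν : Mt V) : Prop := ∀ v, μ v ≠ v → ν v ≠ v → μ v = ν v

theorem Compat.symm {μ ν : Mt V} (h : Compat μ ν) : Compat ν μ :=
  fun v h1 h2 => (h v h2 h1).symm

theorem Compat.of_le {μ ν κ : Mt V} (h1 : μ ≤ κ) (h2 : ν ≤ κ) : Compat μ ν := by
  intro v hm hn
  rw [← h1 v hm, h2 v hn]

theorem Compat.mono {μ ν μ' ν' : Mt V} (h : Compat μ' ν') (h1 : μ ≤ μ') (h2 : ν ≤ ν') :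
    Compat μ ν := by
  intro v hm hn
  have e1 := h1 v hm
  have e2 := h2 v hn
  rw [← e1, ← e2]
  exact h v (by rw [e1]; exact hm) (by rw [e2]; exact hn)

theorem Compat.refl (μ : Mt V) : Compat μ μ := fun _ _ _ => rfl

/-- The union of two compatible matchings. -/
def Mt.join [DecidableEq V] (μ ν : Mt V) (h : Compat μ ν) : Mt V where
  f v := if μ v = v then ν v else μ v
  inv v := by
    by_cases hv : μ v = v
    · rw [if_pos hv]
      by_cases hw : μ (ν v) = ν v
      · rw [if_pos hw, ν.invol]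
      · rw [if_neg hw]
        by_cases hn : ν v = v
        · rw [hn] at hw; exact absurd hv hw
        · have e := h (ν v) hw (ν.ne_partner hn)
          rw [ν.invol] at e
          exact e
    · rw [if_neg hv, if_neg (μ.ne_partner hv), μ.invol]

theorem Mt.join_apply [DecidableEq V] (μ ν : Mt V) (h : Compat μ ν) (v : V) :
    (μ.join ν h) v = if μ v = v then ν v else μ v := rfl

theorem Mt.le_join_left [DecidableEq V] (μ ν : Mt V) (h : Compat μ ν) : μ ≤ μ.join ν h := by
  intro v hv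
  rw [Mt.join_apply, if_neg hv]

theorem Mt.le_join_right [DecidableEq V] (μ ν : Mt V) (h : Compat μ ν) : ν ≤ μ.join ν h := by
  intro v hv
  rw [Mt.join_apply]
  by_cases hm : μ v = v
  · rw [if_pos hm]
  · rw [if_neg hm]; exact h v hm hv

theorem Mt.join_le [DecidableEq V] {μ ν κ : Mt V} (h : Compat μ ν) (h1 : μ ≤ κ) (h2 : ν ≤ κ) :
    μ.join ν h ≤ κ := by
  intro v hv
  rw [Mt.join_apply] at hv ⊢
  by_cases hm : μ v = v
  · rw [if_pos hm] at hv ⊢; exact h2 v hv
  · rw [if_neg hm]; exact h1 v hm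

section Fin

variable [Fintype V] [DecidableEq V]

/-- The free vertices. -/
def free (μ : Mt V) : Finset V := Finset.univ.filter (fun v => μ v = v)

@[simp] theorem mem_free {μ : Mt V} {v : V} : v ∈ free μ ↔ μ v = v := by simp [free]

theorem free_anti {μ ν : Mt V} (h : μ ≤ ν) : free ν ⊆ free μ := by
  intro v hv
  rw [mem_free] at hv ⊢
  exact Mt.free_of_le h hv

theorem free_join {μ ν : Mt V} (h : Compat μ ν) : free (μ.join ν h) = free μ ∩ free ν := by
  ext v
  rw [Finset.mem_inter, mem_free, mem_free, mem_free, Mt.join_apply]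
  by_cases hm : μ v = v
  · rw [if_pos hm]; simp [hm]
  · rw [if_neg hm]; simp [hm]

/-- The number of vertices covered by `μ` among the free vertices of `ρ`. -/
def cost (ρ μ : Mt V) : ℕ := ((free ρ).filter (fun v => μ v ≠ v)).card

theorem cost_mono_right {ρ μ ν : Mt V} (h : μ ≤ ν) : cost ρ μ ≤ cost ρ ν := by
  unfold cost
  apply Finset.card_le_card
  intro v hv
  rw [Finset.mem_filter] at hv ⊢
  exact ⟨hv.1, fun hc => hv.2 (Mt.free_of_le h hc)⟩

theorem cost_anti_left {ρ ρ' μ : Mt V} (h : ρ ≤ ρ') : cost ρ' μ ≤ cost ρ μ := by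
  unfold cost
  exact Finset.card_le_card (Finset.filter_subset_filter _ (free_anti h))

/-- If `ρ ≤ μ` the cost is the difference of the numbers of free vertices. -/
theorem cost_add_free {ρ μ : Mt V} (h : ρ ≤ μ) :
    cost ρ μ + (free μ).card = (free ρ).card := by
  unfold cost
  have h1 : free μ = (free ρ).filter (fun v => μ v = v) := by
    ext v
    rw [Finset.mem_filter, mem_free, mem_free]
    exact ⟨fun hv => ⟨Mt.free_of_le h hv, hv⟩, fun hv => hv.2⟩
  rw [h1, add_comm]
  exact Finset.card_filter_add_card_filter_not (s := free ρ) (fun v => μ v = v)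

/-- Joining costs at most the cost of the second matching. -/
theorem free_le_free_join_add {ρ μ ν : Mt V} (hρ : ρ ≤ ν) (h : Compat μ ν) :
    (free ν).card ≤ (free (μ.join ν h)).card + cost ρ μ := by
  rw [free_join]
  unfold cost
  have h1 : free ν ⊆ (free μ ∩ free ν) ∪ (free ρ).filter (fun v => μ v ≠ v) := by
    intro v hv
    rw [Finset.mem_union, Finset.mem_inter, Finset.mem_filter, mem_free, mem_free, mem_free]
    rw [mem_free] at hv
    by_cases hm : μ v = v
    · exact Or.inl ⟨hm, hv⟩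
    · exact Or.inr ⟨Mt.free_of_le hρ hv, hm⟩
  exact (Finset.card_le_card h1).trans (Finset.card_union_le _ _)

/-- The extensions of `ρ` with exactly `l` free vertices. -/
noncomputable def E (ρ : Mt V) (l : ℕ) : Finset (Mt V) := by
  classical exact Finset.univ.filter (fun μ => ρ ≤ μ ∧ (free μ).card = l)

@[simp] theorem mem_E {ρ μ : Mt V} {l : ℕ} : μ ∈ E ρ l ↔ ρ ≤ μ ∧ (free μ).card = l := by
  simp [E]

/-- The disjunction of the terms of `D` is decided by matchings of cost at most `c` over `ρ`. -/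
def Rep (D : Set (Mt V)) (c : ℕ) (ρ : Mt V) : Prop :=
  ∃ A1 A0 : Set (Mt V),
    (∀ μ, μ ∈ A1 ∨ μ ∈ A0 → ρ ≤ μ ∧ cost ρ μ ≤ c) ∧
    (∀ μ ∈ A1, ∃ t ∈ D, t ≤ μ) ∧
    (∀ μ ∈ A0, ∀ t ∈ D, ¬ Compat t μ) ∧
    (∀ ν, ρ ≤ ν → 3 * c ≤ (free ν).card → ∃ μ, (μ ∈ A1 ∨ μ ∈ A0) ∧ Compat μ ν)

/-- A fixed injective rank on matchings. -/
noncomputable def rk (μ : Mt V) : ℕ := (Fintype.equivFin (Mt V) μ : ℕ)

theorem rk_inj {μ ν : Mt V} (h : rk μ = rk ν) : μ = ν :=
  (Fintype.equivFin (Mt V)).injective (Fin.ext h)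

/-- `t` is the term of `D` of least rank that satisfies `p`. -/
def IsFirst (D : Set (Mt V)) (p : Mt V → Prop) (t : Mt V) : Prop :=
  t ∈ D ∧ p t ∧ ∀ t' ∈ D, p t' → rk t ≤ rk t'

theorem IsFirst.unique {D : Set (Mt V)} {p : Mt V → Prop} {t t' : Mt V}
    (h : IsFirst D p t) (h' : IsFirst D p t') : t = t' :=
  rk_inj (le_antisymm (h.2.2 t' h'.1 h'.2.1) (h'.2.2 t h.1 h.2.1))

theorem exists_isFirst {D : Set (Mt V)} {p : Mt V → Prop} (h : ∃ t ∈ D, p t) :
    ∃ t, IsFirst D p t := by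
  classical
  have hex : ∃ n, ∃ t ∈ D, p t ∧ rk t = n := by
    obtain ⟨t, ht, hp⟩ := h; exact ⟨rk t, t, ht, hp, rfl⟩
  obtain ⟨t, ht, hp, hr⟩ := Nat.find_spec hex
  refine ⟨t, ht, hp, fun t' ht' hp' => ?_⟩
  rw [hr]
  exact Nat.find_min' hex ⟨t', ht', hp', rfl⟩

/-- `Enc D ρ μ b τ`: the matching `μ` is decoded from `τ` in several rounds in which altogether
`2 b` vertices are used.  In one round `t` is the first term of `D` contained in `τ`, `Q` is a set
of `2 a` vertices free in `ρ` and covered by `t`, the next `τ₁` covers `Q` by vertices of `Q` and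
free vertices of `τ` and agrees with `τ` elsewhere, and `μ` is obtained from the matching `μ₁`
decoded from `τ₁` by deleting the edges that meet `Q`. -/
inductive Enc (D : Set (Mt V)) (ρ : Mt V) : Mt V → ℕ → Mt V → Prop
  | nil (μ : Mt V) : Enc D ρ μ 0 μ
  | cons {μ μ₁ τ τ₁ t : Mt V} {a b : ℕ} (Q : Finset V)
      (h₁ : Enc D ρ μ₁ b τ₁)
      (ht : IsFirst D (fun t => t ≤ τ) t)
      (hc : Compat t ρ)
      (hQ : ∀ v ∈ Q, ρ v = v ∧ t v ≠ v)
      (ha : Q.card = 2 * a)
      (ha1 : 1 ≤ a)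
      (hin : ∀ v ∈ Q, τ₁ v ≠ v ∧ (τ₁ v ∈ Q ∨ τ (τ₁ v) = τ₁ v))
      (hout : ∀ v, v ∉ Q → τ₁ v ∈ Q ∨ τ₁ v = τ v)
      (hμ : ∀ v, μ v = if v ∈ Q ∨ μ₁ v ∈ Q then v else μ₁ v) :
      Enc D ρ μ (a + b) τ

end Fin

end AcFrege
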