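import Pool.Agent.Work.MP_c07f0d_lc.AC.AcMat

/-!
# Extensions of a matching with a given number of free vertices
-/

namespace AcFrege

variable {V : Type} [Fintype V] [DecidableEq V]

/-- Adding an edge between two free vertices. -/
def Mt.addEdge (μ : Mt V) (x y : V) (hx : μ x = x) (hy : μ y = y) : Mt V where
  f v := if v = x then y else if v = y then x else μ v
  inv v := by
    by_cases h1 : v = x
    · rw [if_pos h1]
      by_cases h2 : y = x
      · rw [if_pos h2, h1, h2]
      · rw [if_neg h2, if_pos rfl, h1]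
    · rw [if_neg h1]
      by_cases h2 : v = y
      · rw [if_pos h2, if_pos rfl, h2]
      · rw [if_neg h2]
        have h3 : μ v ≠ x := fun h => h1 (by rw [← μ.invol v, h, hx])
        have h4 : μ v ≠ y := fun h => h2 (by rw [← μ.invol v, h, hy])
        rw [if_neg h3, if_neg h4, μ.invol]

theorem Mt.addEdge_apply (μ : Mt V) {x y : V} (hx : μ x = x) (hy : μ y = y) (v : V) :
    (μ.addEdge x y hx hy) v = if v = x then y else if v = y then x else μ v := rfl

theorem Mt.le_addEdge (μ : Mt V) {x y : V} (hx : μ x = x) (hy : μ y = y) :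
    μ ≤ μ.addEdge x y hx hy := by
  intro v hv
  rw [Mt.addEdge_apply]
  have h1 : v ≠ x := fun h => hv (by rw [h, hx])
  have h2 : v ≠ y := fun h => hv (by rw [h, hy])
  rw [if_neg h1, if_neg h2]

theorem Mt.free_addEdge (μ : Mt V) {x y : V} (hx : μ x = x) (hy : μ y = y) (hxy : x ≠ y) :
    free (μ.addEdge x y hx hy) = ((free μ).erase x).erase y := by
  ext v
  rw [mem_free, Mt.addEdge_apply, Finset.mem_erase, Finset.mem_erase, mem_free]
  by_cases h1 : v = x
  · rw [if_pos h1]
    constructor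
    · intro h
      exact absurd (h1 ▸ h).symm hxy
    · intro h
      exact absurd h1 h.2.1
  · rw [if_neg h1]
    by_cases h2 : v = y
    · rw [if_pos h2]
      constructor
      · intro h
        exact absurd (h2 ▸ h) hxy
      · intro h
        exact absurd h2 h.1
    · rw [if_neg h2]
      exact ⟨fun h => ⟨h2, h1, h⟩, fun h => h.2.2⟩

theorem Mt.card_free_addEdge (μ : Mt V) {x y : V} (hx : μ x = x) (hy : μ y = y) (hxy : x ≠ y) :
    (free (μ.addEdge x y hx hy)).card + 2 = (free μ).card := by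
  have h1 : x ∈ free μ := mem_free.2 hx
  have h2 : y ∈ (free μ).erase x := Finset.mem_erase.2 ⟨fun h => hxy h.symm, mem_free.2 hy⟩
  have h3 := Finset.card_erase_add_one h1
  have h4 := Finset.card_erase_add_one h2
  rw [μ.free_addEdge hx hy hxy]
  omega

theorem exists_ext (ρ : Mt V) (k : ℕ) (h : 2 * k ≤ (free ρ).card) :
    ∃ μ, ρ ≤ μ ∧ (free μ).card + 2 * k = (free ρ).card := by
  induction k with
  | zero => exact ⟨ρ, le_refl _, rfl⟩
  | succ k ih =>
    obtain ⟨μ, h1, h2⟩ := ih (by omega)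
    have h3 : 1 < (free μ).card := by omega
    obtain ⟨x, hx, y, hy, hxy⟩ := Finset.one_lt_card.1 h3
    rw [mem_free] at hx hy
    refine ⟨μ.addEdge x y hx hy, h1.trans (μ.le_addEdge hx hy), ?_⟩
    have h4 := μ.card_free_addEdge hx hy hxy
    omega

/-- There are extensions of `ρ` with exactly `l` free vertices. -/
theorem E_nonempty (ρ : Mt V) {l : ℕ} (hl : l ≤ (free ρ).card) (he : Even ((free ρ).card - l)) :
    (E ρ l).Nonempty := by
  obtain ⟨k, hk⟩ := he
  obtain ⟨μ, h1, h2⟩ := exists_ext ρ k (by omega)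
  exact ⟨μ, mem_E.2 ⟨h1, by omega⟩⟩

/-- The iterated count, from the one for one step. -/
theorem card_E_iter_of (ρ : Mt V)
    (hstep : ∀ l, 2 ≤ l → (E ρ (l - 2)).card * ((free ρ).card - l) ≤ (E ρ l).card * l ^ 2)
    {l : ℕ} (b : ℕ) (hb : 2 * b ≤ l) :
    (E ρ (l - 2 * b)).card * ((free ρ).card - l) ^ b ≤ (E ρ l).card * l ^ (2 * b) := by
  induction b with
  | zero => simp
  | succ b ih =>
    have h1 := ih (by omega)
    have h2 := hstep (l - 2 * b) (by omega)
    have h3 : l - 2 * b - 2 = l - 2 * (b + 1) := by omega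
    rw [h3] at h2
    set F := (free ρ).card with hF
    have h4 : F - l ≤ F - (l - 2 * b) := by omega
    have h5 : (l - 2 * b) ^ 2 ≤ l ^ 2 := Nat.pow_le_pow_left (by omega) 2
    calc (E ρ (l - 2 * (b + 1))).card * (F - l) ^ (b + 1)
        = (E ρ (l - 2 * (b + 1))).card * (F - l) * (F - l) ^ b := by ring
      _ ≤ (E ρ (l - 2 * (b + 1))).card * (F - (l - 2 * b)) * (F - l) ^ b :=
          Nat.mul_le_mul_right _ (Nat.mul_le_mul_left _ h4)
      _ ≤ (E ρ (l - 2 * b)).card * (l - 2 * b) ^ 2 * (F - l) ^ b := Nat.mul_le_mul_right _ h2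
      _ = (E ρ (l - 2 * b)).card * (F - l) ^ b * (l - 2 * b) ^ 2 := by ring
      _ ≤ (E ρ l).card * l ^ (2 * b) * l ^ 2 := Nat.mul_le_mul h1 h5
      _ = (E ρ l).card * l ^ (2 * (b + 1)) := by ring

end AcFrege
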