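import Pool.Agent.Work.MP_c07f0d_lc.AC.AcMat
import Mathlib.Data.ZMod.Basic
import Mathlib.Algebra.BigOperators.Group.Finset.Basic
import Mathlib.Tactic.Ring

/-!
# The canonical process of a disjunction of matchings
-/

namespace AcFrege

variable {V : Type} [Fintype V] [DecidableEq V]

/-- The vertices which are free in `μ` and covered by `t`. -/
def qs (t μ : Mt V) : Finset V := Finset.univ.filter (fun v => μ v = v ∧ t v ≠ v)

@[simp] theorem mem_qs {t μ : Mt V} {v : V} : v ∈ qs t μ ↔ μ v = v ∧ t v ≠ v := by simp [qs]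

theorem partner_not_free {μ : Mt V} {v : V} (h : μ v ≠ v) : μ (μ v) ≠ μ v := μ.ne_partner h

theorem qs_closed {t μ : Mt V} (hc : Compat t μ) {v : V} (hv : v ∈ qs t μ) : t v ∈ qs t μ := by
  rw [mem_qs] at hv ⊢
  refine ⟨?_, t.ne_partner hv.2⟩
  by_contra hm
  have e := hc (t v) (t.ne_partner hv.2) hm
  rw [t.invol] at e
  -- `v = μ (t v)`
  have e2 : μ v = t v := by
    have := congrArg μ e
    rwa [μ.invol] at this
  exact hv.2 (by rw [← e2]; exact hv.1)

theorem qs_nonempty {t μ : Mt V} (hc : Compat t μ) (hn : ¬ t ≤ μ) : (qs t μ).Nonempty := by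
  rw [Mt.le_def] at hn
  push Not at hn
  obtain ⟨v, h1, h2⟩ := hn
  refine ⟨v, ?_⟩
  rw [mem_qs]
  refine ⟨?_, h1⟩
  by_contra hm
  exact h2 (hc v h1 hm).symm

theorem qs_even {t μ : Mt V} (hc : Compat t μ) : Even (qs t μ).card := by
  have h : ∑ _v ∈ qs t μ, (1 : ZMod 2) = 0 := by
    refine Finset.sum_involution (fun v _ => t v) ?_ ?_ ?_ ?_
    · intro v _; decide
    · intro v hv _
      rw [mem_qs] at hv
      exact hv.2
    · intro v hv
      exact qs_closed hc hv
    · intro v _
      exact t.invol v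
  rw [Finset.sum_const, nsmul_eq_mul, mul_one] at h
  exact (ZMod.natCast_eq_zero_iff_even).1 h

theorem card_qs_le {t μ ρ : Mt V} (h : ρ ≤ μ) : (qs t μ).card ≤ cost ρ t := by
  unfold cost
  apply Finset.card_le_card
  intro v hv
  rw [mem_qs] at hv
  rw [Finset.mem_filter, mem_free]
  exact ⟨Mt.free_of_le h hv.1, hv.2⟩

/-- One step of the canonical process: the vertices of the first compatible term are covered. -/
structure Step (D : Set (Mt V)) (μ μ' t : Mt V) : Prop where
  first : IsFirst D (fun t => Compat t μ) t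
  nle : ¬ t ≤ μ
  le : μ ≤ μ'
  cov : ∀ v ∈ qs t μ, μ' v ≠ v
  near : ∀ v, μ v = v → μ' v ≠ v → v ∈ qs t μ ∨ μ' v ∈ qs t μ

theorem Step.compat {D : Set (Mt V)} {μ μ' t : Mt V} (h : Step D μ μ' t) : Compat t μ :=
  h.first.2.1

theorem Step.cost_le {D : Set (Mt V)} {μ μ' t : Mt V} (h : Step D μ μ' t) :
    cost μ μ' ≤ 2 * (qs t μ).card := by
  unfold cost
  have h1 : (free μ).filter (fun v => μ' v ≠ v) ⊆ qs t μ ∪ (qs t μ).image μ' := by
    intro v hv
    rw [Finset.mem_filter, mem_free] at hv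
    rw [Finset.mem_union, Finset.mem_image]
    rcases h.near v hv.1 hv.2 with h2 | h2
    · exact Or.inl h2
    · exact Or.inr ⟨μ' v, h2, μ'.invol v⟩
  calc ((free μ).filter (fun v => μ' v ≠ v)).card ≤ (qs t μ ∪ (qs t μ).image μ').card :=
        Finset.card_le_card h1
    _ ≤ (qs t μ).card + ((qs t μ).image μ').card := Finset.card_union_le _ _
    _ ≤ (qs t μ).card + (qs t μ).card := by
        have := Finset.card_image_le (s := qs t μ) (f := (μ' : V → V))
        omega
    _ = 2 * (qs t μ).card := by ring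

/-- A run of the canonical process from `μ` to `μ'`, `b` is half the number of the vertices asked
for. -/
inductive Path (D : Set (Mt V)) : Mt V → Mt V → ℕ → Prop
  | nil (μ : Mt V) : Path D μ μ 0
  | cons {μ μ₁ μ' t : Mt V} {a b : ℕ} (h : Step D μ μ₁ t) (hp : Path D μ₁ μ' b)
      (ha : (qs t μ).card = 2 * a) : Path D μ μ' (a + b)

theorem Path.le {D : Set (Mt V)} {μ μ' : Mt V} {b : ℕ} (h : Path D μ μ' b) : μ ≤ μ' := by
  induction h with
  | nil μ => exact le_refl _
  | cons h hp ha ih => exact h.le.trans ih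

theorem Path.cost_le {D : Set (Mt V)} {μ μ' : Mt V} {b : ℕ} (h : Path D μ μ' b) :
    cost μ μ' ≤ 4 * b := by
  induction h with
  | nil μ =>
    have := cost_add_free (le_refl μ)
    omega
  | cons h hp ha ih =>
    have e1 := cost_add_free h.le
    have e2 := cost_add_free hp.le
    have e3 := cost_add_free (h.le.trans hp.le)
    have e4 := h.cost_le
    omega

theorem Path.snoc {D : Set (Mt V)} {μ μ' : Mt V} {b : ℕ} (h : Path D μ μ' b) :
    ∀ {μ'' t : Mt V}, Step D μ' μ'' t → ∃ b', Path D μ μ'' b' := by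
  induction h with
  | nil μ =>
    intro μ'' t hs
    obtain ⟨a, ha⟩ := qs_even hs.compat
    exact ⟨a + 0, Path.cons hs (Path.nil _) (by omega)⟩
  | cons h hp ha ih =>
    intro μ'' t hs
    obtain ⟨b', hb'⟩ := ih hs
    exact ⟨_, Path.cons h hb' ha⟩

/-- The matching `τ₁` with the edges meeting `Q` replaced by those of `t`. -/
def swapQ (t τ₁ : Mt V) (Q : Finset V) (hQ : ∀ v ∈ Q, t v ∈ Q) : Mt V where
  f v := if v ∈ Q then t v else if τ₁ v ∈ Q then v else τ₁ v
  inv v := by
    by_cases hv : v ∈ Q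
    · rw [if_pos hv, if_pos (hQ v hv), t.invol]
    · rw [if_neg hv]
      by_cases hw : τ₁ v ∈ Q
      · rw [if_pos hw, if_neg hv, if_pos hw]
      · rw [if_neg hw, if_neg hw, τ₁.invol, if_neg hv]

theorem swapQ_apply (t τ₁ : Mt V) (Q : Finset V) (hQ : ∀ v ∈ Q, t v ∈ Q) (v : V) :
    swapQ t τ₁ Q hQ v = if v ∈ Q then t v else if τ₁ v ∈ Q then v else τ₁ v := rfl

/-- A run can be encoded. -/
theorem Path.exists_enc {D : Set (Mt V)} {μ μ' : Mt V} {b : ℕ} (h : Path D μ μ' b) :
    ∀ {ρ : Mt V}, ρ ≤ μ →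
      ∃ τ, Enc D ρ μ b τ ∧ μ ≤ τ ∧ (free τ).card + 2 * b = (free μ).card := by
  induction h with
  | nil μ =>
    intro ρ _
    exact ⟨μ, Enc.nil μ, le_refl _, by omega⟩
  | @cons μ μ₁ μ' t a b h hp ha ih =>
    intro ρ hρ
    obtain ⟨τ₁, he, hle, hfree⟩ := ih (hρ.trans h.le)
    have hcl : ∀ v ∈ qs t μ, t v ∈ qs t μ := fun v hv => qs_closed h.compat hv
    set Q := qs t μ with hQdef
    set τ := swapQ t τ₁ Q hcl with hτ
    have hτa : ∀ v, τ v = if v ∈ Q then t v else if τ₁ v ∈ Q then v else τ₁ v := fun v => rfl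
    have hQf : ∀ v ∈ Q, μ v = v ∧ t v ≠ v := fun v hv => mem_qs.1 hv
    have hτ₁Q : ∀ v ∈ Q, τ₁ v = μ₁ v ∧ τ₁ v ≠ v := by
      intro v hv
      have h1 := h.cov v hv
      have h2 := hle v h1
      exact ⟨h2, by rw [h2]; exact h1⟩
    -- covered vertices of `μ`
    have hcov : ∀ v, μ v ≠ v → v ∉ Q ∧ μ₁ v = μ v ∧ τ₁ v = μ v ∧ μ v ∉ Q := by
      intro v hv
      have h1 := h.le v hv
      have h2 : τ₁ v = μ₁ v := hle v (by rw [h1]; exact hv)
      refine ⟨fun hc => hv (hQf v hc).1, h1, by rw [h2, h1], fun hc => ?_⟩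
      exact μ.ne_partner hv (hQf _ hc).1
    have hμτ : μ ≤ τ := by
      intro v hv
      obtain ⟨h1, h2, h3, h4⟩ := hcov v hv
      rw [hτa, if_neg h1, h3, if_neg h4]
    have htτ : t ≤ τ := by
      intro v hv
      by_cases hvQ : v ∈ Q
      · rw [hτa, if_pos hvQ]
      · have hm : μ v ≠ v := fun hc => hvQ (mem_qs.2 ⟨hc, hv⟩)
        rw [hμτ v hm]
        exact (h.compat v hv hm).symm
    have hμ : ∀ v, μ v = if v ∈ Q ∨ μ₁ v ∈ Q then v else μ₁ v := by
      intro v
      by_cases hm : μ v = v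
      · by_cases hor : v ∈ Q ∨ μ₁ v ∈ Q
        · rw [if_pos hor, hm]
        · rw [if_neg hor, hm]
          by_contra hne
          exact hor (h.near v hm (fun hc => hne hc.symm))
      · obtain ⟨h1, h2, h3, h4⟩ := hcov v hm
        have hor : ¬ (v ∈ Q ∨ μ₁ v ∈ Q) := by
          rintro (h5 | h5)
          · exact h1 h5
          · rw [h2] at h5; exact h4 h5
        rw [if_neg hor, h2]
    refine ⟨τ, ?_, hμτ, ?_⟩
    · refine Enc.cons (μ₁ := μ₁) (τ₁ := τ₁) (t := t) Q he ?_ ?_ ?_ ha ?_ ?_ ?_ hμ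
      · refine ⟨h.first.1, htτ, fun t' ht' hle' => h.first.2.2 t' ht' ?_⟩
        exact Compat.of_le hle' hμτ
      · exact h.compat.mono (le_refl _) hρ
      · intro v hv
        exact ⟨Mt.free_of_le hρ (hQf v hv).1, (hQf v hv).2⟩
      · have hne : Q.Nonempty := qs_nonempty h.compat h.nle
        have := Finset.card_pos.2 hne
        omega
      · intro v hv
        refine ⟨(hτ₁Q v hv).2, ?_⟩
        by_cases hw : τ₁ v ∈ Q
        · exact Or.inl hw
        · right
          rw [hτa, if_neg hw, τ₁.invol, if_pos hv]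
      · intro v hv
        by_cases hw : τ₁ v ∈ Q
        · exact Or.inl hw
        · right
          rw [hτa, if_neg hv, if_neg hw]
    · -- counting
      have hset : free τ ∪ Q = free τ₁ ∪ (free μ \ free μ₁) := by
        ext v
        rw [Finset.mem_union, Finset.mem_union, Finset.mem_sdiff, mem_free, mem_free, mem_free,
          mem_free]
        constructor
        · rintro (hv | hv)
          · rw [hτa] at hv
            by_cases hvQ : v ∈ Q
            · rw [if_pos hvQ] at hv
              exact absurd hv (hQf v hvQ).2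
            · rw [if_neg hvQ] at hv
              by_cases hw : τ₁ v ∈ Q
              · right
                -- the partner of `v` in `μ₁` lies in `Q`
                have h1 := hτ₁Q _ hw
                rw [τ₁.invol] at h1
                have h2 : μ₁ v = τ₁ v := by
                  have := congrArg μ₁ h1.1
                  rwa [μ₁.invol] at this
                have h3 : μ₁ v ∈ Q := by rw [h2]; exact hw
                refine ⟨?_, ?_⟩
                · rw [hμ v, if_pos (Or.inr h3)]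
                · rw [h2]; exact fun hc => hvQ (by rw [← hc]; exact hw)
              · rw [if_neg hw] at hv
                exact Or.inl hv
          · right
            exact ⟨(hQf v hv).1, h.cov v hv⟩
        · rintro (hv | ⟨hv, hv'⟩)
          · left
            have hvQ : v ∉ Q := fun hc => (hτ₁Q v hc).2 hv
            rw [hτa, if_neg hvQ, hv, if_neg hvQ]
          · by_cases hvQ : v ∈ Q
            · exact Or.inr hvQ
            · left
              have h1 : μ₁ v ∈ Q := (h.near v hv hv').resolve_left hvQ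
              have h2 : τ₁ v = μ₁ v := hle v hv'
              rw [hτa, if_neg hvQ, h2, if_pos h1]
      have hd1 : Disjoint (free τ) Q := by
        rw [Finset.disjoint_left]
        intro v hv hvQ
        rw [mem_free, hτa, if_pos hvQ] at hv
        exact (hQf v hvQ).2 hv
      have hd2 : Disjoint (free τ₁) (free μ \ free μ₁) := by
        rw [Finset.disjoint_left]
        intro v hv hv'
        rw [Finset.mem_sdiff] at hv'
        exact hv'.2 (free_anti hle hv)
      have hc := congrArg Finset.card hset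
      rw [Finset.card_union_of_disjoint hd1, Finset.card_union_of_disjoint hd2,
        Finset.card_sdiff_of_subset (free_anti h.le), ha] at hc
      have hle2 := Finset.card_le_card (free_anti h.le)
      omega

/-- Adding the edge `v w`. -/
def addE (κ : Mt V) (v w : V) (hv : κ v = v) (hw : κ w = w) : Mt V where
  f x := if x = v then w else if x = w then v else κ x
  inv x := by
    by_cases h1 : x = v
    · rw [if_pos h1]
      by_cases h2 : w = v
      · rw [if_pos h2, h2, h1]
      · rw [if_neg h2, if_pos rfl, h1]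
    · rw [if_neg h1]
      by_cases h2 : x = w
      · rw [if_pos h2, if_pos rfl, h2]
      · rw [if_neg h2]
        have h3 : κ x ≠ v := fun hc => h1 (κ.inj (by rw [hc, hv]))
        have h4 : κ x ≠ w := fun hc => h2 (κ.inj (by rw [hc, hw]))
        rw [if_neg h3, if_neg h4, κ.invol]

theorem addE_apply (κ : Mt V) (v w : V) (hv : κ v = v) (hw : κ w = w) (x : V) :
    addE κ v w hv hw x = if x = v then w else if x = w then v else κ x := rfl

theorem le_addE (κ : Mt V) (v w : V) (hv : κ v = v) (hw : κ w = w) : κ ≤ addE κ v w hv hw := by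
  intro x hx
  have h1 : x ≠ v := fun hc => hx (by rw [hc]; exact hv)
  have h2 : x ≠ w := fun hc => hx (by rw [hc]; exact hw)
  rw [addE_apply, if_neg h1, if_neg h2]

theorem free_addE (κ : Mt V) (v w : V) (hv : κ v = v) (hw : κ w = w) (hne : v ≠ w) :
    free (addE κ v w hv hw) = free κ \ {v, w} := by
  ext x
  rw [mem_free, Finset.mem_sdiff, mem_free, addE_apply, Finset.mem_insert, Finset.mem_singleton]
  by_cases h1 : x = v
  · subst h1
    simp [hne.symm]
  · rw [if_neg h1]
    by_cases h2 : x = w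
    · subst h2
      simp [hne]
    · rw [if_neg h2]
      simp [h1, h2]

/-- Any set of vertices can be covered as long as there are enough free vertices. -/
theorem exists_cover (κ : Mt V) (Q : Finset V) (h : 2 * Q.card ≤ (free κ).card) :
    ∃ κ', κ ≤ κ' ∧ (∀ v ∈ Q, κ' v ≠ v) ∧ (free κ).card ≤ (free κ').card + 2 * Q.card := by
  classical
  induction Q using Finset.induction_on with
  | empty => exact ⟨κ, le_refl _, by simp, by simp⟩
  | insert v Q hvQ ih =>
    rw [Finset.card_insert_of_notMem hvQ] at h ⊢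
    obtain ⟨κ', h1, h2, h3⟩ := ih (by omega)
    by_cases hv : κ' v = v
    · have hcard : 1 < (free κ').card := by omega
      obtain ⟨w, hw, hwv⟩ := Finset.exists_mem_ne hcard v
      rw [mem_free] at hw
      refine ⟨addE κ' v w hv hw, h1.trans (le_addE _ _ _ _ _), ?_, ?_⟩
      · intro x hx
        rw [Finset.mem_insert] at hx
        rcases hx with rfl | hx
        · rw [addE_apply, if_pos rfl]; exact hwv
        · intro hc
          exact h2 x hx (Mt.free_of_le (le_addE κ' v w hv hw) hc)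
      · rw [free_addE κ' v w hv hw hwv.symm]
        have hs : ({v, w} : Finset V) ⊆ free κ' := by
          intro x hx
          rw [Finset.mem_insert, Finset.mem_singleton] at hx
          rw [mem_free]
          rcases hx with rfl | rfl
          · exact hv
          · exact hw
        rw [Finset.card_sdiff_of_subset hs, Finset.card_pair hwv.symm]
        omega
    · refine ⟨κ', h1, ?_, by omega⟩
      intro x hx
      rw [Finset.mem_insert] at hx
      rcases hx with rfl | hx
      · exact hv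
      · exact h2 x hx

/-- The part of `κ` consisting of the edges of `μ ≤ κ` and the edges meeting `Q`. -/
def partQ (μ κ : Mt V) (h : μ ≤ κ) (Q : Finset V) : Mt V where
  f v := if μ v ≠ v ∨ v ∈ Q ∨ κ v ∈ Q then κ v else v
  inv v := by
    by_cases hC : μ v ≠ v ∨ v ∈ Q ∨ κ v ∈ Q
    · rw [if_pos hC]
      have hC' : μ (κ v) ≠ κ v ∨ κ v ∈ Q ∨ κ (κ v) ∈ Q := by
        rcases hC with h1 | h1 | h1
        · left
          rw [h v h1]
          exact μ.ne_partner h1
        · right; right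
          rw [κ.invol]; exact h1
        · exact Or.inr (Or.inl h1)
      rw [if_pos hC', κ.invol]
    · rw [if_neg hC, if_neg hC]

theorem partQ_apply (μ κ : Mt V) (h : μ ≤ κ) (Q : Finset V) (v : V) :
    partQ μ κ h Q v = if μ v ≠ v ∨ v ∈ Q ∨ κ v ∈ Q then κ v else v := rfl

/-- A step compatible with a given matching `ν`. -/
theorem exists_step {D : Set (Mt V)} {μ ν t : Mt V} (hcomp : Compat μ ν)
    (ht : IsFirst D (fun t => Compat t μ) t) (hn : ¬ t ≤ μ)
    (hroom : 2 * (qs t μ).card ≤ (free (μ.join ν hcomp)).card) :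
    ∃ μ', Step D μ μ' t ∧ Compat μ' ν ∧ (free μ').card < (free μ).card := by
  obtain ⟨κ, h1, h2, _⟩ := exists_cover (μ.join ν hcomp) (qs t μ) hroom
  have hμκ : μ ≤ κ := (Mt.le_join_left μ ν hcomp).trans h1
  have hνκ : ν ≤ κ := (Mt.le_join_right μ ν hcomp).trans h1
  set μ' := partQ μ κ hμκ (qs t μ) with hμ'
  have ha : ∀ v, μ' v = if μ v ≠ v ∨ v ∈ qs t μ ∨ κ v ∈ qs t μ then κ v else v := fun v => rfl
  have hle : μ ≤ μ' := by
    intro v hv
    rw [ha, if_pos (Or.inl hv)]
    exact hμκ v hv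
  have hle' : μ' ≤ κ := by
    intro v hv
    rw [ha] at hv ⊢
    by_cases hC : μ v ≠ v ∨ v ∈ qs t μ ∨ κ v ∈ qs t μ
    · rw [if_pos hC]
    · rw [if_neg hC] at hv
      exact absurd rfl hv
  have hcov : ∀ v ∈ qs t μ, μ' v ≠ v := by
    intro v hv
    rw [ha, if_pos (Or.inr (Or.inl hv))]
    exact h2 v hv
  refine ⟨μ', ⟨ht, hn, hle, hcov, ?_⟩, Compat.of_le hle' hνκ, ?_⟩
  · intro v hv hv'
    rw [ha] at hv' ⊢
    by_cases hC : μ v ≠ v ∨ v ∈ qs t μ ∨ κ v ∈ qs t μ
    · rw [if_pos hC]
      rcases hC with h3 | h3 | h3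
      · exact absurd hv h3
      · exact Or.inl h3
      · exact Or.inr h3
    · rw [if_neg hC] at hv'
      exact absurd rfl hv'
  · obtain ⟨v, hv⟩ := qs_nonempty ht.2.1 hn
    apply Finset.card_lt_card
    rw [Finset.ssubset_iff_of_subset (free_anti hle)]
    exact ⟨v, mem_free.2 (mem_qs.1 hv).1, fun hc => hcov v hv (mem_free.1 hc)⟩

/-- The process started at `ρ'` reaches a leaf compatible with `ν`, provided that all runs are
cheap. -/
theorem exists_leaf {D : Set (Mt V)} {ρ' ν : Mt V} {c k : ℕ}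
    (hD : ∀ t ∈ D, Compat t ρ' → cost ρ' t ≤ k)
    (hgood : ∀ μ b, Path D ρ' μ b → cost ρ' μ ≤ c) (hν : ρ' ≤ ν)
    (hroom : c + 2 * k ≤ (free ν).card) :
    ∀ (n : ℕ) (μ : Mt V) (b : ℕ), (free μ).card = n → Path D ρ' μ b → Compat μ ν →
      ∃ (μ' : Mt V) (b' : ℕ), Path D ρ' μ' b' ∧
        ((∃ t ∈ D, t ≤ μ') ∨ (∀ t ∈ D, ¬ Compat t μ')) ∧ Compat μ' ν := by
  intro n
  induction n using Nat.strong_induction_on with
  | _ n ih =>
    intro μ b hn hp hcomp
    by_cases hterm : (∃ t ∈ D, t ≤ μ) ∨ (∀ t ∈ D, ¬ Compat t μ)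
    · exact ⟨μ, b, hp, hterm, hcomp⟩
    · rw [not_or] at hterm
      obtain ⟨h1, h2⟩ := hterm
      push Not at h1 h2
      obtain ⟨t, ht⟩ := exists_isFirst h2
      have hnle : ¬ t ≤ μ := h1 t ht.1
      have hq : (qs t μ).card ≤ k :=
        (card_qs_le hp.le).trans (hD t ht.1 (ht.2.1.mono (le_refl _) hp.le))
      have hfj := free_le_free_join_add hν hcomp
      have hc := hgood μ b hp
      obtain ⟨μ', hs, hc', hlt⟩ := exists_step hcomp ht hnle (by omega)
      obtain ⟨b', hb'⟩ := hp.snoc hs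
      exact ih _ (by omega) μ' b' rfl hb' hc'

/-- If all runs of the process are cheap then the disjunction is decided. -/
theorem rep_of_good {D : Set (Mt V)} {ρ' : Mt V} {c k : ℕ}
    (hD : ∀ t ∈ D, Compat t ρ' → cost ρ' t ≤ k) (hk : k ≤ c)
    (hgood : ∀ μ b, Path D ρ' μ b → cost ρ' μ ≤ c) : Rep D c ρ' := by
  refine ⟨{μ | (∃ b, Path D ρ' μ b) ∧ ∃ t ∈ D, t ≤ μ},
    {μ | (∃ b, Path D ρ' μ b) ∧ ∀ t ∈ D, ¬ Compat t μ}, ?_, ?_, ?_, ?_⟩
  · rintro μ (⟨⟨b, hb⟩, _⟩ | ⟨⟨b, hb⟩, _⟩)
    · exact ⟨hb.le, hgood μ b hb⟩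
    · exact ⟨hb.le, hgood μ b hb⟩
  · rintro μ ⟨_, h⟩
    exact h
  · rintro μ ⟨_, h⟩
    exact h
  · intro ν hν hroom
    obtain ⟨μ', b', hp, hterm, hc⟩ := exists_leaf hD hgood hν (by omega) _ ρ' 0 rfl
      (Path.nil ρ') (Compat.mono (Compat.refl ν) hν (le_refl _))
    refine ⟨μ', ?_, hc⟩
    rcases hterm with h | h
    · exact Or.inl ⟨⟨b', hp⟩, h⟩
    · exact Or.inr ⟨⟨b', hp⟩, h⟩

/-- A bad matching can be encoded by matchings with fewer free vertices. -/
theorem exists_enc_of_not_rep {D : Set (Mt V)} {ρ ρ' : Mt V} {r s l : ℕ}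
    (hD : ∀ t ∈ D, Compat t ρ → cost ρ t ≤ 2 * r) (hrs : 2 * r ≤ 4 * s)
    (hE : ρ' ∈ E ρ l) (hbad : ¬ Rep D (4 * s) ρ') :
    ∃ b, s < b ∧ 2 * b ≤ l ∧ ∃ τ ∈ E ρ (l - 2 * b), Enc D ρ ρ' b τ := by
  rw [mem_E] at hE
  have hD' : ∀ t ∈ D, Compat t ρ' → cost ρ' t ≤ 2 * r := fun t ht hc =>
    (cost_anti_left hE.1).trans (hD t ht (hc.mono (le_refl _) hE.1))
  have hex : ∃ μ b, Path D ρ' μ b ∧ 4 * s < cost ρ' μ := by
    by_contra hcon
    push Not at hcon
    exact hbad (rep_of_good hD' hrs (fun μ b hp => hcon μ b hp))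
  obtain ⟨μ, b, hp, hlt⟩ := hex
  have hc := hp.cost_le
  obtain ⟨τ, he, hle, hf⟩ := hp.exists_enc hE.1
  refine ⟨b, by omega, by omega, τ, ?_, he⟩
  rw [mem_E]
  exact ⟨hE.1.trans hle, by omega⟩

end AcFrege
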