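import Pool.Agent.Work.MP_c07f0d_lc.AC.AcProc
import Pool.Agent.Work.MP_c07f0d_lc.AC.AcCountE
import Pool.Agent.Work.MP_c07f0d_lc.AC.AcCountX

/-!
# The switching lemma for matchings
-/

namespace AcFrege

variable {V : Type} [Fintype V] [DecidableEq V]

/-- The switching lemma: for few extensions `ρ'` of `ρ` with exactly `l` free vertices the
disjunction of the terms of `D` is not decided at the cost `4 s`. -/
theorem switching (D : Set (Mt V)) (ρ : Mt V) {r l s q : ℕ}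
    (hD : ∀ t ∈ D, Compat t ρ → cost ρ t ≤ 2 * r) (hrs : 2 * r ≤ 4 * s) (hq : 2 ≤ q)
    (hF : 8 * r ^ 2 * l ^ 4 * q + l ≤ (free ρ).card) (B : Finset (Mt V))
    (hB : ∀ ρ' ∈ B, ρ' ∈ E ρ l ∧ ¬ Rep D (4 * s) ρ') :
    B.card * q ^ s ≤ (E ρ l).card := by
  refine card_bad_of_enc D ρ hq hF (fun b τ h => ?_) B (fun ρ' h => ?_)
  · exact card_enc_le D ρ hD b τ h
  · exact exists_enc_of_not_rep hD hrs (hB ρ' h).1 (hB ρ' h).2

/-- One common extension with exactly `l` free vertices at which all the given disjunctions are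
decided at the cost `4 s`. -/
theorem exists_good {ι : Type*} (P : Finset ι) (D : ι → Set (Mt V)) (ρ : Mt V) {l s : ℕ}
    (hP : P.card < 2 ^ s) (hD : ∀ i ∈ P, ∀ t ∈ D i, Compat t ρ → cost ρ t ≤ 4 * s)
    (hF : 64 * s ^ 2 * l ^ 4 + l ≤ (free ρ).card) (hl : Even ((free ρ).card - l)) :
    ∃ ρ', ρ ≤ ρ' ∧ (free ρ').card = l ∧ ∀ i ∈ P, Rep (D i) (4 * s) ρ' := by
  classical
  have hne : (E ρ l).Nonempty := E_nonempty ρ (by omega) hl
  obtain ⟨μ, hμ, hgood⟩ := exists_good_of_card hne P hP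
    (fun i => (E ρ l).filter (fun ρ' => ¬ Rep (D i) (4 * s) ρ'))
    (fun i hi => switching (D i) ρ (r := 2 * s) (q := 2)
      (fun t ht hc => (hD i hi t ht hc).trans (by omega)) (by omega) (le_refl _)
      (by
        have e : 8 * (2 * s) ^ 2 * l ^ 4 * 2 = 64 * s ^ 2 * l ^ 4 := by ring
        rw [e]; exact hF) _
      (fun ρ' h => Finset.mem_filter.1 h))
  rw [mem_E] at hμ
  refine ⟨μ, hμ.1, hμ.2, fun i hi => ?_⟩
  by_contra hc
  exact hgood i hi (Finset.mem_filter.2 ⟨mem_E.2 hμ, hc⟩)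

end AcFrege
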