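import Pool.Agent.Work.MP_c07f0d_lc.AC.ACDefs
import Mathlib.Algebra.BigOperators.Fin
import Mathlib.Tactic

/-!
# The axioms hold in the matching world

A partial matching `p` of `{0, ..., N - 1}` (an involution, the fixed points are free) is drawn in
the layers `0` and `1` of the grid of dimension `3`: the pair `a < b = p a` is the path from
`(a, a, 0)` along the row `a` to `(a, b, 0)`, up to `(a, b, 1)`, along the column `b` to
`(b, b, 1)` and down to `(b, b, 0)`.  A constant shift pairs the charges at `(v, v, 0)`,
`1 ≤ v < N`.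
-/

set_option linter.unusedSectionVars false

namespace AcFrege

open Finset FregeEF LineSize GridLine

/-! ### Sums over the edges at a vertex -/

section sums

variable {D M : ℕ}

/-- The vertex below `u` in the direction `i`. -/
def gdown (u : GV D M) (i : Fin D) : GV D M :=
  Function.update u i ⟨(u i).val - 1, lt_of_le_of_lt (Nat.sub_le _ _) (u i).isLt⟩

theorem gdown_eq {e : GE D M} {u : GV D M} (h1 : gtgt e = u) : e.1.1 = gdown u e.1.2 := by
  subst h1
  funext j
  by_cases hj : j = e.1.2
  · subst hj
    apply Fin.ext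
    simp [gtgt, gdown]
  · simp [gtgt, gdown, hj]

/-- The edges at `u`: for every direction the one above and the one below. -/
theorem sum_at {A : Type*} [AddCommMonoid A] (F : GV D M → Fin D → A) (u : GV D M) :
    ∑ e ∈ (univ : Finset (GE D M)).filter (fun e => gsrc e = u ∨ gtgt e = u), F e.1.1 e.1.2 =
      ∑ i : Fin D, ((if (u i).val + 1 < M then F u i else 0) +
        (if 1 ≤ (u i).val then F (gdown u i) i else 0)) := by
  classical
  have hdisj : Disjoint ((univ : Finset (GE D M)).filter (fun e => gsrc e = u))
      ((univ : Finset (GE D M)).filter (fun e => gtgt e = u)) := by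
    rw [Finset.disjoint_filter]
    intro e _ h1 h2
    have h3 : gsrc e = gtgt e := by rw [h1, h2]
    have h4 := congrArg (fun v : GV D M => (v e.1.2).val) h3
    simp [gsrc, gtgt] at h4
  rw [Finset.filter_or, Finset.sum_union hdisj, Finset.sum_add_distrib]
  congr 1
  · -- the edges above `u`
    rw [← Finset.sum_filter]
    refine Finset.sum_bij' (i := fun e _ => e.1.2)
      (j := fun i hi => ⟨(u, i), by simpa using hi⟩) ?_ ?_ ?_ ?_ ?_
    · intro e he
      rw [Finset.mem_filter] at he ⊢
      have h1 : e.1.1 = u := he.2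
      refine ⟨Finset.mem_univ _, ?_⟩
      rw [← h1]
      exact e.2
    · intro i hi
      rw [Finset.mem_filter]
      exact ⟨Finset.mem_univ _, rfl⟩
    · intro e he
      rw [Finset.mem_filter] at he
      have h1 : e.1.1 = u := he.2
      apply Subtype.ext
      exact Prod.ext h1.symm rfl
    · intro i hi
      rfl
    · intro e he
      rw [Finset.mem_filter] at he
      have h1 : e.1.1 = u := he.2
      rw [h1]
  · -- the edges below `u`
    rw [← Finset.sum_filter]
    refine Finset.sum_bij' (i := fun e _ => e.1.2)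
      (j := fun i hi => ⟨(gdown u i, i), ?_⟩) ?_ ?_ ?_ ?_ ?_
    · rw [Finset.mem_filter] at hi
      have h1 : ((gdown u i) i).val = (u i).val - 1 := by simp [gdown]
      rw [h1]
      have h2 := (u i).isLt
      have h3 := hi.2
      omega
    · intro e he
      rw [Finset.mem_filter] at he ⊢
      have h1 : gtgt e = u := he.2
      refine ⟨Finset.mem_univ _, ?_⟩
      rw [← h1]
      simp [gtgt]
    · intro i hi
      rw [Finset.mem_filter] at hi ⊢
      refine ⟨Finset.mem_univ _, ?_⟩
      funext j
      by_cases hj : j = i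
      · subst hj
        apply Fin.ext
        have h3 := hi.2
        simp [gtgt, gdown]
        omega
      · simp [gtgt, gdown, hj]
    · intro e he
      rw [Finset.mem_filter] at he
      exact Subtype.ext (Prod.ext (gdown_eq he.2).symm rfl)
    · intro i hi
      rfl
    · intro e he
      rw [Finset.mem_filter] at he
      rw [← gdown_eq he.2]

end sums

/-! ### The drawing of a matching -/

/-- The value of the edge in direction `i` at the point `(a, b, c)`, if `p` is the partner of its
owner (`b` for `i = 0`, `a` for `i = 1, 2`). -/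
def drawN (N : ℕ) (a b c p : ℕ) (i : Fin 3) : Bool :=
  if i = 0 then decide (c = 1 ∧ b < N ∧ a + 1 < N ∧ p ≤ a ∧ a < b)
  else if i = 1 then decide (c = 0 ∧ a < N ∧ b + 1 < N ∧ a ≤ b ∧ b < p)
  else decide (c = 0 ∧ a < N ∧ b < N ∧ ((a = b ∧ p < a) ∨ (a < b ∧ p = b)))

/-- The constant shift. -/
def shiftN (N : ℕ) (a b c : ℕ) (i : Fin 3) : Bool :=
  if i = 0 then decide (c = 0 ∧ b = a + 1 ∧ a % 2 = 1 ∧ a + 1 < N)
  else if i = 1 then decide (c = 0 ∧ a = b ∧ a % 2 = 1 ∧ a + 1 < N)
  else false

theorem toNat_decide (P : Prop) [Decidable P] : (decide P).toNat = if P then 1 else 0 := by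
  by_cases h : P <;> simp [h]

/-- The number of drawn edges at `(a, b, c)` is odd exactly at the points `(a, a, 0)`, `a < N`. -/
theorem draw_parity {N M : ℕ} (hNM : N ≤ M) {p q a b c : ℕ}
    (hp : a < N → p < N ∧ p ≠ a) (hq : b < N → q < N ∧ q ≠ b)
    (hpq : a < N → b < N → (p = b ↔ q = a)) (hab : a = b → p = q) :
    ((if a + 1 < M then (drawN N a b c q 0).toNat else 0) +
      (if 1 ≤ a then (drawN N (a - 1) b c q 0).toNat else 0) +
      ((if b + 1 < M then (drawN N a b c p 1).toNat else 0) +
      (if 1 ≤ b then (drawN N a (b - 1) c p 1).toNat else 0)) +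
      ((if c + 1 < M then (drawN N a b c p 2).toNat else 0) +
      (if 1 ≤ c then (drawN N a b (c - 1) p 2).toNat else 0))) % 2 =
        if a = b ∧ a < N ∧ c = 0 then 1 else 0 := by
  have h01 : ((1 : Fin 3) = 0) = False := by simp
  have h02 : ((2 : Fin 3) = 0) = False := by simp
  have h12 : ((2 : Fin 3) = 1) = False := by simp
  simp only [drawN, h01, h02, h12, if_true, if_false, toNat_decide]
  rcases Nat.lt_trichotomy c 1 with hc1 | hc1 | hc1
  · obtain rfl : c = 0 := by omega
    simp only [true_and, zero_ne_one, false_and, if_false, Nat.zero_add, Nat.add_zero,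
      ite_self, and_true]
    rcases Nat.lt_trichotomy a b with h | h | h
    · have e1 : (a = b) = False := by simp; omega
      simp only [e1, h, false_and, true_and, false_or, if_false]
      split_ifs <;> omega
    · subst h
      have e1 : (a < a) = False := by simp
      have e2 : (p = q) := hab rfl
      subst e2
      simp only [e1, true_and, false_and, or_false]
      split_ifs <;> omega
    · have e1 : (a = b) = False := by simp; omega
      have e2 : (a < b) = False := by simp; omega
      simp only [e1, e2, false_and, or_self, and_false, if_false]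
      split_ifs <;> omega
  · subst hc1
    simp only [true_and, one_ne_zero, false_and, if_false, Nat.zero_add, Nat.add_zero,
      ite_self, and_false, Nat.sub_self, le_refl, if_true]
    rcases Nat.lt_trichotomy a b with h | h | h
    · have e1 : (a = b) = False := by simp; omega
      simp only [e1, h, false_and, true_and, false_or, and_true]
      split_ifs <;> omega
    · subst h
      have e1 : (a < a) = False := by simp
      have e2 : (p = q) := hab rfl
      subst e2
      simp only [e1, true_and, false_and, or_false, and_false, if_false]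
      split_ifs <;> omega
    · have e1 : (a = b) = False := by simp; omega
      have e2 : (a < b) = False := by simp; omega
      simp only [e1, e2, false_and, or_self, and_false, if_false]
      split_ifs <;> omega
  · have hc0 : (c = 0) = False := by simp; omega
    have hc1 : (c = 1) = False := by simp; omega
    have hc2 : (c - 1 = 0) = False := by simp; omega
    simp only [hc0, hc1, hc2, false_and, and_false, if_false, Nat.add_zero, ite_self]

/-- The number of shifted edges at `(a, b, c)` is odd exactly at the points `(a, a, 0)`,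
`1 ≤ a < N`. -/
theorem shift_parity {N M : ℕ} (hN : N % 2 = 1) (hNM : N ≤ M) {a b c : ℕ} :
    ((if a + 1 < M then (shiftN N a b c 0).toNat else 0) +
      (if 1 ≤ a then (shiftN N (a - 1) b c 0).toNat else 0) +
      ((if b + 1 < M then (shiftN N a b c 1).toNat else 0) +
      (if 1 ≤ b then (shiftN N a (b - 1) c 1).toNat else 0)) +
      ((if c + 1 < M then (shiftN N a b c 2).toNat else 0) +
      (if 1 ≤ c then (shiftN N a b (c - 1) 2).toNat else 0))) % 2 =
        if a = b ∧ a < N ∧ c = 0 ∧ 1 ≤ a then 1 else 0 := by
  have h01 : ((1 : Fin 3) = 0) = False := by simp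
  have h02 : ((2 : Fin 3) = 0) = False := by simp
  have h12 : ((2 : Fin 3) = 1) = False := by simp
  simp only [shiftN, h01, h02, h12, if_true, if_false, toNat_decide, Bool.toNat_false, ite_self,
    Nat.add_zero]
  by_cases hc : c = 0
  · subst hc
    simp only [true_and]
    split_ifs <;> omega
  · simp only [hc, false_and, and_false, if_false, ite_self]

/-- The partner as a natural number (`0` outside). -/
def pv {N : ℕ} (p : Fin N → Fin N) (a : ℕ) : ℕ := if h : a < N then (p ⟨a, h⟩).val else 0

/-- The owner of an edge. -/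
def own (M N : ℕ) (e : GE 3 M) : Option (Fin N) :=
  if e.1.2 = 0 then (if h : (e.1.1 1).val < N then some ⟨(e.1.1 1).val, h⟩ else none)
  else (if h : (e.1.1 0).val < N then some ⟨(e.1.1 0).val, h⟩ else none)

/-- The value of an edge in the matching `p`. -/
def ev {M N : ℕ} (e : GE 3 M) (p : Fin N → Fin N) : Bool :=
  xor (drawN N (e.1.1 0).val (e.1.1 1).val (e.1.1 2).val
    (pv p (if e.1.2 = 0 then (e.1.1 1).val else (e.1.1 0).val)) e.1.2)
    (shiftN N (e.1.1 0).val (e.1.1 1).val (e.1.1 2).val e.1.2)

/-- The value of an edge depends only on the partner of its owner. -/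
theorem ev_congr {M N : ℕ} (e : GE 3 M) (p p' : Fin N → Fin N)
    (h : ∀ v, own M N e = some v → p v = p' v) : ev e p = ev e p' := by
  have h1 : pv p (if e.1.2 = 0 then (e.1.1 1).val else (e.1.1 0).val) =
      pv p' (if e.1.2 = 0 then (e.1.1 1).val else (e.1.1 0).val) := by
    unfold pv
    by_cases hi : e.1.2 = 0
    · simp only [hi, if_true]
      by_cases ha : (e.1.1 1).val < N
      · have h2 : own M N e = some ⟨(e.1.1 1).val, ha⟩ := by
          unfold own
          simp [hi, ha]
        simp only [ha, dif_pos, h _ h2]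
      · simp only [ha, dif_neg, not_false_eq_true]
    · simp only [hi, if_false]
      by_cases ha : (e.1.1 0).val < N
      · have h2 : own M N e = some ⟨(e.1.1 0).val, ha⟩ := by
          unfold own
          simp [hi, ha]
        simp only [ha, dif_pos, h _ h2]
      · simp only [ha, dif_neg, not_false_eq_true]
  unfold ev
  rw [h1]

/-- The owner of an edge at `u` is one of the first two coordinates of `u`. -/
theorem own_near {M N : ℕ} {e : GE 3 M} {u : GV 3 M} (he : gsrc e = u ∨ gtgt e = u) {v : Fin N}
    (hv : own M N e = some v) : (v : ℕ) = (u 0 : ℕ) ∨ (v : ℕ) = (u 1 : ℕ) := by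
  unfold own at hv
  by_cases hi : e.1.2 = 0
  · right
    simp only [hi, if_true] at hv
    split_ifs at hv with h1
    · have h2 : v.val = (e.1.1 1).val := by
        rw [← Option.some.inj hv]
      have h3 : e.1.1 1 = u 1 := by
        rcases he with he | he
        · rw [← he]
          rfl
        · rw [← he]
          unfold gtgt
          rw [Function.update_of_ne]
          rw [hi]
          simp
      rw [h2, h3]
  · left
    simp only [hi, if_false] at hv
    split_ifs at hv with h1
    · have h2 : v.val = (e.1.1 0).val := by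
        rw [← Option.some.inj hv]
      have h3 : e.1.1 0 = u 0 := by
        rcases he with he | he
        · rw [← he]
          rfl
        · rw [← he]
          unfold gtgt
          rw [Function.update_of_ne]
          exact fun h => hi h.symm
      rw [h2, h3]

/-- **The axioms hold in the matching world.** -/
theorem parity_grid {M N : ℕ} (hN : Odd N) (hNM : N ≤ M) (p : Fin N → Fin N)
    (hp : ∀ v, p (p v) = v) (u : GV 3 M)
    (h0 : ∀ v : Fin N, (v : ℕ) = (u 0 : ℕ) ∨ (v : ℕ) = (u 1 : ℕ) → p v ≠ v)
    (y : GE 3 M → Bool) (hy : ∀ e, (gsrc e = u ∨ gtgt e = u) → y e = ev e p) :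
    decide (Odd (univ.filter fun e => (gsrc e = u ∨ gtgt e = u) ∧ y e = true).card) =
      gcharge u := by
  classical
  have hN' : N % 2 = 1 := Nat.odd_iff.1 hN
  set a := (u 0).val with ha
  set b := (u 1).val with hb
  set c := (u 2).val with hc
  -- the facts on partners
  have fa : a < N → pv p a < N ∧ pv p a ≠ a := by
    intro h
    unfold pv
    rw [dif_pos h]
    refine ⟨(p ⟨a, h⟩).isLt, fun h1 => ?_⟩
    exact h0 ⟨a, h⟩ (Or.inl rfl) (Fin.ext h1)
  have fb : b < N → pv p b < N ∧ pv p b ≠ b := by
    intro h
    unfold pv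
    rw [dif_pos h]
    refine ⟨(p ⟨b, h⟩).isLt, fun h1 => ?_⟩
    exact h0 ⟨b, h⟩ (Or.inr rfl) (Fin.ext h1)
  have fab : a < N → b < N → (pv p a = b ↔ pv p b = a) := by
    intro h1 h2
    unfold pv
    rw [dif_pos h1, dif_pos h2]
    constructor
    · intro h
      have h3 : p ⟨a, h1⟩ = ⟨b, h2⟩ := Fin.ext h
      rw [← h3, hp]
    · intro h
      have h3 : p ⟨b, h2⟩ = ⟨a, h1⟩ := Fin.ext h
      rw [← h3, hp]
  -- the count as a sum
  have hcard : (univ.filter fun e : GE 3 M => (gsrc e = u ∨ gtgt e = u) ∧ y e = true).card =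
      ∑ e ∈ univ.filter (fun e : GE 3 M => gsrc e = u ∨ gtgt e = u), (y e).toNat := by
    rw [← Finset.filter_filter, Finset.card_filter]
    refine Finset.sum_congr rfl fun e _ => ?_
    cases y e <;> simp
  have hmod : (∑ e ∈ univ.filter (fun e : GE 3 M => gsrc e = u ∨ gtgt e = u), (y e).toNat) % 2 =
      (∑ e ∈ univ.filter (fun e : GE 3 M => gsrc e = u ∨ gtgt e = u),
        ((drawN N (e.1.1 0).val (e.1.1 1).val (e.1.1 2).val
          (pv p (if e.1.2 = 0 then (e.1.1 1).val else (e.1.1 0).val)) e.1.2).toNat +
          (shiftN N (e.1.1 0).val (e.1.1 1).val (e.1.1 2).val e.1.2).toNat)) % 2 := by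
    rw [Finset.sum_nat_mod, Finset.sum_nat_mod (f := fun e : GE 3 M =>
      ((drawN N (e.1.1 0).val (e.1.1 1).val (e.1.1 2).val
          (pv p (if e.1.2 = 0 then (e.1.1 1).val else (e.1.1 0).val)) e.1.2).toNat +
          (shiftN N (e.1.1 0).val (e.1.1 1).val (e.1.1 2).val e.1.2).toNat))]
    congr 1
    refine Finset.sum_congr rfl fun e he => ?_
    rw [Finset.mem_filter] at he
    rw [hy e he.2]
    unfold ev
    cases drawN N (e.1.1 0).val (e.1.1 1).val (e.1.1 2).val
      (pv p (if e.1.2 = 0 then (e.1.1 1).val else (e.1.1 0).val)) e.1.2 <;>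
    cases shiftN N (e.1.1 0).val (e.1.1 1).val (e.1.1 2).val e.1.2 <;> rfl
  have hsum := sum_at (fun (x : GV 3 M) (i : Fin 3) =>
    ((drawN N (x 0).val (x 1).val (x 2).val
      (pv p (if i = 0 then (x 1).val else (x 0).val)) i).toNat +
      (shiftN N (x 0).val (x 1).val (x 2).val i).toNat)) u
  have g00 : ((gdown u 0) 0).val = a - 1 := by simp [gdown, ha]
  have g01 : ((gdown u 0) 1).val = b := by simp [gdown, hb]
  have g02 : ((gdown u 0) 2).val = c := by simp [gdown, hc]
  have g10 : ((gdown u 1) 0).val = a := by simp [gdown, ha]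
  have g11 : ((gdown u 1) 1).val = b - 1 := by simp [gdown, hb]
  have g12 : ((gdown u 1) 2).val = c := by simp [gdown, hc]
  have g20 : ((gdown u 2) 0).val = a := by simp [gdown, ha]
  have g21 : ((gdown u 2) 1).val = b := by simp [gdown, hb]
  have g22 : ((gdown u 2) 2).val = c - 1 := by simp [gdown, hc]
  have h01 : ((1 : Fin 3) = 0) = False := by simp
  have h02 : ((2 : Fin 3) = 0) = False := by simp
  simp only [Fin.sum_univ_three, h01, h02, if_true, if_false, g00, g01, g02, g10, g11, g12,
    g20, g21, g22, ← ha, ← hb, ← hc] at hsum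
  have hD := draw_parity (M := M) hNM fa fb fab (c := c) (fun h => by rw [h])
  have hS := shift_parity (M := M) hN' hNM (a := a) (b := b) (c := c)
  have hch : gcharge u = decide (a = 0 ∧ b = 0 ∧ c = 0) := by
    unfold gcharge
    rw [decide_eq_decide]
    constructor
    · intro h
      exact ⟨h 0, h 1, h 2⟩
    · rintro ⟨h1, h2, h3⟩ i
      fin_cases i
      · exact h1
      · exact h2
      · exact h3
  rw [hch, decide_eq_decide, Nat.odd_iff, hcard, hmod, hsum]
  simp only [ite_add_zero]
  have hfin : (if a = b ∧ a < N ∧ c = 0 then 1 else 0) +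
      (if a = b ∧ a < N ∧ c = 0 ∧ 1 ≤ a then 1 else 0) =
      (if a = b ∧ a < N ∧ c = 0 ∧ 1 ≤ a then 2 else 0) +
      (if a = 0 ∧ b = 0 ∧ c = 0 then 1 else 0) := by
    split_ifs <;> omega
  have hgen : ∀ x1 x2 x3 x4 x5 x6 y1 y2 y3 y4 y5 y6 d s : ℕ,
      (x1 + x2 + (x3 + x4) + (x5 + x6)) % 2 = d → (y1 + y2 + (y3 + y4) + (y5 + y6)) % 2 = s →
      (x1 + y1 + (x2 + y2) + (x3 + y3 + (x4 + y4)) + (x5 + y5 + (x6 + y6))) % 2 = (d + s) % 2 := by
    intros
    omega
  rw [hgen _ _ _ _ _ _ _ _ _ _ _ _ _ _ hD hS, hfin]
  by_cases h : a = 0 ∧ b = 0 ∧ c = 0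
  · rw [if_pos h]
    refine iff_of_true ?_ h
    split_ifs <;> rfl
  · rw [if_neg h]
    refine iff_of_false ?_ h
    split_ifs <;> decide

end AcFrege
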