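import Pool.Agent.Work.MP_c07f0d_lc.AC.AcMat

/-!
# Assignments consistent with a matching: definitions
-/

namespace AcFrege

/-- The matching without edges. -/
def ident {V : Type} : Mt V := ⟨fun v => v, fun _ => rfl⟩

/-- The variables whose owner is covered by `μ` (and those without an owner) have the values
given by `μ`. -/
def Cons {E V : Type} (own : E → Option V) (ev : E → (V → V) → Bool) (μ : Mt V)
    (y : E → Bool) : Prop :=
  ∀ e, (∀ v, own e = some v → μ v ≠ v) → y e = ev e μ

end AcFrege
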