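import Pool.Agent.Work.MP_c07f0d_lc.AC.ACDefs
import Pool.Agent.Work.MP_c07f0d_lc.TL.UpperG
import Pool.Agent.Work.MP_c07f0d_lc.LS.Restr

/-!
# The contradictions on the three-dimensional grid with parallel edges: the size of the constraints,
short refutations with lines of quadratic size, semantics of the constraints
-/

set_option linter.unusedSectionVars false

namespace AcFrege

open Finset LineSize FregeEF GridLine

variable {M J : ℕ}

/-- The variables at `v`. -/
noncomputable def pset (v : GV 3 M) : Finset (PV M J) :=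
  (univ : Finset (PV M J)).filter fun x => gsrc x.1 = v ∨ gtgt x.1 = v

/-- The list of the variables at `v`. -/
noncomputable def pstar (v : GV 3 M) : List (PV M J) := (pset (J := J) v).toList

lemma psv (x : PV M J → Bool) (v : GV 3 M) :
    sv x (pparity v) = ∏ i ∈ pset v, sg (x i) := by
  unfold pparity
  rw [sv_parity, List.map_map]
  have h2 : (sv x ∘ Fm.var) = fun p => sg (x p) := by
    funext p
    exact sv_var _ p
  rw [h2, Finset.prod_map_toList]
  rfl

/-- The value of a constraint. -/
lemma pAx_eval_sg (v : GV 3 M) (x : PV M J → Bool) :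
    (pAx v).eval (fun e => x e = true) ↔ ∏ i ∈ pset v, sg (x i) = sg (gcharge v) := by
  rw [← psv]
  unfold pAx sv
  by_cases hu : gcharge v = true
  · rw [if_pos hu, hu]
    split_ifs with h
    · simp [h, sg]
    · simp only [h, sg, if_true, false_iff]
      norm_num
  · rw [if_neg hu]
    have hu' : gcharge v = false := by simpa using hu
    rw [hu']
    split_ifs with h
    · simp only [Fm.eval, h, sg, not_true, Bool.false_eq_true, if_false, false_iff]
      norm_num
    · simp [Fm.eval, h, sg]

lemma prod_sg_eq {ι : Type*} (s : Finset ι) (x : ι → Bool) :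
    ∏ i ∈ s, sg (x i) = sg (decide (Odd (s.filter fun i => x i = true).card)) := by
  classical
  induction s using Finset.induction_on with
  | empty => simp [sg]
  | insert a s ha ih =>
    rw [Finset.prod_insert ha, ih, Finset.filter_insert]
    by_cases h : x a = true
    · rw [if_pos h, Finset.card_insert_of_notMem (by simp [ha]), h]
      by_cases hodd : Odd (s.filter fun i => x i = true).card
      · have h2 : ¬ Odd ((s.filter fun i => x i = true).card + 1) := by
          rw [Nat.odd_add_one]
          exact not_not.2 hodd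
        simp [sg, hodd, h2]
      · have h2 : Odd ((s.filter fun i => x i = true).card + 1) := by
          rw [Nat.odd_add_one]
          exact hodd
        simp [sg, hodd, h2]
    · have h' : x a = false := by simpa using h
      rw [if_neg h, h']
      simp [sg]

lemma sg_inj {a b : Bool} : sg a = sg b ↔ a = b := by
  constructor
  · intro h
    cases a <;> cases b <;> simp [sg] at h ⊢ <;> norm_num at h
  · rintro rfl
    rfl

/-- The semantics of a constraint. -/
theorem pAx_eval (v : GV 3 M) (x : PV M J → Bool) :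
    (pAx v).eval (fun i => x i = true) ↔ decide (Odd ((Finset.univ.filter fun i : PV M J =>
      (gsrc i.1 = v ∨ gtgt i.1 = v) ∧ x i = true).card)) = gcharge v := by
  rw [pAx_eval_sg, prod_sg_eq, sg_inj]
  unfold pset
  rw [Finset.filter_filter]

/-- The semantics of a constraint after a restriction. -/
theorem pAx_rho (v : GV 3 M) (σ : GE 3 M → Fin J) (z : PV M J → Bool) (y : GE 3 M → Bool) :
    (pAx v).eval (fun i => rho σ z y i = true) ↔ decide (Odd ((Finset.univ.filter fun e : GE 3 M =>
      (gsrc e = v ∨ gtgt e = v) ∧ y e = true).card)) = gcharge v := by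
  rw [pAx_eval_sg]
  have h1 : ∏ i ∈ pset (J := J) v, sg (rho σ z y i) =
      ∏ e ∈ (univ : Finset (GE 3 M)).filter (fun e => gsrc e = v ∨ gtgt e = v), sg (y e) := by
    unfold pset
    rw [Finset.prod_filter, Finset.prod_filter, Fintype.prod_prod_type]
    refine Finset.prod_congr rfl fun e _ => ?_
    by_cases he : gsrc e = v ∨ gtgt e = v
    · simp only [he, if_true]
      exact prod_rho σ z y e
    · simp only [he, if_false, Finset.prod_const_one]
  rw [h1, prod_sg_eq, sg_inj, Finset.filter_filter]

/-! ### counting -/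

lemma pset_card (v : GV 3 M) : (pset (J := J) v).card ≤ 6 * J := by
  have h1 : pset (J := J) v = ((univ : Finset (GE 3 M)).filter
      fun e => gsrc e = v ∨ gtgt e = v) ×ˢ (univ : Finset (Fin J)) := by
    ext x
    simp [pset]
  rw [h1, Finset.card_product, Finset.card_univ, Fintype.card_fin]
  have h2 := upperG_star_card (D := 3) (M := M) v
  exact Nat.mul_le_mul_right _ (by omega)

theorem card_GE3 : Fintype.card (GE 3 M) = 3 * M ^ 2 * (M - 1) := by
  classical
  rcases Nat.eq_zero_or_pos M with hM | hM
  · subst hM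
    haveI : IsEmpty (GE 3 0) := ⟨fun e => (e.1.1 e.1.2).elim0⟩
    simp
  -- the edges in direction `i`
  have key : ∀ i : Fin 3, Fintype.card {x : GV 3 M // (x i).val + 1 < M} = (M - 1) * M ^ 2 := by
    intro i
    have e1 : {x : GV 3 M // (x i).val + 1 < M} ≃
        {y : Fin M // y.val + 1 < M} × ({j : Fin 3 // j ≠ i} → Fin M) :=
      { toFun := fun x => (⟨x.1 i, x.2⟩, fun j => x.1 j)
        invFun := fun p => ⟨fun j => if hj : j = i then p.1.1 else p.2 ⟨j, hj⟩, by simp [p.1.2]⟩
        left_inv := by
          rintro ⟨x, hx⟩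
          apply Subtype.ext
          funext j
          by_cases hj : j = i
          · subst hj
            simp
          · simp [hj]
        right_inv := by
          rintro ⟨⟨y, hy⟩, f⟩
          refine Prod.ext (Subtype.ext (by simp)) ?_
          funext j
          simp [j.2] }
    rw [Fintype.card_congr e1, Fintype.card_prod, Fintype.card_fun, Fintype.card_fin,
      Fintype.card_subtype_compl, Fintype.card_fin, Fintype.card_subtype_eq]
    congr 1
    rw [Fintype.card_subtype]
    have h2 : ((univ : Finset (Fin M)).filter fun y => y.val + 1 < M) =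
        (univ : Finset (Fin M)).filter fun y => y.val < M - 1 := by
      ext y
      simp only [mem_filter, mem_univ, true_and]
      omega
    rw [h2, Fin.card_filter_val_lt]
    omega
  have e2 : GE 3 M ≃ Σ i : Fin 3, {x : GV 3 M // (x i).val + 1 < M} :=
    { toFun := fun e => ⟨e.1.2, ⟨e.1.1, e.2⟩⟩
      invFun := fun p => ⟨(p.2.1, p.1), p.2.2⟩
      left_inv := fun e => rfl
      right_inv := fun p => rfl }
  rw [Fintype.card_congr e2, Fintype.card_sigma, Finset.sum_congr rfl fun i _ => key i,
    Finset.sum_const, Finset.card_univ, Fintype.card_fin, smul_eq_mul]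
  ring

theorem card_PV : Fintype.card (PV M J) = 3 * M ^ 2 * (M - 1) * J := by
  rw [Fintype.card_prod, card_GE3, Fintype.card_fin]

/-! ### trees -/

/-- The tree of a constraint. -/
noncomputable def pTree (v : GV 3 M) : XT (PV M J) :=
  XT.ofList (Nat.clog 2 ((pstar (J := J) v).map Fm.var).length)
    ((pstar v).map fun p => .leaf (some p))

lemma pTree_fm (v : GV 3 M) : (pTree (J := J) v).fm = pparity v := by
  unfold pTree pparity parity pstar
  rw [XT.fm_ofList, List.map_map]
  rfl

lemma pAx_eq (v : GV 3 M) : pAx (J := J) v = litF (gcharge v) (pTree v).fm := by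
  unfold pAx litF
  rw [pTree_fm]

lemma size_pTree (hJ : 1 ≤ J) (v : GV 3 M) : (pTree (J := J) v).fm.size + 2 ≤ 432 * J ^ 2 := by
  rw [pTree_fm]
  unfold pparity parity
  have h1 := size_xorList 1 le_rfl (Nat.clog 2 ((pstar (J := J) v).map Fm.var).length)
    ((pstar (J := J) v).map Fm.var) (by
      intro φ hφ
      obtain ⟨p, _, rfl⟩ := List.mem_map.mp hφ
      simp [Fm.size])
  refine h1.trans ?_
  rw [List.length_map]
  have hlen : (pstar (J := J) v).length ≤ 6 * J := by
    unfold pstar
    rw [Finset.length_toList]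
    exact pset_card v
  have h2 : 2 ^ Nat.clog 2 (pstar (J := J) v).length ≤ 2 * (6 * J) := by
    rcases Nat.eq_zero_or_pos (pstar (J := J) v).length with h | h
    · rw [h]
      simp
      omega
    · exact (two_pow_clog_le h).trans (by omega)
  rw [LineSize.four_pow]
  have h4 := Nat.pow_le_pow_left h2 2
  nlinarith

/-- The constraints have quadratic size in `J`. -/
theorem size_pAx (hJ : 1 ≤ J) (v : GV 3 M) : (pAx (J := J) v).size ≤ 432 * J ^ 2 := by
  rw [pAx_eq]
  have h := size_pTree hJ v
  unfold litF
  split_ifs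
  · omega
  · simp only [Fm.size]
    omega

/-- The tree of all constraints. -/
noncomputable def pBig (M J : ℕ) : XT (PV M J) :=
  XT.ofList (Nat.clog 2 (M ^ 3)) ((Finset.univ : Finset (GV 3 M)).toList.map pTree)

lemma size_pBig (hM : 2 ≤ M) (hJ : 1 ≤ J) :
    (pBig M J).fm.size ≤ 1736 * Fintype.card (PV M J) ^ 2 := by
  unfold pBig
  rw [XT.fm_ofList]
  have hJ2 : 1 ≤ J ^ 2 := Nat.one_le_pow _ _ (by omega)
  have h1 := size_xorList (432 * J ^ 2) (by omega) (Nat.clog 2 (M ^ 3))
    (((Finset.univ : Finset (GV 3 M)).toList.map (pTree (J := J))).map XT.fm) (by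
      intro φ hφ
      obtain ⟨T, hT, rfl⟩ := List.mem_map.mp hφ
      obtain ⟨u, _, rfl⟩ := List.mem_map.mp hT
      have := size_pTree hJ u
      omega)
  have h0 : 1 ≤ M ^ 3 := Nat.one_le_pow _ _ (by omega)
  have h2 := two_pow_clog_le h0
  have h3 := le_card_GE (D := 3) hM (by norm_num)
  have hn : Fintype.card (PV M J) = Fintype.card (GE 3 M) * J := by
    rw [Fintype.card_prod, Fintype.card_fin]
  rw [hn]
  set n := Fintype.card (GE 3 M) with hn'
  have h4 : 2 ^ Nat.clog 2 (M ^ 3) ≤ 2 * n := h2.trans (Nat.mul_le_mul_left _ h3)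
  have h5 := Nat.pow_le_pow_left h4 2
  rw [← LineSize.four_pow] at h5
  have h6 : 4 ^ Nat.clog 2 (M ^ 3) * (432 * J ^ 2 + 2) ≤ (2 * n) ^ 2 * (434 * J ^ 2) :=
    Nat.mul_le_mul h5 (by omega)
  have h7 : (2 * n) ^ 2 * (434 * J ^ 2) = 1736 * (n * J) ^ 2 := by ring
  omega

lemma sv_pBig (x : PV M J → Bool) : sv x (pBig M J).fm = 1 := by
  unfold pBig
  rw [XT.fm_ofList, sv_xorList x (Nat.clog 2 (M ^ 3)) _ (by
    simp only [List.length_map, Finset.length_toList, Finset.card_univ, card_GV]
    exact Nat.le_pow_clog (by norm_num) _), List.map_map, List.map_map]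
  have h1 : (sv x ∘ XT.fm) ∘ pTree = fun v : GV 3 M =>
      (∏ e ∈ (univ : Finset (PV M J)).filter (fun e => gsrc e.1 = v), sg (x e)) *
      ∏ e ∈ (univ : Finset (PV M J)).filter (fun e => gtgt e.1 = v), sg (x e) := by
    funext v
    simp only [Function.comp]
    rw [pTree_fm, psv, pset, Finset.filter_or, Finset.prod_union]
    rw [Finset.disjoint_filter]
    intro e _ h2 h3
    exact upperG_src_ne_tgt e.1 (h2.trans h3.symm)
  rw [h1, Finset.prod_map_toList, Finset.prod_mul_distrib]
  rw [Finset.prod_fiberwise (univ : Finset (PV M J)) (fun e => gsrc e.1) (fun e => sg (x e)),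
    Finset.prod_fiberwise (univ : Finset (PV M J)) (fun e => gtgt e.1) (fun e => sg (x e)),
    ← Finset.prod_mul_distrib]
  exact Finset.prod_eq_one fun e _ => sg_mul_self _

lemma par_pBig (e : PV M J) : (pBig M J).par e = false := by
  have h := XT.sv_flip (fun _ : PV M J => false) e (pBig M J)
  rw [sv_pBig, sv_pBig] at h
  by_contra hcon
  have hcon' : (pBig M J).par e = true := by simpa using hcon
  rw [hcon'] at h
  norm_num at h

/-- Short refutations with lines of quadratic size. -/
theorem upperP (F : FregeSystem) : ∃ c : ℕ, ∀ M J : ℕ, 2 ≤ M → 1 ≤ J →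
    ∃ L : List (Fm (PV M J)), IsDeriv F.rules (pAxioms M J) L ∧ Fm.bot ∈ L ∧
      L.length ≤ c * Fintype.card (PV M J) ^ 3 ∧
      ∀ φ ∈ L, φ.size ≤ c * Fintype.card (PV M J) ^ 2 := by
  classical
  refine ⟨10000 * F.K, fun M J hM hJ => ?_⟩
  set n := Fintype.card (PV M J) with hn
  have hK := F.K_pos
  have hng : Fintype.card (GE 3 M) ≤ n := by
    rw [hn, Fintype.card_prod, Fintype.card_fin]
    exact Nat.le_mul_of_pos_right _ (by omega)
  have hnJ : J ≤ n := by
    rw [hn, Fintype.card_prod, Fintype.card_fin]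
    refine Nat.le_mul_of_pos_left _ ?_
    have h1 := le_card_GE (D := 3) hM (by norm_num)
    have h2 : 1 ≤ M ^ 3 := Nat.one_le_pow _ _ (by omega)
    omega
  have hMD : M ^ 3 ≤ n := (le_card_GE hM (by norm_num)).trans hng
  have h0 : 1 ≤ M ^ 3 := Nat.one_le_pow _ _ (by omega)
  have hn1 : 1 ≤ n := h0.trans hMD
  have hn2 : 1 ≤ n ^ 2 := Nat.one_le_pow _ _ hn1
  set W := 1736 * n ^ 2 with hW
  have hW1 : 1 ≤ W := by omega
  have hbig : (pBig M J).fm.size ≤ W := size_pBig hM hJ
  set us := (Finset.univ : Finset (GV 3 M)).toList with hus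
  have huslen : us.length = M ^ 3 := by
    rw [hus, Finset.length_toList, Finset.card_univ, card_GV]
  have hax : pAxioms M J = us.map fun u => litF (gcharge u) (pTree u).fm := by
    unfold pAxioms
    exact List.map_congr_left fun u _ => pAx_eq u
  -- the axioms
  have hL0 : IsDeriv F.rules (pAxioms M J) (pAxioms M J) :=
    deriv_hyps _ _ _ fun _ h => h
  have hs0 : ∀ ψ ∈ pAxioms M J, ψ.size ≤ F.K * W := by
    intro ψ hψ
    obtain ⟨u, _, rfl⟩ := List.mem_map.mp hψ
    have h1 := size_pAx hJ u
    have h2 : J ^ 2 ≤ n ^ 2 := Nat.pow_le_pow_left hnJ 2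
    have h5 : W ≤ F.K * W := Nat.le_mul_of_pos_left _ hK
    omega
  -- the conjunction of the constraints
  have e1 := ext_ofList (F := F) (Γ := pAxioms M J) hW1 (pTree (M := M) (J := J)) gcharge
    (Nat.clog 2 (M ^ 3)) us (by rw [huslen]; exact Nat.le_pow_clog (by norm_num) _) hbig
  rw [← hax] at e1
  obtain ⟨L1, a1, b1, c1, d1, f1⟩ := e1 _ hL0 hs0 fun _ h => h
  have hval : valB gcharge us = true := by
    have hz : (gcharge : GV 3 M → Bool) =
        fun u => decide (u = fun _ => (⟨0, by omega⟩ : Fin M)) := by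
      funext u
      unfold gcharge
      congr 1
      rw [eq_iff_iff]
      constructor
      · intro h
        funext i
        exact Fin.ext (h i)
      · intro h i
        rw [h]
    rw [hz, valB_eq _ us (Finset.nodup_toList _), decide_eq_true_iff]
    exact Finset.mem_toList.mpr (Finset.mem_univ _)
  rw [hval] at d1
  -- kill all the variables
  set xs := (Finset.univ : Finset (PV M J)).toList with hxs
  have hxslen : xs.length = n := by
    rw [hxs, Finset.length_toList, Finset.card_univ, hn]
  have e2 := ext_killAll (F := F) (Γ := pAxioms M J) hW1 xs (pBig M J) hbig par_pBig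
  obtain ⟨L2, a2, b2, c2, d2, f2⟩ := e2 L1 a1 b1 (by
    intro ψ hψ
    exact d1 ψ hψ)
  have hsz : (killAll xs (pBig M J)).fm.size ≤ W := by
    have : ∀ (ys : List (PV M J)) (t : XT (PV M J)), (killAll ys t).fm.size = t.fm.size := by
      intro ys
      induction ys with
      | nil => exact fun t => rfl
      | cons y ys ih =>
        intro t
        have := ih (t.kill y)
        rw [XT.size_kill] at this
        exact this
    rw [this]
    exact hbig
  have e3 := ext_neg (F := F) (Γ := pAxioms M J) hW1 (killAll xs (pBig M J)) hsz (by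
    intro x hx
    exact occ_killAll xs (pBig M J) x hx (Finset.mem_toList.mpr (Finset.mem_univ _)))
  obtain ⟨L3, a3, b3, c3, d3, f3⟩ := e3 L2 a2 b2 (by simp)
  have e4 := Ext.rule (F := F) (Γ := pAxioms M J) hW1 [.var 0, .neg (.var 0)] .bot
    [(killAll xs (pBig M J)).fm] (by decide) (by
      intro v h
      simp only [List.mem_cons, List.not_mem_nil, or_false, forall_eq_or_imp, forall_eq,
        Fm.eval] at h
      exact absurd h.1 h.2) (by simpa using hsz)
  obtain ⟨L4, a4, b4, c4, d4, f4⟩ := e4 L3 a3 b3 (by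
    intro ψ hψ
    simp only [List.map_cons, List.map_nil, List.mem_cons, List.not_mem_nil, or_false] at hψ
    rcases hψ with rfl | rfl
    · exact c3 _ (d2 _ (by simp [sub, Fm.subst]))
    · exact d3 _ (by simp [sub, Fm.subst]))
  refine ⟨L4, a4, d4 _ (by simp [Fm.subst]), ?_, ?_⟩
  · have hL0len : (pAxioms M J).length = M ^ 3 := by
      unfold pAxioms
      rw [List.length_map, Finset.length_toList, Finset.card_univ, card_GV]
    have hnodes := (XT.nodes_le (killAll xs (pBig M J))).trans hsz
    have g0 : 2 ^ (Nat.clog 2 (M ^ 3) + 1) ≤ 4 * n := by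
      rw [pow_succ]
      have := two_pow_clog_le h0
      omega
    have g1 : F.K * (2 ^ (Nat.clog 2 (M ^ 3) + 1) - 1) ≤ 4 * (F.K * n) := by
      calc F.K * (2 ^ (Nat.clog 2 (M ^ 3) + 1) - 1) ≤ F.K * (4 * n) :=
            Nat.mul_le_mul_left _ (by omega)
        _ = 4 * (F.K * n) := by ring
    have g3 : F.K * (killAll xs (pBig M J)).nodes ≤ F.K * W := Nat.mul_le_mul_left _ hnodes
    rw [hxslen] at f2
    set T := F.K * n ^ 3 with hT
    have g2 : n * (2 * F.K * W + F.K) = 3472 * T + F.K * n := by
      rw [hW, hT]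
      ring
    have n13 : n ≤ n ^ 3 := by
      calc n = n ^ 1 := (pow_one n).symm
        _ ≤ n ^ 3 := Nat.pow_le_pow_right hn1 (by norm_num)
    have n23 : n ^ 2 ≤ n ^ 3 := Nat.pow_le_pow_right hn1 (by norm_num)
    have g4 : F.K * W ≤ 1736 * T := by
      rw [hW, hT]
      calc F.K * (1736 * n ^ 2) = 1736 * (F.K * n ^ 2) := by ring
        _ ≤ 1736 * (F.K * n ^ 3) :=
            Nat.mul_le_mul_left _ (Nat.mul_le_mul_left _ n23)
    have k0 : F.K * n ≤ T := Nat.mul_le_mul_left _ n13
    have k1 : F.K ≤ F.K * n := Nat.le_mul_of_pos_right _ hn1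
    have k4 : n ≤ F.K * n := Nat.le_mul_of_pos_left _ hK
    have k5 : 10000 * F.K * n ^ 3 = 10000 * T := by rw [hT]; ring
    rw [k5]
    omega
  · intro φ hφ
    have h1 := b4 φ hφ
    have h2 : F.K * W = 1736 * (F.K * n ^ 2) := by
      rw [hW]
      ring
    have k5 : 10000 * F.K * n ^ 2 = 10000 * (F.K * n ^ 2) := by ring
    omega

end AcFrege
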