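import Pool.Agent.Work.MP_c07f0d_lc.AC.AxGrid
import Pool.Agent.Work.MP_c07f0d_lc.AC.AcProc
import Pool.Agent.Work.MP_c07f0d_lc.AC.ConsDef
import Pool.Agent.Work.MP_c07f0d_lc.AC.PUpper

/-!
# An axiom is not false on all assignments consistent with a small matching
-/

namespace AcFrege

open Finset FregeEF LineSize GridLine

theorem ident_le {V : Type} (μ : Mt V) : (ident : Mt V) ≤ μ := fun _ hv => absurd rfl hv

theorem free_ident {V : Type} [Fintype V] [DecidableEq V] :
    free (ident : Mt V) = Finset.univ := by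
  ext v
  rw [mem_free]
  exact iff_of_true rfl (Finset.mem_univ _)

/-- The assignment of a larger matching is consistent with the smaller matching. -/
theorem cons_of_le {E V : Type} {own : E → Option V} {ev : E → (V → V) → Bool}
    (hev : ∀ e (p p' : V → V), (∀ v, own e = some v → p v = p' v) → ev e p = ev e p')
    {μ μ' : Mt V} (h : μ ≤ μ') : Cons own ev μ (fun e => ev e μ') := by
  intro e he
  exact hev e _ _ fun v hv => h v (he v hv)

/-- **An axiom is true on some assignment consistent with a small matching.** -/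
theorem ax_true {M J N c : ℕ} (hN : Odd N) (hNM : N ≤ M) (hc : c + 6 ≤ N)
    (v : GV 3 M) (σ : GE 3 M → Fin J) (z : PV M J → Bool) (μ : Mt (Fin N))
    (hμ : cost ident μ ≤ c) :
    ∃ y, Cons (own M N) ev μ y ∧ (pAx v).eval (fun i => rho σ z y i = true) := by
  classical
  -- the owners near `v`
  set Q : Finset (Fin N) := Finset.univ.filter
    fun w => (w : ℕ) = (v 0 : ℕ) ∨ (w : ℕ) = (v 1 : ℕ) with hQ
  have hQ2 : Q.card ≤ 2 := by
    have h1 : Q.image (fun w : Fin N => (w : ℕ)) ⊆ {(v 0 : ℕ), (v 1 : ℕ)} := by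
      intro x hx
      rw [Finset.mem_image] at hx
      obtain ⟨w, hw, rfl⟩ := hx
      rw [hQ, Finset.mem_filter] at hw
      rw [Finset.mem_insert, Finset.mem_singleton]
      exact hw.2
    rw [← Finset.card_image_of_injective Q Fin.val_injective]
    exact (Finset.card_le_card h1).trans Finset.card_le_two
  have hfree : cost ident μ + (free μ).card = N := by
    rw [cost_add_free (ident_le μ), free_ident, Finset.card_univ, Fintype.card_fin]
  obtain ⟨μ', hle, hcov, _⟩ := exists_cover μ Q (by omega)
  refine ⟨fun e => ev e μ', cons_of_le (fun e p p' h => ev_congr e p p' h) hle, ?_⟩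
  rw [pAx_rho]
  exact parity_grid hN hNM μ' μ'.inv v
    (fun w hw => hcov w (Finset.mem_filter.2 ⟨Finset.mem_univ _, hw⟩)) _ fun _ _ => rfl

/-- An axiom is not false on all assignments consistent with a small matching. -/
theorem ax_val {M J N c : ℕ} (hN : Odd N) (hNM : N ≤ M) (hc : c + 6 ≤ N)
    (v : GV 3 M) (σ : GE 3 M → Fin J) (z : PV M J → Bool) (μ : Mt (Fin N))
    (hμ : cost ident μ ≤ c)
    (h : ∀ y, Cons (own M N) ev μ y → ¬ (pAx v).eval (fun i => rho σ z y i = true)) : False := by
  obtain ⟨y, h1, h2⟩ := ax_true hN hNM hc v σ z μ hμ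
  exact h y h1 h2

end AcFrege
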