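import Mathlib
import Pool.Agent.Work.MP_c07f0d_lc.LS.Walsh

/-!
# A function of low degree has few disjoint sensitive blocks
-/

set_option linter.unusedSectionVars false

namespace AcFrege

open Finset LineSize Polynomial

variable {ι : Type} [Fintype ι] [DecidableEq ι]

/-- change the bits in `B` -/
def flipSet (x : ι → Bool) (B : Finset ι) : ι → Bool := fun i => xor (x i) (decide (i ∈ B))

lemma chi_decide (S B : Finset ι) : chi S (fun i => decide (i ∈ B)) = (-1) ^ (S ∩ B).card := by
  unfold chi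
  have h : ∀ i, sg (decide (i ∈ B)) = if i ∈ B then (-1 : ℝ) else 1 := by
    intro i
    by_cases hi : i ∈ B <;> simp [sg, hi]
  simp only [h]
  rw [Finset.prod_ite_mem, Finset.prod_const]

lemma chi_flipSet (S B : Finset ι) (x : ι → Bool) :
    chi S (flipSet x B) = chi S x * (-1) ^ (S ∩ B).card := by
  rw [← chi_decide]
  simp only [chi, flipSet, sg_xor, Finset.prod_mul_distrib]

section blocks

variable {τ : Type} [Fintype τ] [DecidableEq τ] (B : τ → Finset ι)

/-- the sign of `S` on the block `B j` -/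
def sgn (S : Finset ι) (j : τ) : ℝ := (-1) ^ (S ∩ B j).card

lemma sgn_eq (S : Finset ι) (j : τ) : sgn B S j = 1 ∨ sgn B S j = -1 :=
  neg_one_pow_eq_or ℝ _

/-- the number of blocks which meet `S` in an odd number of elements -/
noncomputable def odd (S : Finset ι) : ℕ := (univ.filter fun j => sgn B S j = -1).card

lemma chi_flipUnion (hB : Pairwise fun i j => Disjoint (B i) (B j)) (S : Finset ι) (x : ι → Bool)
    (A : Finset τ) : chi S (flipSet x (A.biUnion B)) = chi S x * ∏ j ∈ A, sgn B S j := by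
  rw [chi_flipSet, Finset.inter_biUnion, Finset.card_biUnion, ← Finset.prod_pow_eq_pow_sum]
  · rfl
  · intro i _ j _ hij
    exact (hB hij).mono inter_subset_right inter_subset_right

lemma odd_le (hB : Pairwise fun i j => Disjoint (B i) (B j)) (S : Finset ι) :
    odd B S ≤ S.card := by
  unfold odd
  calc (univ.filter fun j => sgn B S j = -1).card
      = ∑ _j ∈ univ.filter fun j => sgn B S j = -1, 1 := by simp
    _ ≤ ∑ j ∈ univ.filter fun j => sgn B S j = -1, (S ∩ B j).card := by
        refine Finset.sum_le_sum fun j hj => ?_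
        rw [Finset.mem_filter] at hj
        by_contra hlt
        have h0 : (S ∩ B j).card = 0 := by omega
        have h1 : sgn B S j = 1 := by
          unfold sgn
          rw [h0, pow_zero]
        rw [h1] at hj
        norm_num at hj
    _ = ((univ.filter fun j => sgn B S j = -1).biUnion fun j => S ∩ B j).card := by
        rw [Finset.card_biUnion]
        intro i _ j _ hij
        exact (hB hij).mono inter_subset_right inter_subset_right
    _ ≤ S.card := Finset.card_le_card (Finset.biUnion_subset.2 fun j _ => inter_subset_left)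

/-- the polynomial of the averages of `f` over random unions of blocks -/
noncomputable def blockPoly (f : (ι → Bool) → ℝ) (x : ι → Bool) : ℝ[X] :=
  ∑ S : Finset ι, C (fc f S * chi S x) * X ^ odd B S

lemma pow_odd (S : Finset ι) (s : ℝ) : s ^ odd B S = ∏ j : τ, (if sgn B S j = -1 then s else 1) := by
  unfold odd
  rw [Finset.prod_ite, Finset.prod_const, Finset.prod_const_one, mul_one]

lemma pow_odd_eq (S : Finset ι) (s : ℝ) : s ^ odd B S = ∑ A : Finset τ,
    ((∏ _j ∈ A, (1 - s) / 2) * ∏ _j ∈ univ \ A, (1 + s) / 2) * ∏ j ∈ A, sgn B S j := by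
  have h1 : ∀ j : τ, (if sgn B S j = -1 then s else 1) =
      (1 - s) / 2 * sgn B S j + (1 + s) / 2 := by
    intro j
    rcases sgn_eq B S j with h | h
    · rw [h, if_neg (by norm_num)]
      ring
    · rw [h, if_pos rfl]
      ring
  rw [pow_odd, Finset.prod_congr rfl fun j _ => h1 j, Finset.prod_add, Finset.powerset_univ]
  refine Finset.sum_congr rfl fun A _ => ?_
  rw [Finset.prod_mul_distrib]
  ring

lemma eval_blockPoly (hB : Pairwise fun i j => Disjoint (B i) (B j)) (f : (ι → Bool) → ℝ)
    (x : ι → Bool) (s : ℝ) : (blockPoly B f x).eval s = ∑ A : Finset τ,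
      ((∏ _j ∈ A, (1 - s) / 2) * ∏ _j ∈ univ \ A, (1 + s) / 2) *
        f (flipSet x (A.biUnion B)) := by
  have h1 : ∀ A : Finset τ, f (flipSet x (A.biUnion B)) =
      ∑ S : Finset ι, fc f S * (chi S x * ∏ j ∈ A, sgn B S j) := by
    intro A
    rw [← walsh f (flipSet x (A.biUnion B))]
    exact Finset.sum_congr rfl fun S _ => by rw [chi_flipUnion B hB]
  unfold blockPoly
  rw [Polynomial.eval_finsetSum]
  simp only [Polynomial.eval_mul, Polynomial.eval_C, Polynomial.eval_pow, Polynomial.eval_X]
  simp only [pow_odd_eq B _ s, h1, Finset.mul_sum]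
  rw [Finset.sum_comm]
  refine Finset.sum_congr rfl fun A _ => Finset.sum_congr rfl fun S _ => ?_
  ring

lemma sum_weight (s : ℝ) : ∑ A : Finset τ,
    ((∏ _j ∈ A, (1 - s) / 2) * ∏ _j ∈ univ \ A, (1 + s) / 2) = 1 := by
  have h := Finset.prod_add (fun _ : τ => (1 - s) / 2) (fun _ => (1 + s) / 2) univ
  rw [Finset.powerset_univ] at h
  rw [← h]
  refine Finset.prod_eq_one fun j _ => ?_
  ring

lemma abs_eval_le (hB : Pairwise fun i j => Disjoint (B i) (B j)) {f : (ι → Bool) → ℝ}
    (hf : ∀ x, |f x| ≤ 1) (x : ι → Bool) {s : ℝ} (hs : s ∈ Set.Icc (-1 : ℝ) 1) :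
    |(blockPoly B f x).eval s| ≤ 1 := by
  rw [eval_blockPoly B hB]
  have h0 : ∀ A : Finset τ, 0 ≤ (∏ _j ∈ A, (1 - s) / 2) * ∏ _j ∈ univ \ A, (1 + s) / 2 := by
    intro A
    refine mul_nonneg (Finset.prod_nonneg fun _ _ => ?_) (Finset.prod_nonneg fun _ _ => ?_)
    · linarith [hs.2]
    · linarith [hs.1]
  calc |∑ A : Finset τ, ((∏ _j ∈ A, (1 - s) / 2) * ∏ _j ∈ univ \ A, (1 + s) / 2) *
        f (flipSet x (A.biUnion B))|
      ≤ ∑ A : Finset τ, |((∏ _j ∈ A, (1 - s) / 2) * ∏ _j ∈ univ \ A, (1 + s) / 2) *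
        f (flipSet x (A.biUnion B))| := Finset.abs_sum_le_sum_abs _ _
    _ ≤ ∑ A : Finset τ, ((∏ _j ∈ A, (1 - s) / 2) * ∏ _j ∈ univ \ A, (1 + s) / 2) := by
        refine Finset.sum_le_sum fun A _ => ?_
        rw [abs_mul, abs_of_nonneg (h0 A)]
        exact mul_le_of_le_one_right (h0 A) (hf _)
    _ = 1 := sum_weight s

lemma degree_blockPoly (hB : Pairwise fun i j => Disjoint (B i) (B j)) {f : (ι → Bool) → ℝ}
    {k : ℕ} (hf : LowDeg k f) (x : ι → Bool) : (blockPoly B f x).degree ≤ k := by
  unfold blockPoly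
  refine (Polynomial.degree_sum_le _ _).trans (Finset.sup_le fun S _ => ?_)
  by_cases h : k < S.card
  · rw [hf S h, zero_mul, map_zero, zero_mul, Polynomial.degree_zero]
    exact bot_le
  · refine (Polynomial.degree_C_mul_X_pow_le _ _).trans ?_
    exact_mod_cast (odd_le B hB S).trans (by omega)

lemma two_mul_odd (S : Finset ι) : 2 * (odd B S : ℝ) = ∑ j : τ, (1 - sgn B S j) := by
  have h1 : ∀ j : τ, 1 - sgn B S j = if sgn B S j = -1 then (2 : ℝ) else 0 := by
    intro j
    rcases sgn_eq B S j with h | h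
    · rw [h, if_neg (by norm_num)]
      ring
    · rw [h, if_pos rfl]
      ring
  simp only [h1]
  rw [← Finset.sum_filter, Finset.sum_const, nsmul_eq_mul]
  unfold odd
  ring

lemma derivative_blockPoly (f : (ι → Bool) → ℝ) (x : ι → Bool) :
    2 * (derivative (blockPoly B f x)).eval 1 = ∑ j : τ, (f x - f (flipSet x (B j))) := by
  have h1 : ∀ j : τ, f x - f (flipSet x (B j)) =
      ∑ S : Finset ι, fc f S * chi S x * (1 - sgn B S j) := by
    intro j
    rw [← walsh f x, ← walsh f (flipSet x (B j)), ← Finset.sum_sub_distrib]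
    refine Finset.sum_congr rfl fun S _ => ?_
    rw [chi_flipSet]
    unfold sgn
    ring
  simp only [h1]
  rw [Finset.sum_comm]
  unfold blockPoly
  rw [Polynomial.derivative_sum, Polynomial.eval_finsetSum, Finset.mul_sum]
  refine Finset.sum_congr rfl fun S _ => ?_
  rw [← Finset.mul_sum, ← two_mul_odd]
  rw [Polynomial.derivative_C_mul_X_pow]
  simp only [Polynomial.eval_mul, Polynomial.eval_C, Polynomial.eval_pow, Polynomial.eval_X,
    one_pow, mul_one]
  ring

end blocks

lemma T_derivative_one (k : ℕ) :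
    (derivative (Polynomial.Chebyshev.T ℝ (k : ℤ))).eval 1 = (k : ℝ) ^ 2 := by
  rw [Polynomial.Chebyshev.T_derivative_eq_U, Polynomial.eval_mul,
    Polynomial.Chebyshev.U_eval_one]
  simp
  ring

/-- A function of degree at most `k` with values in `[-1, 1]`: the sum of the differences over
disjoint blocks is at most `2 * k ^ 2`. -/
theorem sum_diff_le {f : (ι → Bool) → ℝ} {k : ℕ} (hf : LowDeg k f) (h1 : ∀ x, |f x| ≤ 1)
    (x : ι → Bool) {τ : Type} [Fintype τ] [DecidableEq τ] (B : τ → Finset ι)
    (hB : Pairwise fun i j => Disjoint (B i) (B j)) :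
    ∑ j : τ, (f x - f (flipSet x (B j))) ≤ 2 * (k : ℝ) ^ 2 := by
  rw [← derivative_blockPoly]
  have h := Polynomial.Chebyshev.eval_iterate_derivative_le_of_forall_abs_le_one (n := k) (k := 1)
    (P := blockPoly B f x) (x := 1) le_rfl (degree_blockPoly B hB hf x)
    (fun s hs => abs_eval_le B hB h1 x hs)
  simp only [Function.iterate_one] at h
  rw [T_derivative_one] at h
  linarith

/-- A Boolean function of degree at most `k` has at most `k ^ 2` disjoint sensitive blocks. -/
theorem card_blocks_le (f : (ι → Bool) → Bool) {k : ℕ}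
    (hf : LowDeg k (fun x => if f x then (1 : ℝ) else 0)) (x : ι → Bool) {τ : Type} [Fintype τ]
    [DecidableEq τ] (B : τ → Finset ι) (hB : Pairwise fun i j => Disjoint (B i) (B j))
    (hs : ∀ j, f (flipSet x (B j)) ≠ f x) : Fintype.card τ ≤ k ^ 2 := by
  -- the values `-1, 1`
  have key : ∀ (ε : ℝ), (ε = 1 ∨ ε = -1) → ∀ g : (ι → Bool) → ℝ,
      (∀ y, g y = ε * (2 * (if f y then (1 : ℝ) else 0) - 1)) → LowDeg k g ∧ ∀ y, |g y| ≤ 1 := by
    intro ε hε g hg
    constructor
    · have : g = fun y => ε * (2 * (if f y then (1 : ℝ) else 0) - 1) := funext hg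
      rw [this]
      exact ((hf.const_mul 2).sub (LowDeg.const k 1)).const_mul ε
    · intro y
      rw [hg]
      rcases hε with rfl | rfl <;> by_cases hy : f y = true <;> simp [hy] <;> norm_num
  have main : ∀ (ε : ℝ), (ε = 1 ∨ ε = -1) →
      (∀ j, ε * (2 * (if f x then (1 : ℝ) else 0) - 1) -
        ε * (2 * (if f (flipSet x (B j)) then (1 : ℝ) else 0) - 1) = 2) →
      Fintype.card τ ≤ k ^ 2 := by
    intro ε hε hj
    obtain ⟨h1, h2⟩ := key ε hε (fun y => ε * (2 * (if f y then (1 : ℝ) else 0) - 1)) fun y => rfl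
    have h3 := sum_diff_le h1 h2 x B hB
    simp only [hj] at h3
    rw [Finset.sum_const, nsmul_eq_mul, Finset.card_univ] at h3
    have h4 : (Fintype.card τ : ℝ) ≤ (k : ℝ) ^ 2 := by linarith
    exact_mod_cast h4
  by_cases hx : f x = true
  · refine main 1 (Or.inl rfl) fun j => ?_
    have hj := hs j
    rw [hx] at hj
    have hj' : f (flipSet x (B j)) = false := by simpa using hj
    rw [hx, hj']
    norm_num
  · refine main (-1) (Or.inr rfl) fun j => ?_
    have hx' : f x = false := by simpa using hx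
    have hj := hs j
    rw [hx'] at hj
    have hj' : f (flipSet x (B j)) = true := by simpa using hj
    rw [hx', hj']
    norm_num

end AcFrege
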