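import Mathlib
import Pool.Agent.Work.MP_c07f0d_lc.AC.BlockSens

/-!
# A Boolean function of degree `k` has a decision tree of depth `k ^ 4`
-/

set_option linter.unusedSectionVars false

namespace AcFrege

open Finset LineSize

/-- Decision trees. -/
inductive Tr (ι : Type) : Type
  | leaf (b : Bool) : Tr ι
  | node (i : ι) (t₀ t₁ : Tr ι) : Tr ι

/-- The depth of a decision tree. -/
def Tr.depth {ι : Type} : Tr ι → ℕ
  | .leaf _ => 0
  | .node _ t₀ t₁ => max t₀.depth t₁.depth + 1

/-- The function computed by a decision tree. -/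
def Tr.eval {ι : Type} : Tr ι → (ι → Bool) → Bool
  | .leaf b, _ => b
  | .node i t₀ t₁, x => if x i then t₁.eval x else t₀.eval x

variable {ι : Type} [Fintype ι] [DecidableEq ι]

/-- real values of a Boolean function -/
def rv (f : (ι → Bool) → Bool) (x : ι → Bool) : ℝ := if f x then 1 else 0

/-- the restriction of a function -/
def restr (H : Finset ι) (a : ι → Bool) (f : (ι → Bool) → Bool) (x : ι → Bool) : Bool :=
  f (fun i => if i ∈ H then a i else x i)

lemma rv_restr (H : Finset ι) (a : ι → Bool) (f : (ι → Bool) → Bool) (x : ι → Bool) :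
    rv (restr H a f) x = ∑ S : Finset ι, (fc (rv f) S * chi (S ∩ H) a) * chi (S \ H) x := by
  have h1 : rv (restr H a f) x = rv f (fun i => if i ∈ H then a i else x i) := rfl
  rw [h1, ← walsh (rv f) (fun i => if i ∈ H then a i else x i)]
  refine Finset.sum_congr rfl fun S _ => ?_
  rw [mul_assoc]
  congr 1
  unfold chi
  rw [← Finset.prod_sdiff (Finset.inter_subset_left : S ∩ H ⊆ S), mul_comm]
  congr 1
  · refine Finset.prod_congr rfl fun i hi => ?_
    show sg (if i ∈ H then a i else x i) = _
    rw [if_pos (Finset.mem_inter.1 hi).2]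
  · rw [Finset.sdiff_inter_self_left]
    refine Finset.prod_congr rfl fun i hi => ?_
    show sg (if i ∈ H then a i else x i) = _
    rw [if_neg (Finset.mem_sdiff.1 hi).2]

lemma lowDeg_restr {H : Finset ι} {f : (ι → Bool) → Bool} {k m : ℕ} (hf : LowDeg k (rv f))
    (hH : ∀ S : Finset ι, fc (rv f) S ≠ 0 → S.card ≤ k → (S \ H).card ≤ m) (a : ι → Bool) :
    LowDeg m (rv (restr H a f)) := by
  have h1 : rv (restr H a f) = fun x => ∑ S : Finset ι,
      (fc (rv f) S * chi (S ∩ H) a) * chi (S \ H) x := funext (rv_restr H a f)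
  rw [h1]
  refine LowDeg.sum fun S _ => ?_
  by_cases h : fc (rv f) S = 0
  · have h2 : (fun x => (fc (rv f) S * chi (S ∩ H) a) * chi (S \ H) x) = fun _ => (0 : ℝ) := by
      funext x
      rw [h, zero_mul, zero_mul]
    rw [h2]
    exact LowDeg.const m 0
  · have hk : S.card ≤ k := by
      by_contra hlt
      exact h (hf S (by omega))
    exact ((LowDeg.chi (S \ H)).mono (hH S h hk)).const_mul _

/-- the point with ones exactly on `A` -/
def pt (A : Finset ι) : ι → Bool := fun i => decide (i ∈ A)

lemma sum_pt {f : (ι → Bool) → ℝ} {k : ℕ} (hf : LowDeg k f) {S : Finset ι} (hS : S.card = k) :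
    ∑ A ∈ S.powerset, f (pt A) * chi S (pt A) = 2 ^ k * fc f S := by
  have hchi : ∀ R A : Finset ι, chi R (pt A) = ∏ i ∈ A, (if i ∈ R then (-1 : ℝ) else 1) := by
    intro R A
    have h1 : chi R (pt A) = (-1) ^ (R ∩ A).card := chi_decide R A
    rw [h1, Finset.prod_ite_mem, Finset.prod_const, Finset.inter_comm]
  have hsum : ∀ R : Finset ι, ∑ A ∈ S.powerset, chi R (pt A)
      = if Disjoint S R then (2 : ℝ) ^ k else 0 := by
    intro R
    simp only [hchi]
    rw [← Finset.prod_add_one]
    by_cases hd : Disjoint S R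
    · rw [if_pos hd, ← hS, ← Finset.prod_const]
      refine Finset.prod_congr rfl fun i hi => ?_
      rw [if_neg (Finset.disjoint_left.mp hd hi)]
      norm_num
    · rw [if_neg hd]
      obtain ⟨i, hi1, hi2⟩ := Finset.not_disjoint_iff.mp hd
      apply Finset.prod_eq_zero hi1
      simp [hi2]
  have h1 : ∀ A : Finset ι, f (pt A) * chi S (pt A)
      = ∑ T, fc f T * chi (symmDiff T S) (pt A) := by
    intro A
    rw [← walsh f (pt A), Finset.sum_mul]
    refine Finset.sum_congr rfl fun T _ => ?_
    rw [mul_assoc, chi_mul]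
  simp only [h1]
  rw [Finset.sum_comm]
  simp only [← Finset.mul_sum, hsum]
  rw [Finset.sum_eq_single S]
  · rw [if_pos (by simp), mul_comm]
  · intro T _ hTS
    by_cases hd : Disjoint S (symmDiff T S)
    · have hsub : S ⊆ T := by
        intro i hi
        by_contra hiT
        exact Finset.disjoint_left.mp hd hi (Finset.mem_symmDiff.mpr (Or.inr ⟨hi, hiT⟩))
      have hlt : k < T.card := by
        rw [← hS]
        exact Finset.card_lt_card (Finset.ssubset_iff_subset_ne.mpr ⟨hsub, Ne.symm hTS⟩)
      rw [hf T hlt, zero_mul]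
    · rw [if_neg hd, mul_zero]
  · intro h
    exact absurd (Finset.mem_univ S) h

/-- a set of the maximal size in the spectrum contains a sensitive block of the zero point -/
lemma exists_block {f : (ι → Bool) → Bool} {k : ℕ} (hf : LowDeg k (rv f)) {S : Finset ι}
    (hS : S.card = k) (hk : 0 < k) (hne : fc (rv f) S ≠ 0) :
    ∃ A ⊆ S, f (flipSet (fun _ => false) A) ≠ f (fun _ => false) := by
  by_contra hcon
  push Not at hcon
  have h1 : ∀ A ∈ S.powerset, rv f (pt A) * chi S (pt A) =
      rv f (fun _ => false) * chi S (pt A) := by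
    intro A hA
    have h2 : pt A = flipSet (fun _ => false) A := by
      funext i
      simp [pt, flipSet]
    have h3 : rv f (pt A) = rv f (fun _ => false) := by
      unfold rv
      rw [h2, hcon A (Finset.mem_powerset.1 hA)]
    rw [h3]
  have h2 := sum_pt hf hS
  rw [Finset.sum_congr rfl h1, ← Finset.mul_sum] at h2
  have h3 : ∑ A ∈ S.powerset, chi S (pt A) = 0 := by
    have h4 : ∀ A ∈ S.powerset, chi S (pt A) = ∏ _i ∈ A, (-1 : ℝ) := by
      intro A hA
      have h5 : chi S (pt A) = (-1) ^ (S ∩ A).card := chi_decide S A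
      rw [h5, Finset.inter_eq_right.2 (Finset.mem_powerset.1 hA), Finset.prod_const]
    rw [Finset.sum_congr rfl h4, ← Finset.prod_add_one]
    obtain ⟨i, hi⟩ := Finset.card_pos.1 (by omega : 0 < S.card)
    exact Finset.prod_eq_zero hi (by norm_num)
  rw [h3, mul_zero] at h2
  rcases mul_eq_zero.1 h2.symm with h | h
  · exact absurd h (by positivity)
  · exact hne h

/-- few variables meet all the sets of maximal size in the spectrum -/
lemma exists_hitting {f : (ι → Bool) → Bool} {k : ℕ} (hf : LowDeg k (rv f)) (hk : 0 < k) :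
    ∃ H : Finset ι, H.card ≤ k ^ 3 ∧
      ∀ S : Finset ι, fc (rv f) S ≠ 0 → S.card = k → ¬ Disjoint S H := by
  classical
  let 𝓖 : Finset (Finset (Finset ι)) := Finset.univ.filter fun 𝓕 =>
    (∀ S ∈ 𝓕, fc (rv f) S ≠ 0 ∧ S.card = k) ∧ ∀ S ∈ 𝓕, ∀ T ∈ 𝓕, S ≠ T → Disjoint S T
  obtain ⟨𝓕, h𝓕, hmax⟩ := Finset.exists_max_image 𝓖 Finset.card ⟨∅, by simp [𝓖]⟩
  simp only [𝓖, Finset.mem_filter, Finset.mem_univ, true_and] at h𝓕 hmax
  obtain ⟨h1, h2⟩ := h𝓕
  have h3 : 𝓕.card ≤ k ^ 2 := by
    have h4 : ∀ S : 𝓕, ∃ A ⊆ (S : Finset ι),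
        f (flipSet (fun _ => false) A) ≠ f (fun _ => false) := fun S =>
      exists_block hf (h1 S S.2).2 hk (h1 S S.2).1
    choose A hA1 hA2 using h4
    have h5 := card_blocks_le f hf (fun _ => false) A (fun S T hST =>
      (h2 S S.2 T T.2 fun h => hST (Subtype.ext h)).mono (hA1 S) (hA1 T)) hA2
    rwa [Fintype.card_coe] at h5
  refine ⟨𝓕.biUnion id, ?_, fun S hS hSk hd => ?_⟩
  · calc (𝓕.biUnion id).card ≤ ∑ S ∈ 𝓕, S.card := Finset.card_biUnion_le
      _ = ∑ _S ∈ 𝓕, k := Finset.sum_congr rfl fun S hS => (h1 S hS).2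
      _ = 𝓕.card * k := by rw [Finset.sum_const, smul_eq_mul]
      _ ≤ k ^ 2 * k := Nat.mul_le_mul_right _ h3
      _ = k ^ 3 := by ring
  · have hd' : ∀ T ∈ 𝓕, Disjoint S T := fun T hT =>
      hd.mono_right (Finset.subset_biUnion_of_mem id hT)
    have hS' : S ∉ 𝓕 := by
      intro h
      have h4 := hd' S h
      rw [disjoint_self] at h4
      rw [Finset.bot_eq_empty] at h4
      rw [h4, Finset.card_empty] at hSk
      omega
    have h5 := hmax (insert S 𝓕) ⟨by
      intro T hT
      rcases Finset.mem_insert.1 hT with rfl | hT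
      · exact ⟨hS, hSk⟩
      · exact h1 T hT, by
      intro T hT U hU hTU
      rcases Finset.mem_insert.1 hT with hT1 | hT1
      · rcases Finset.mem_insert.1 hU with hU1 | hU1
        · exact absurd (hT1.trans hU1.symm) hTU
        · rw [hT1]
          exact hd' U hU1
      · rcases Finset.mem_insert.1 hU with hU1 | hU1
        · rw [hU1]
          exact (hd' T hT1).symm
        · exact h2 T hT1 U hU1 hTU⟩
    rw [Finset.card_insert_of_notMem hS'] at h5
    omega

/-- query the variables in a list first -/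
lemma exists_query {d : ℕ} (f : (ι → Bool) → Bool) (H : List ι) :
    ∀ P : (ι → Bool) → Prop, (∀ a : ι → Bool, ∃ T : Tr ι, T.depth ≤ d ∧
      ∀ x, P x → (∀ i ∈ H, x i = a i) → T.eval x = f x) →
    ∃ T : Tr ι, T.depth ≤ H.length + d ∧ ∀ x, P x → T.eval x = f x := by
  induction H with
  | nil =>
    intro P h
    obtain ⟨T, hT1, hT2⟩ := h fun _ => false
    exact ⟨T, by simpa using hT1, fun x hx => hT2 x hx (by simp)⟩
  | cons i H ih =>
    intro P h
    have h1 : ∀ b : Bool, ∃ T : Tr ι, T.depth ≤ H.length + d ∧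
        ∀ x, (P x ∧ x i = b) → T.eval x = f x := by
      intro b
      refine ih (fun x => P x ∧ x i = b) fun a => ?_
      obtain ⟨T, hT1, hT2⟩ := h (Function.update a i b)
      refine ⟨T, hT1, fun x hx ha => hT2 x hx.1 fun j hj => ?_⟩
      by_cases hji : j = i
      · subst hji
        rw [Function.update_self]
        exact hx.2
      · rw [Function.update_of_ne hji]
        rcases List.mem_cons.1 hj with h2 | h2
        · exact absurd h2 hji
        · exact ha j h2
    obtain ⟨T₀, h₀, h₀'⟩ := h1 false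
    obtain ⟨T₁, h₁, h₁'⟩ := h1 true
    refine ⟨.node i T₀ T₁, ?_, fun x hx => ?_⟩
    · show max T₀.depth T₁.depth + 1 ≤ (i :: H).length + d
      rw [List.length_cons]
      omega
    · show (if x i then T₁.eval x else T₀.eval x) = f x
      by_cases hi : x i = true
      · rw [if_pos hi]
        exact h₁' x ⟨hx, hi⟩
      · rw [if_neg hi]
        exact h₀' x ⟨hx, by simpa using hi⟩

/-- A Boolean function of degree at most `k` is computed by a decision tree of depth at most
`k ^ 4`. -/
theorem exists_tree (k : ℕ) : ∀ f : (ι → Bool) → Bool, LowDeg k (rv f) →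
    ∃ T : Tr ι, T.depth ≤ k ^ 4 ∧ ∀ x, T.eval x = f x := by
  induction k with
  | zero =>
    intro f hf
    refine ⟨.leaf (f fun _ => false), le_refl _, fun x => ?_⟩
    have h1 : ∀ y, rv f y = fc (rv f) ∅ := by
      intro y
      rw [← walsh (rv f) y, Finset.sum_eq_single ∅]
      · rw [chi_empty, mul_one]
      · intro S _ hS
        rw [hf S (Finset.card_pos.2 (Finset.nonempty_iff_ne_empty.2 hS)), zero_mul]
      · intro h
        exact absurd (Finset.mem_univ _) h
    have h2 : rv f x = rv f fun _ => false := by rw [h1, h1]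
    show f (fun _ => false) = f x
    unfold rv at h2
    by_cases h3 : f x = true
    · by_cases h4 : f (fun _ => false) = true
      · rw [h3, h4]
      · rw [if_pos h3, if_neg h4] at h2
        norm_num at h2
    · by_cases h4 : f (fun _ => false) = true
      · rw [if_neg h3, if_pos h4] at h2
        norm_num at h2
      · rw [Bool.not_eq_true] at h3 h4
        rw [h3, h4]
  | succ k ih =>
    intro f hf
    obtain ⟨H, hH1, hH2⟩ := exists_hitting hf (Nat.succ_pos k)
    obtain ⟨T, hT1, hT2⟩ := exists_query (d := k ^ 4) f H.toList (fun _ => True) (by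
      intro a
      obtain ⟨T, hT1, hT2⟩ := ih (restr H a f) (lowDeg_restr hf (fun S hS hSk => by
        by_cases hc : S.card = k + 1
        · have hd := hH2 S hS hc
          have h3 : (S \ H).card < S.card := by
            refine Finset.card_lt_card (Finset.ssubset_iff_subset_ne.2
              ⟨Finset.sdiff_subset, fun h => hd ?_⟩)
            exact Finset.sdiff_eq_self_iff_disjoint.1 h
          omega
        · exact (Finset.card_le_card Finset.sdiff_subset).trans (by omega)) a)
      refine ⟨T, hT1, fun x _ hx => ?_⟩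
      rw [hT2]
      unfold restr
      congr 1
      funext i
      by_cases hi : i ∈ H
      · rw [if_pos hi, hx i (Finset.mem_toList.2 hi)]
      · rw [if_neg hi])
    refine ⟨T, hT1.trans ?_, fun x => hT2 x trivial⟩
    rw [Finset.length_toList]
    have h1 : (k + 1) ^ 3 + k ^ 4 ≤ (k + 1) ^ 4 := by
      have h2 : (k + 1) ^ 4 = (k + 1) ^ 3 + k * (k + 1) ^ 3 := by ring
      have h3 : k ^ 4 ≤ k * (k + 1) ^ 3 := by
        have h4 : k ^ 4 = k * k ^ 3 := by ring
        rw [h4]
        exact Nat.mul_le_mul_left _ (Nat.pow_le_pow_left (Nat.le_succ k) 3)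
      omega
    omega

end AcFrege
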