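import Pool.Agent.Work.MP_c07f0d_lc.AC.LevDef

/-!
# Subformulas, and the depth of a formula above small subformulas
-/

set_option linter.unusedSectionVars false

namespace AcFrege

open FregeEF

section subformulas

variable {α : Type} [DecidableEq α]

/-- The subformulas of a formula. -/
def subf : Fm α → Finset (Fm α)
  | .var x => {.var x}
  | .bot => {.bot}
  | .neg φ => insert (.neg φ) (subf φ)
  | .and φ ψ => insert (.and φ ψ) (subf φ ∪ subf ψ)
  | .or φ ψ => insert (.or φ ψ) (subf φ ∪ subf ψ)
  | .imp φ ψ => insert (.imp φ ψ) (subf φ ∪ subf ψ)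

theorem self_mem_subf (φ : Fm α) : φ ∈ subf φ := by
  cases φ <;> simp [subf]

theorem mem_subf_neg {χ φ : Fm α} (h : χ ∈ subf φ) : χ ∈ subf (.neg φ) :=
  Finset.mem_insert_of_mem h

theorem mem_subf_and_left {χ φ ψ : Fm α} (h : χ ∈ subf φ) : χ ∈ subf (.and φ ψ) :=
  Finset.mem_insert_of_mem (Finset.mem_union_left _ h)

theorem mem_subf_and_right {χ φ ψ : Fm α} (h : χ ∈ subf ψ) : χ ∈ subf (.and φ ψ) :=
  Finset.mem_insert_of_mem (Finset.mem_union_right _ h)

theorem mem_subf_or_left {χ φ ψ : Fm α} (h : χ ∈ subf φ) : χ ∈ subf (.or φ ψ) :=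
  Finset.mem_insert_of_mem (Finset.mem_union_left _ h)

theorem mem_subf_or_right {χ φ ψ : Fm α} (h : χ ∈ subf ψ) : χ ∈ subf (.or φ ψ) :=
  Finset.mem_insert_of_mem (Finset.mem_union_right _ h)

theorem mem_subf_imp_left {χ φ ψ : Fm α} (h : χ ∈ subf φ) : χ ∈ subf (.imp φ ψ) :=
  Finset.mem_insert_of_mem (Finset.mem_union_left _ h)

theorem mem_subf_imp_right {χ φ ψ : Fm α} (h : χ ∈ subf ψ) : χ ∈ subf (.imp φ ψ) :=
  Finset.mem_insert_of_mem (Finset.mem_union_right _ h)

theorem card_subf_le (φ : Fm α) : (subf φ).card ≤ φ.size := by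
  induction φ with
  | var x => simp [subf, Fm.size]
  | bot => simp [subf, Fm.size]
  | neg φ ih =>
    simp only [subf, Fm.size]
    exact (Finset.card_insert_le _ _).trans (by omega)
  | and φ ψ ih1 ih2 =>
    simp only [subf, Fm.size]
    have := Finset.card_union_le (subf φ) (subf ψ)
    exact (Finset.card_insert_le _ _).trans (by omega)
  | or φ ψ ih1 ih2 =>
    simp only [subf, Fm.size]
    have := Finset.card_union_le (subf φ) (subf ψ)
    exact (Finset.card_insert_le _ _).trans (by omega)
  | imp φ ψ ih1 ih2 =>
    simp only [subf, Fm.size]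
    have := Finset.card_union_le (subf φ) (subf ψ)
    exact (Finset.card_insert_le _ _).trans (by omega)

theorem subf_trans {φ χ : Fm α} (h : χ ∈ subf φ) : subf χ ⊆ subf φ := by
  induction φ with
  | var x =>
    simp only [subf, Finset.mem_singleton] at h
    rw [h]
  | bot =>
    simp only [subf, Finset.mem_singleton] at h
    rw [h]
  | neg φ ih =>
    rcases Finset.mem_insert.mp h with rfl | h
    · exact subset_rfl
    · exact fun x hx => mem_subf_neg (ih h hx)
  | and φ ψ ih1 ih2 =>
    rcases Finset.mem_insert.mp h with rfl | h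
    · exact subset_rfl
    · rcases Finset.mem_union.mp h with h | h
      · exact fun x hx => mem_subf_and_left (ih1 h hx)
      · exact fun x hx => mem_subf_and_right (ih2 h hx)
  | or φ ψ ih1 ih2 =>
    rcases Finset.mem_insert.mp h with rfl | h
    · exact subset_rfl
    · rcases Finset.mem_union.mp h with h | h
      · exact fun x hx => mem_subf_or_left (ih1 h hx)
      · exact fun x hx => mem_subf_or_right (ih2 h hx)
  | imp φ ψ ih1 ih2 =>
    rcases Finset.mem_insert.mp h with rfl | h
    · exact subset_rfl
    · rcases Finset.mem_union.mp h with h | h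
      · exact fun x hx => mem_subf_imp_left (ih1 h hx)
      · exact fun x hx => mem_subf_imp_right (ih2 h hx)

theorem size_le_of_mem_subf {φ χ : Fm α} (h : χ ∈ subf φ) : χ.size ≤ φ.size := by
  induction φ with
  | var x =>
    simp only [subf, Finset.mem_singleton] at h
    rw [h]
  | bot =>
    simp only [subf, Finset.mem_singleton] at h
    rw [h]
  | neg φ ih =>
    rcases Finset.mem_insert.mp h with rfl | h
    · exact le_rfl
    · simp only [Fm.size]
      have := ih h
      omega
  | and φ ψ ih1 ih2 =>
    rcases Finset.mem_insert.mp h with rfl | h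
    · exact le_rfl
    · simp only [Fm.size]
      rcases Finset.mem_union.mp h with h | h
      · have := ih1 h
        omega
      · have := ih2 h
        omega
  | or φ ψ ih1 ih2 =>
    rcases Finset.mem_insert.mp h with rfl | h
    · exact le_rfl
    · simp only [Fm.size]
      rcases Finset.mem_union.mp h with h | h
      · have := ih1 h
        omega
      · have := ih2 h
        omega
  | imp φ ψ ih1 ih2 =>
    rcases Finset.mem_insert.mp h with rfl | h
    · exact le_rfl
    · simp only [Fm.size]
      rcases Finset.mem_union.mp h with h | h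
      · have := ih1 h
        omega
      · have := ih2 h
        omega

/-- The subformulas of the formulas of a list. -/
def subfL (L : List (Fm α)) : Finset (Fm α) := L.toFinset.biUnion subf

theorem mem_subfL {L : List (Fm α)} {χ : Fm α} : χ ∈ subfL L ↔ ∃ φ ∈ L, χ ∈ subf φ := by
  simp only [subfL, Finset.mem_biUnion, List.mem_toFinset]

theorem mem_subfL_of_mem {L : List (Fm α)} {φ : Fm α} (h : φ ∈ L) : φ ∈ subfL L :=
  mem_subfL.2 ⟨φ, h, self_mem_subf φ⟩

theorem subf_subset_subfL {L : List (Fm α)} {φ : Fm α} (h : φ ∈ subfL L) : subf φ ⊆ subfL L := by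
  obtain ⟨ψ, hψ, h⟩ := mem_subfL.1 h
  exact fun χ hχ => mem_subfL.2 ⟨ψ, hψ, subf_trans h hχ⟩

theorem card_subfL_le (L : List (Fm α)) : (subfL L).card ≤ lsize L := by
  induction L with
  | nil => simp [subfL, lsize]
  | cons φ L ih =>
    have h1 : subfL (φ :: L) ⊆ subf φ ∪ subfL L := by
      intro χ hχ
      obtain ⟨ψ, hψ, h⟩ := mem_subfL.1 hχ
      rcases List.mem_cons.1 hψ with rfl | hψ
      · exact Finset.mem_union_left _ h
      · exact Finset.mem_union_right _ (mem_subfL.2 ⟨ψ, hψ, h⟩)
    have h2 := Finset.card_union_le (subf φ) (subfL L)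
    have h3 := card_subf_le φ
    have h4 : lsize (φ :: L) = φ.size + lsize L := by
      simp [lsize]
    rw [h4]
    exact (Finset.card_le_card h1).trans (by omega)

theorem subClosed_subfL (L : List (Fm α)) : SubClosed (· ∈ subfL L) where
  neg φ h := subf_subset_subfL h (mem_subf_neg (self_mem_subf φ))
  and φ ψ h := ⟨subf_subset_subfL h (mem_subf_and_left (self_mem_subf φ)),
    subf_subset_subfL h (mem_subf_and_right (self_mem_subf ψ))⟩
  or φ ψ h := ⟨subf_subset_subfL h (mem_subf_or_left (self_mem_subf φ)),
    subf_subset_subfL h (mem_subf_or_right (self_mem_subf ψ))⟩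
  imp φ ψ h := ⟨subf_subset_subfL h (mem_subf_imp_left (self_mem_subf φ)),
    subf_subset_subfL h (mem_subf_imp_right (self_mem_subf ψ))⟩

end subformulas

section depth

variable {α : Type} {s : ℕ}

theorem size_pos (φ : Fm α) : 1 ≤ φ.size := by
  cases φ <;> simp [Fm.size]

theorem depth_of_size_le {φ : Fm α} (h : φ.size ≤ s) : depth s φ = 0 := by
  cases φ <;> simp [depth, h]

theorem kind_of_size_le {φ : Fm α} (h : φ.size ≤ s) : kind s φ = .small := by
  cases φ <;> simp [kind, h]

theorem size_lt_of_kind_ne {φ : Fm α} (h : kind s φ ≠ .small) : s < φ.size := by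
  by_contra h1
  exact h (kind_of_size_le (by omega))

/-- For a threshold of at least one symbol the small formulas are the formulas with at most `s`
symbols. -/
theorem kind_eq_small_iff (hs : 1 ≤ s) {φ : Fm α} : kind s φ = .small ↔ φ.size ≤ s := by
  refine ⟨fun h => ?_, kind_of_size_le⟩
  by_contra h1
  cases φ with
  | var x => exact h1 (by simp only [Fm.size]; exact hs)
  | bot => exact h1 (by simp only [Fm.size]; exact hs)
  | neg a => simp [kind, h1] at h
  | and a b => simp [kind, h1] at h
  | or a b => simp [kind, h1] at h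
  | imp a b => simp [kind, h1] at h

theorem kind_neg {a : Fm α} (h : s < (Fm.neg a).size) : kind s (.neg a) = .neg := by
  rw [kind, if_neg (by omega)]

theorem kind_and {a b : Fm α} (h : s < (Fm.and a b).size) : kind s (.and a b) = .and := by
  rw [kind, if_neg (by omega)]

theorem kind_or {a b : Fm α} (h : s < (Fm.or a b).size) : kind s (.or a b) = .or := by
  rw [kind, if_neg (by omega)]

theorem kind_imp {a b : Fm α} (h : s < (Fm.imp a b).size) : kind s (.imp a b) = .imp := by
  rw [kind, if_neg (by omega)]

theorem exists_or_of_kind {φ : Fm α} (h : kind s φ = .or) :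
    ∃ a b, φ = .or a b ∧ s < (Fm.or a b).size := by
  cases φ with
  | or a b => exact ⟨a, b, rfl, size_lt_of_kind_ne (by rw [h]; exact Kind.noConfusion)⟩
  | var x => exact Kind.noConfusion h
  | bot => exact Kind.noConfusion h
  | neg a =>
    simp only [kind] at h
    split_ifs at h
  | and a b =>
    simp only [kind] at h
    split_ifs at h
  | imp a b =>
    simp only [kind] at h
    split_ifs at h

theorem exists_and_of_kind {φ : Fm α} (h : kind s φ = .and) :
    ∃ a b, φ = .and a b ∧ s < (Fm.and a b).size := by
  cases φ with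
  | and a b => exact ⟨a, b, rfl, size_lt_of_kind_ne (by rw [h]; exact Kind.noConfusion)⟩
  | var x => exact Kind.noConfusion h
  | bot => exact Kind.noConfusion h
  | neg a =>
    simp only [kind] at h
    split_ifs at h
  | or a b =>
    simp only [kind] at h
    split_ifs at h
  | imp a b =>
    simp only [kind] at h
    split_ifs at h

theorem exists_neg_of_kind {φ : Fm α} (h : kind s φ = .neg) :
    ∃ a, φ = .neg a ∧ s < (Fm.neg a).size := by
  cases φ with
  | neg a => exact ⟨a, rfl, size_lt_of_kind_ne (by rw [h]; exact Kind.noConfusion)⟩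
  | var x => exact Kind.noConfusion h
  | bot => exact Kind.noConfusion h
  | and a b =>
    simp only [kind] at h
    split_ifs at h
  | or a b =>
    simp only [kind] at h
    split_ifs at h
  | imp a b =>
    simp only [kind] at h
    split_ifs at h

theorem exists_imp_of_kind {φ : Fm α} (h : kind s φ = .imp) :
    ∃ a b, φ = .imp a b ∧ s < (Fm.imp a b).size := by
  cases φ with
  | imp a b => exact ⟨a, b, rfl, size_lt_of_kind_ne (by rw [h]; exact Kind.noConfusion)⟩
  | var x => exact Kind.noConfusion h
  | bot => exact Kind.noConfusion h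
  | neg a =>
    simp only [kind] at h
    split_ifs at h
  | or a b =>
    simp only [kind] at h
    split_ifs at h
  | and a b =>
    simp only [kind] at h
    split_ifs at h

theorem depth_neg_of_lt {a : Fm α} (h : s < (Fm.neg a).size) :
    depth s (.neg a) = depth s a := by
  rw [depth, if_neg (by omega)]

theorem depth_and_of_lt {a b : Fm α} (h : s < (Fm.and a b).size) :
    depth s (.and a b) = max (if kind s a = .and then depth s a else depth s a + 1)
      (if kind s b = .and then depth s b else depth s b + 1) := by
  rw [depth, if_neg (by omega)]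

theorem depth_or_of_lt {a b : Fm α} (h : s < (Fm.or a b).size) :
    depth s (.or a b) =
      max (if kind s a = .or ∨ kind s a = .imp then depth s a else depth s a + 1)
        (if kind s b = .or ∨ kind s b = .imp then depth s b else depth s b + 1) := by
  rw [depth, if_neg (by omega)]

theorem depth_imp_of_lt {a b : Fm α} (h : s < (Fm.imp a b).size) :
    depth s (.imp a b) = max (depth s a + 1)
      (if kind s b = .or ∨ kind s b = .imp then depth s b else depth s b + 1) := by
  rw [depth, if_neg (by omega)]

/-- Negations do not change the depth, unless they make a small formula large, and then the depth is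
zero as well. -/
theorem depth_neg (a : Fm α) : depth s (.neg a) = depth s a := by
  by_cases h : (Fm.neg a).size ≤ s
  · rw [depth_of_size_le h, depth_of_size_le (by simp only [Fm.size] at h; omega)]
  · exact depth_neg_of_lt (by omega)

theorem depth_le_neg (a : Fm α) : depth s a ≤ depth s (.neg a) := (depth_neg a).ge

theorem depth_le_and_left (a b : Fm α) : depth s a ≤ depth s (.and a b) := by
  by_cases h : (Fm.and a b).size ≤ s
  · rw [depth_of_size_le (φ := a) (by simp only [Fm.size] at h; omega)]
    exact Nat.zero_le _
  · rw [depth_and_of_lt (by omega)]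
    refine le_trans ?_ (le_max_left _ _)
    split_ifs <;> omega

theorem depth_le_and_right (a b : Fm α) : depth s b ≤ depth s (.and a b) := by
  by_cases h : (Fm.and a b).size ≤ s
  · rw [depth_of_size_le (φ := b) (by simp only [Fm.size] at h; omega)]
    exact Nat.zero_le _
  · rw [depth_and_of_lt (by omega)]
    refine le_trans ?_ (le_max_right _ _)
    split_ifs <;> omega

theorem depth_le_or_left (a b : Fm α) : depth s a ≤ depth s (.or a b) := by
  by_cases h : (Fm.or a b).size ≤ s
  · rw [depth_of_size_le (φ := a) (by simp only [Fm.size] at h; omega)]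
    exact Nat.zero_le _
  · rw [depth_or_of_lt (by omega)]
    refine le_trans ?_ (le_max_left _ _)
    split_ifs <;> omega

theorem depth_le_or_right (a b : Fm α) : depth s b ≤ depth s (.or a b) := by
  by_cases h : (Fm.or a b).size ≤ s
  · rw [depth_of_size_le (φ := b) (by simp only [Fm.size] at h; omega)]
    exact Nat.zero_le _
  · rw [depth_or_of_lt (by omega)]
    refine le_trans ?_ (le_max_right _ _)
    split_ifs <;> omega

theorem depth_le_imp_left (a b : Fm α) : depth s a ≤ depth s (.imp a b) := by
  by_cases h : (Fm.imp a b).size ≤ s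
  · rw [depth_of_size_le (φ := a) (by simp only [Fm.size] at h; omega)]
    exact Nat.zero_le _
  · rw [depth_imp_of_lt (by omega)]
    refine le_trans ?_ (le_max_left _ _)
    omega

theorem depth_le_imp_right (a b : Fm α) : depth s b ≤ depth s (.imp a b) := by
  by_cases h : (Fm.imp a b).size ≤ s
  · rw [depth_of_size_le (φ := b) (by simp only [Fm.size] at h; omega)]
    exact Nat.zero_le _
  · rw [depth_imp_of_lt (by omega)]
    refine le_trans ?_ (le_max_right _ _)
    split_ifs <;> omega

/-- The depth does not increase when one passes to a subformula. -/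
theorem depth_le_of_mem_subf [DecidableEq α] {φ χ : Fm α} (h : χ ∈ subf φ) :
    depth s χ ≤ depth s φ := by
  induction φ with
  | var x =>
    simp only [subf, Finset.mem_singleton] at h
    rw [h]
  | bot =>
    simp only [subf, Finset.mem_singleton] at h
    rw [h]
  | neg φ ih =>
    rcases Finset.mem_insert.mp h with rfl | h
    · exact le_rfl
    · exact (ih h).trans (depth_le_neg φ)
  | and φ ψ ih1 ih2 =>
    rcases Finset.mem_insert.mp h with rfl | h
    · exact le_rfl
    · rcases Finset.mem_union.mp h with h | h
      · exact (ih1 h).trans (depth_le_and_left φ ψ)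
      · exact (ih2 h).trans (depth_le_and_right φ ψ)
  | or φ ψ ih1 ih2 =>
    rcases Finset.mem_insert.mp h with rfl | h
    · exact le_rfl
    · rcases Finset.mem_union.mp h with h | h
      · exact (ih1 h).trans (depth_le_or_left φ ψ)
      · exact (ih2 h).trans (depth_le_or_right φ ψ)
  | imp φ ψ ih1 ih2 =>
    rcases Finset.mem_insert.mp h with rfl | h
    · exact le_rfl
    · rcases Finset.mem_union.mp h with h | h
      · exact (ih1 h).trans (depth_le_imp_left φ ψ)
      · exact (ih2 h).trans (depth_le_imp_right φ ψ)

theorem subClosed_depth [DecidableEq α] (L : List (Fm α)) (d : ℕ) :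
    SubClosed (fun φ => φ ∈ subfL L ∧ depth s φ ≤ d) where
  neg φ h := ⟨(subClosed_subfL L).neg φ h.1, (depth_le_neg φ).trans h.2⟩
  and φ ψ h := ⟨⟨((subClosed_subfL L).and φ ψ h.1).1, (depth_le_and_left φ ψ).trans h.2⟩,
    ⟨((subClosed_subfL L).and φ ψ h.1).2, (depth_le_and_right φ ψ).trans h.2⟩⟩
  or φ ψ h := ⟨⟨((subClosed_subfL L).or φ ψ h.1).1, (depth_le_or_left φ ψ).trans h.2⟩,
    ⟨((subClosed_subfL L).or φ ψ h.1).2, (depth_le_or_right φ ψ).trans h.2⟩⟩
  imp φ ψ h := ⟨⟨((subClosed_subfL L).imp φ ψ h.1).1, (depth_le_imp_left φ ψ).trans h.2⟩,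
    ⟨((subClosed_subfL L).imp φ ψ h.1).2, (depth_le_imp_right φ ψ).trans h.2⟩⟩

/-- Blocks of conjunctions, disjunctions or implications have positive depth. -/
theorem one_le_depth {φ : Fm α} (h : kind s φ = .and ∨ kind s φ = .or ∨ kind s φ = .imp) :
    1 ≤ depth s φ := by
  induction φ with
  | var x => simp [kind] at h
  | bot => simp [kind] at h
  | neg a _ =>
    simp only [kind] at h
    split_ifs at h <;> simp at h
  | and a b iha _ =>
    have h1 : s < (Fm.and a b).size := size_lt_of_kind_ne (by rcases h with h | h | h <;> simp [h])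
    rw [depth_and_of_lt h1]
    refine le_trans ?_ (le_max_left _ _)
    split_ifs with h2
    · exact iha (Or.inl h2)
    · omega
  | or a b iha _ =>
    have h1 : s < (Fm.or a b).size := size_lt_of_kind_ne (by rcases h with h | h | h <;> simp [h])
    rw [depth_or_of_lt h1]
    refine le_trans ?_ (le_max_left _ _)
    split_ifs with h2
    · exact iha (Or.inr h2)
    · omega
  | imp a b _ _ =>
    have h1 : s < (Fm.imp a b).size := size_lt_of_kind_ne (by rcases h with h | h | h <;> simp [h])
    rw [depth_imp_of_lt h1]
    refine le_trans ?_ (le_max_left _ _)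
    omega

/-- A formula of depth zero is small or a negation. -/
theorem kind_of_depth_eq_zero {φ : Fm α} (h : depth s φ = 0) :
    kind s φ = .small ∨ kind s φ = .neg := by
  have h1 : ¬ (kind s φ = .and ∨ kind s φ = .or ∨ kind s φ = .imp) := by
    intro h1
    have := one_le_depth h1
    omega
  cases h2 : kind s φ with
  | small => exact Or.inl rfl
  | neg => exact Or.inr rfl
  | and => exact absurd (Or.inl h2) h1
  | or => exact absurd (Or.inr (Or.inl h2)) h1
  | imp => exact absurd (Or.inr (Or.inr h2)) h1

end depth

section leaves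

variable {α : Type} {s : ℕ}

theorem orLeaves_or {a b : Fm α} (h : s < (Fm.or a b).size) :
    orLeaves s (.or a b) = orLeaves s a ++ orLeaves s b := by
  rw [orLeaves, if_neg (by omega)]

theorem orLeaves_imp {a b : Fm α} (h : s < (Fm.imp a b).size) :
    orLeaves s (.imp a b) = (false, a) :: orLeaves s b := by
  rw [orLeaves, if_neg (by omega)]

theorem andLeaves_and {a b : Fm α} (h : s < (Fm.and a b).size) :
    andLeaves s (.and a b) = andLeaves s a ++ andLeaves s b := by
  rw [andLeaves, if_neg (by omega)]

theorem orLeaves_of_kind_ne {φ : Fm α} (h : kind s φ ≠ .or) (h' : kind s φ ≠ .imp) :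
    orLeaves s φ = [(true, φ)] := by
  cases φ with
  | or a b =>
    have h1 : (Fm.or a b).size ≤ s := by
      by_contra h1
      exact h (kind_or (by omega))
    rw [orLeaves, if_pos h1]
  | imp a b =>
    have h1 : (Fm.imp a b).size ≤ s := by
      by_contra h1
      exact h' (kind_imp (by omega))
    rw [orLeaves, if_pos h1]
  | _ => rfl

theorem andLeaves_of_kind_ne {φ : Fm α} (h : kind s φ ≠ .and) : andLeaves s φ = [φ] := by
  cases φ with
  | and a b =>
    have h1 : (Fm.and a b).size ≤ s := by
      by_contra h1
      exact h (kind_and (by omega))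
    rw [andLeaves, if_pos h1]
  | _ => rfl

theorem kind_ne_of_mem_orLeaves {φ χ : Fm α} (h : (true, χ) ∈ orLeaves s φ) :
    kind s χ ≠ .or ∧ kind s χ ≠ .imp := by
  induction φ with
  | or a b iha ihb =>
    by_cases h1 : (Fm.or a b).size ≤ s
    · rw [orLeaves, if_pos h1, List.mem_singleton, Prod.mk.injEq] at h
      rw [h.2, kind_of_size_le h1]
      exact ⟨Kind.noConfusion, Kind.noConfusion⟩
    · rw [orLeaves_or (by omega), List.mem_append] at h
      rcases h with h | h
      · exact iha h
      · exact ihb h
  | imp a b iha ihb =>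
    by_cases h1 : (Fm.imp a b).size ≤ s
    · rw [orLeaves, if_pos h1, List.mem_singleton, Prod.mk.injEq] at h
      rw [h.2, kind_of_size_le h1]
      exact ⟨Kind.noConfusion, Kind.noConfusion⟩
    · rw [orLeaves_imp (by omega), List.mem_cons, Prod.mk.injEq] at h
      rcases h with h | h
      · exact absurd h.1 Bool.noConfusion
      · exact ihb h
  | var x =>
    rw [orLeaves, List.mem_singleton, Prod.mk.injEq] at h
    rw [h.2]
    exact ⟨Kind.noConfusion, Kind.noConfusion⟩
  | bot =>
    rw [orLeaves, List.mem_singleton, Prod.mk.injEq] at h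
    rw [h.2]
    exact ⟨Kind.noConfusion, Kind.noConfusion⟩
  | neg a _ =>
    rw [orLeaves, List.mem_singleton, Prod.mk.injEq] at h
    rw [h.2, kind]
    split_ifs <;> exact ⟨Kind.noConfusion, Kind.noConfusion⟩
  | and a b _ _ =>
    rw [orLeaves, List.mem_singleton, Prod.mk.injEq] at h
    rw [h.2, kind]
    split_ifs <;> exact ⟨Kind.noConfusion, Kind.noConfusion⟩

theorem kind_ne_of_mem_andLeaves {φ χ : Fm α} (h : χ ∈ andLeaves s φ) : kind s χ ≠ .and := by
  induction φ with
  | and a b iha ihb =>
    by_cases h1 : (Fm.and a b).size ≤ s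
    · rw [andLeaves, if_pos h1, List.mem_singleton] at h
      rw [h, kind_of_size_le h1]
      exact Kind.noConfusion
    · rw [andLeaves_and (by omega), List.mem_append] at h
      rcases h with h | h
      · exact iha h
      · exact ihb h
  | var x =>
    rw [andLeaves, List.mem_singleton] at h
    rw [h]
    exact Kind.noConfusion
  | bot =>
    rw [andLeaves, List.mem_singleton] at h
    rw [h]
    exact Kind.noConfusion
  | neg a _ =>
    rw [andLeaves, List.mem_singleton] at h
    rw [h, kind]
    split_ifs <;> exact Kind.noConfusion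
  | or a b _ _ =>
    rw [andLeaves, List.mem_singleton] at h
    rw [h, kind]
    split_ifs <;> exact Kind.noConfusion
  | imp a b _ _ =>
    rw [andLeaves, List.mem_singleton] at h
    rw [h, kind]
    split_ifs <;> exact Kind.noConfusion

theorem mem_subf_of_mem_orLeaves [DecidableEq α] {φ χ : Fm α} {t : Bool}
    (h : (t, χ) ∈ orLeaves s φ) : χ ∈ subf φ := by
  induction φ with
  | or a b iha ihb =>
    by_cases h1 : (Fm.or a b).size ≤ s
    · rw [orLeaves, if_pos h1, List.mem_singleton, Prod.mk.injEq] at h
      rw [h.2]
      exact self_mem_subf _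
    · rw [orLeaves_or (by omega), List.mem_append] at h
      rcases h with h | h
      · exact mem_subf_or_left (iha h)
      · exact mem_subf_or_right (ihb h)
  | imp a b iha ihb =>
    by_cases h1 : (Fm.imp a b).size ≤ s
    · rw [orLeaves, if_pos h1, List.mem_singleton, Prod.mk.injEq] at h
      rw [h.2]
      exact self_mem_subf _
    · rw [orLeaves_imp (by omega), List.mem_cons, Prod.mk.injEq] at h
      rcases h with h | h
      · rw [h.2]
        exact mem_subf_imp_left (self_mem_subf _)
      · exact mem_subf_imp_right (ihb h)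
  | var x =>
    rw [orLeaves, List.mem_singleton, Prod.mk.injEq] at h
    rw [h.2]
    exact self_mem_subf _
  | bot =>
    rw [orLeaves, List.mem_singleton, Prod.mk.injEq] at h
    rw [h.2]
    exact self_mem_subf _
  | neg a _ =>
    rw [orLeaves, List.mem_singleton, Prod.mk.injEq] at h
    rw [h.2]
    exact self_mem_subf _
  | and a b _ _ =>
    rw [orLeaves, List.mem_singleton, Prod.mk.injEq] at h
    rw [h.2]
    exact self_mem_subf _

theorem mem_subf_of_mem_andLeaves [DecidableEq α] {φ χ : Fm α} (h : χ ∈ andLeaves s φ) :
    χ ∈ subf φ := by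
  induction φ with
  | and a b iha ihb =>
    by_cases h1 : (Fm.and a b).size ≤ s
    · rw [andLeaves, if_pos h1, List.mem_singleton] at h
      rw [h]
      exact self_mem_subf _
    · rw [andLeaves_and (by omega), List.mem_append] at h
      rcases h with h | h
      · exact mem_subf_and_left (iha h)
      · exact mem_subf_and_right (ihb h)
  | var x =>
    rw [andLeaves, List.mem_singleton] at h
    rw [h]
    exact self_mem_subf _
  | bot =>
    rw [andLeaves, List.mem_singleton] at h
    rw [h]
    exact self_mem_subf _
  | neg a _ =>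
    rw [andLeaves, List.mem_singleton] at h
    rw [h]
    exact self_mem_subf _
  | or a b _ _ =>
    rw [andLeaves, List.mem_singleton] at h
    rw [h]
    exact self_mem_subf _
  | imp a b _ _ =>
    rw [andLeaves, List.mem_singleton] at h
    rw [h]
    exact self_mem_subf _

/-- The leaves of the block of disjunctions and implications at the root have smaller depth. -/
theorem depth_lt_of_mem_orLeaves {φ χ : Fm α} {t : Bool} (h : kind s φ = .or ∨ kind s φ = .imp)
    (hχ : (t, χ) ∈ orLeaves s φ) : depth s χ + 1 ≤ depth s φ := by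
  induction φ with
  | or a b iha ihb =>
    have h1 : s < (Fm.or a b).size := size_lt_of_kind_ne (by rcases h with h | h <;> simp [h])
    rw [orLeaves_or h1, List.mem_append] at hχ
    rw [depth_or_of_lt h1]
    rcases hχ with hχ | hχ
    · refine le_trans ?_ (le_max_left _ _)
      split_ifs with h2
      · exact iha h2 hχ
      · rw [not_or] at h2
        rw [orLeaves_of_kind_ne h2.1 h2.2, List.mem_singleton, Prod.mk.injEq] at hχ
        rw [hχ.2]
    · refine le_trans ?_ (le_max_right _ _)
      split_ifs with h2
      · exact ihb h2 hχ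
      · rw [not_or] at h2
        rw [orLeaves_of_kind_ne h2.1 h2.2, List.mem_singleton, Prod.mk.injEq] at hχ
        rw [hχ.2]
  | imp a b iha ihb =>
    have h1 : s < (Fm.imp a b).size := size_lt_of_kind_ne (by rcases h with h | h <;> simp [h])
    rw [orLeaves_imp h1, List.mem_cons, Prod.mk.injEq] at hχ
    rw [depth_imp_of_lt h1]
    rcases hχ with hχ | hχ
    · refine le_trans ?_ (le_max_left _ _)
      rw [hχ.2]
    · refine le_trans ?_ (le_max_right _ _)
      split_ifs with h2
      · exact ihb h2 hχ
      · rw [not_or] at h2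
        rw [orLeaves_of_kind_ne h2.1 h2.2, List.mem_singleton, Prod.mk.injEq] at hχ
        rw [hχ.2]
  | var x => simp [kind] at h
  | bot => simp [kind] at h
  | neg a _ =>
    simp only [kind] at h
    split_ifs at h <;> simp at h
  | and a b _ _ =>
    simp only [kind] at h
    split_ifs at h <;> simp at h

/-- The leaves of the block of conjunctions at the root have smaller depth. -/
theorem depth_lt_of_mem_andLeaves {φ χ : Fm α} (h : kind s φ = .and) (hχ : χ ∈ andLeaves s φ) :
    depth s χ + 1 ≤ depth s φ := by
  induction φ with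
  | and a b iha ihb =>
    have h1 : s < (Fm.and a b).size := size_lt_of_kind_ne (by rw [h]; exact Kind.noConfusion)
    rw [andLeaves_and h1, List.mem_append] at hχ
    rw [depth_and_of_lt h1]
    rcases hχ with hχ | hχ
    · refine le_trans ?_ (le_max_left _ _)
      split_ifs with h2
      · exact iha h2 hχ
      · rw [andLeaves_of_kind_ne h2, List.mem_singleton] at hχ
        rw [hχ]
    · refine le_trans ?_ (le_max_right _ _)
      split_ifs with h2
      · exact ihb h2 hχ
      · rw [andLeaves_of_kind_ne h2, List.mem_singleton] at hχ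
        rw [hχ]
  | _ =>
    obtain ⟨a, b, h1, -⟩ := exists_and_of_kind h
    cases h1

/-- A block of disjunctions and implications is true exactly when one of its leaves has the value
given by its sign. -/
theorem eval_orLeaves {φ : Fm α} (v : α → Prop) :
    φ.eval v ↔ ∃ x ∈ orLeaves s φ, (x.2.eval v ↔ x.1 = true) := by
  induction φ with
  | or a b iha ihb =>
    by_cases h1 : (Fm.or a b).size ≤ s
    · rw [orLeaves, if_pos h1]
      simp
    · rw [orLeaves_or (by omega)]
      simp only [Fm.eval, iha, ihb, List.mem_append]
      constructor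
      · rintro (⟨x, h, h2⟩ | ⟨x, h, h2⟩)
        · exact ⟨x, Or.inl h, h2⟩
        · exact ⟨x, Or.inr h, h2⟩
      · rintro ⟨x, h | h, h2⟩
        · exact Or.inl ⟨x, h, h2⟩
        · exact Or.inr ⟨x, h, h2⟩
  | imp a b iha ihb =>
    by_cases h1 : (Fm.imp a b).size ≤ s
    · rw [orLeaves, if_pos h1]
      simp
    · rw [orLeaves_imp (by omega)]
      simp only [List.mem_cons]
      constructor
      · intro h
        by_cases h2 : a.eval v
        · obtain ⟨x, h3, h4⟩ := ihb.1 (h h2)
          exact ⟨x, Or.inr h3, h4⟩
        · exact ⟨(false, a), Or.inl rfl, by simp [h2]⟩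
      · rintro ⟨x, rfl | h, h2⟩ h3
        · simp [h3] at h2
        · exact ihb.2 ⟨x, h, h2⟩
  | _ => simp [orLeaves]

/-- A conjunction block is true exactly when all its leaves are true. -/
theorem eval_andLeaves {φ : Fm α} (v : α → Prop) : φ.eval v ↔ ∀ χ ∈ andLeaves s φ, χ.eval v := by
  induction φ with
  | and a b iha ihb =>
    by_cases h1 : (Fm.and a b).size ≤ s
    · rw [andLeaves, if_pos h1]
      simp
    · rw [andLeaves_and (by omega)]
      simp only [Fm.eval, iha, ihb, List.mem_append]
      constructor
      · rintro ⟨h2, h3⟩ χ (h | h)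
        · exact h2 χ h
        · exact h3 χ h
      · exact fun h => ⟨fun χ hχ => h χ (Or.inl hχ), fun χ hχ => h χ (Or.inr hχ)⟩
  | _ => simp [andLeaves]

end leaves

end AcFrege
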