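import Pool.Agent.Work.MP_c07f0d_lc.AC.LevDef
import Pool.Agent.Work.MP_c07f0d_lc.AC.ConsDef
import Pool.Agent.Work.MP_c07f0d_lc.AC.DegTree
import Pool.Agent.Work.MP_c07f0d_lc.AC.Subf

/-!
# The base level: small formulas evaluated on matchings

A small formula has the value `t` at a matching `μ` if it is equal to `t` at all points that agree
with the values prescribed by `μ` on the variables whose owner is matched in `μ`.
-/

set_option linter.unusedSectionVars false

namespace AcFrege

open FregeEF

namespace BL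

/-! ### Adding one edge to a matching -/

section pair

variable {V : Type} [DecidableEq V]

/-- The matching with the single edge `v w` (empty if `v = w`). -/
def Mt.pair (v w : V) : Mt V where
  f := Equiv.swap v w
  inv x := by simp

theorem Mt.pair_apply (v w x : V) : (Mt.pair v w) x = if x = v then w else if x = w then v else x :=
  Equiv.swap_apply_def v w x

theorem Mt.pair_le {ν : Mt V} (v : V) : Mt.pair v (ν v) ≤ ν := by
  intro x hx
  rw [Mt.pair_apply] at hx ⊢
  by_cases h1 : x = v
  · rw [if_pos h1, h1]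
  · rw [if_neg h1] at hx ⊢
    by_cases h2 : x = ν v
    · rw [if_pos h2, h2, ν.invol]
    · rw [if_neg h2] at hx
      exact absurd rfl hx

theorem compat_pair {ν : Mt V} {v w : V} (hv : ν v = v) (hw : ν w = w) :
    Compat ν (Mt.pair v w) := by
  intro x hx hp
  rw [Mt.pair_apply] at hp
  by_cases h1 : x = v
  · rw [h1] at hx; exact absurd hv hx
  · rw [if_neg h1] at hp
    by_cases h2 : x = w
    · rw [h2] at hx; exact absurd hw hx
    · rw [if_neg h2] at hp
      exact absurd rfl hp

variable [Fintype V]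

theorem cost_self (ρ : Mt V) : cost ρ ρ = 0 := by
  have := cost_add_free (le_refl ρ)
  omega

theorem cost_trans {ρ μ ν : Mt V} (h1 : ρ ≤ μ) (h2 : μ ≤ ν) :
    cost ρ ν = cost ρ μ + cost μ ν := by
  have e1 := cost_add_free h1
  have e2 := cost_add_free h2
  have e3 := cost_add_free (h1.trans h2)
  omega

/-- Any vertex can be covered at the cost of two free vertices. -/
theorem exists_cover (ν : Mt V) (v : V) (h : 2 ≤ (free ν).card) :
    ∃ ν', ν ≤ ν' ∧ ν' v ≠ v ∧ (free ν).card ≤ (free ν').card + 2 := by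
  by_cases hv : ν v = v
  · obtain ⟨w, hw, hwv⟩ := Finset.exists_mem_ne (by omega : 1 < (free ν).card) v
    rw [mem_free] at hw
    have hc := compat_pair hv hw
    refine ⟨ν.join _ hc, ν.le_join_left _ hc, ?_, ?_⟩
    · rw [Mt.join_apply, if_pos hv, Mt.pair_apply, if_pos rfl]
      exact hwv
    · rw [free_join]
      have h1 : free ν ⊆ (free ν ∩ free (Mt.pair v w)) ∪ {v, w} := by
        intro x hx
        rw [Finset.mem_union, Finset.mem_inter, mem_free (μ := Mt.pair v w), Mt.pair_apply]
        by_cases h1 : x = v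
        · right; simp [h1]
        · by_cases h2 : x = w
          · right; simp [h2]
          · left
            rw [if_neg h1, if_neg h2]
            exact ⟨hx, rfl⟩
      refine (Finset.card_le_card h1).trans ((Finset.card_union_le _ _).trans ?_)
      exact Nat.add_le_add_left Finset.card_le_two _
  · exact ⟨ν, le_refl _, hv, by omega⟩

/-- A small extension of `ρ` in which `v` has the partner it has in `ν`. -/
theorem exists_copy {ρ ν : Mt V} (h : ρ ≤ ν) (v : V) :
    ∃ μ, ρ ≤ μ ∧ μ ≤ ν ∧ μ v = ν v ∧ cost ρ μ ≤ 2 := by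
  have hc : Compat ρ (Mt.pair v (ν v)) := Compat.of_le h (Mt.pair_le v)
  refine ⟨ρ.join _ hc, ρ.le_join_left _ hc, Mt.join_le hc h (Mt.pair_le v), ?_, ?_⟩
  · rw [Mt.join_apply]
    by_cases h1 : ρ v = v
    · rw [if_pos h1, Mt.pair_apply, if_pos rfl]
    · rw [if_neg h1, h v h1]
  · unfold cost
    refine le_trans (Finset.card_le_card (t := {v, ν v}) ?_) Finset.card_le_two
    intro x hx
    rw [Finset.mem_filter, mem_free, Mt.join_apply] at hx
    rw [if_pos hx.1, Mt.pair_apply] at hx
    by_contra hcon
    rw [Finset.mem_insert, Finset.mem_singleton, not_or] at hcon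
    rw [if_neg hcon.1, if_neg hcon.2] at hx
    exact hx.2 rfl

end pair

/-! ### Points that agree with a matching -/

section cons

variable {E V : Type} {own : E → Option V} {ev : E → (V → V) → Bool}

theorem Cons.anti
    (hev : ∀ e (p p' : V → V), (∀ v, own e = some v → p v = p' v) → ev e p = ev e p')
    {μ ν : Mt V} (h : μ ≤ ν) {y : E → Bool} (hy : Cons own ev ν y) : Cons own ev μ y := by
  intro e he
  rw [hy e (fun v hv => by rw [h v (he v hv)]; exact he v hv)]
  exact hev e _ _ (fun v hv => h v (he v hv))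

/-- The point of the matching `μ`. -/
def ptOf (ev : E → (V → V) → Bool) (μ : Mt V) : E → Bool := fun e => ev e μ

theorem cons_ptOf
    (hev : ∀ e (p p' : V → V), (∀ v, own e = some v → p v = p' v) → ev e p = ev e p')
    {μ ν : Mt V} (h : μ ≤ ν) : Cons own ev μ (ptOf ev ν) :=
  Cons.anti hev h (fun _ _ => rfl)

theorem ident_le (μ : Mt V) : ident ≤ μ := fun _ hv => absurd rfl hv

variable [Fintype V] [DecidableEq V]

/-- A decision tree is evaluated along a matching, at the cost of two vertices for every query. -/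
theorem walk
    (hev : ∀ e (p p' : V → V), (∀ v, own e = some v → p v = p' v) → ev e p = ev e p') :
    ∀ (T : Tr E) (ρ ν : Mt V), ρ ≤ ν → 2 * T.depth ≤ (free ν).card →
    ∃ μ t, ρ ≤ μ ∧ cost ρ μ ≤ 2 * T.depth ∧ Compat μ ν ∧ ∀ y, Cons own ev μ y → T.eval y = t
  | .leaf b, ρ, ν, h, _ =>
    ⟨ρ, b, le_refl _, by rw [cost_self]; exact Nat.zero_le _, Compat.of_le h (le_refl _),
      fun _ _ => rfl⟩
  | .node e t₀ t₁, ρ, ν, h, hf => by
    have hd : (Tr.node e t₀ t₁).depth = max t₀.depth t₁.depth + 1 := rfl
    rw [hd] at hf ⊢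
    -- one query: a small extension in which the value of `e` is known
    have key : ∃ (ν' μ₁ : Mt V) (b : Bool), ν ≤ ν' ∧ ρ ≤ μ₁ ∧ μ₁ ≤ ν' ∧
        (free ν).card ≤ (free ν').card + 2 ∧ cost ρ μ₁ ≤ 2 ∧
        ∀ (μ : Mt V) (y : E → Bool), μ₁ ≤ μ → Cons own ev μ y → y e = b := by
      cases ho : own e with
      | none =>
        refine ⟨ν, ρ, ev e ρ, le_refl _, le_refl _, h, by omega, by rw [cost_self]; omega, ?_⟩
        intro μ y _ hy
        rw [hy e (fun v hv => by rw [ho] at hv; exact absurd hv (by simp))]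
        exact hev e _ _ (fun v hv => by rw [ho] at hv; exact absurd hv (by simp))
      | some v =>
        obtain ⟨ν', hν, hv, hfr⟩ := exists_cover ν v (by omega)
        obtain ⟨μ₁, hr, hm, hmv, hcost⟩ := exists_copy (h.trans hν) v
        refine ⟨ν', μ₁, ev e ν', hν, hr, hm, hfr, hcost, ?_⟩
        intro μ y hμ hy
        have hne : μ₁ v ≠ v := by rw [hmv]; exact hv
        have h5 : μ v = ν' v := by rw [hμ v hne, hmv]
        rw [hy e (fun w hw => by
          rw [ho] at hw
          obtain rfl := Option.some.inj hw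
          rw [h5]; exact hv)]
        exact hev e _ _ (fun w hw => by
          rw [ho] at hw
          obtain rfl := Option.some.inj hw
          exact h5)
    obtain ⟨ν', μ₁, b, hν, hr, hm, hfr, hcost, hval⟩ := key
    cases b with
    | false =>
      obtain ⟨μ, t, h1, h2, h3, h4⟩ := walk hev t₀ μ₁ ν' hm (by omega)
      refine ⟨μ, t, hr.trans h1, ?_, h3.mono (le_refl _) hν, fun y hy => ?_⟩
      · rw [cost_trans hr h1]; omega
      · unfold Tr.eval
        rw [hval μ y h1 hy, if_neg (by simp)]
        exact h4 y hy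
    | true =>
      obtain ⟨μ, t, h1, h2, h3, h4⟩ := walk hev t₁ μ₁ ν' hm (by omega)
      refine ⟨μ, t, hr.trans h1, ?_, h3.mono (le_refl _) hν, fun y hy => ?_⟩
      · rw [cost_trans hr h1]; omega
      · unfold Tr.eval
        rw [hval μ y h1 hy, if_pos rfl]
        exact h4 y hy

end cons

/-! ### The leaf sets of the base level -/

section base

variable {α E V : Type} [Fintype V] [DecidableEq V] {own : E → Option V} {ev : E → (V → V) → Bool}

/-- The matchings of cost at most `c` at which the formula `φ` has the value `t`. -/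
def smallA (own : E → Option V) (ev : E → (V → V) → Bool) (Φ : (E → Bool) → α → Prop) (c : ℕ)
    (φ : Fm α) (t : Bool) : Set (Mt V) :=
  {μ | cost ident μ ≤ c ∧ ∀ y, Cons own ev μ y → (φ.eval (Φ y) ↔ t = true)}

/-- The leaf sets of the base level: negations of formulas of this kind are evaluated
recursively. -/
def baseA (own : E → Option V) (ev : E → (V → V) → Bool) (Φ : (E → Bool) → α → Prop) (c s : ℕ) :
    Fm α → Bool → Set (Mt V)
  | .neg a, t => if (Fm.neg a).size ≤ s then smallA own ev Φ c (.neg a) t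
      else baseA own ev Φ c s a (!t)
  | .var x, t => smallA own ev Φ c (.var x) t
  | .bot, t => smallA own ev Φ c .bot t
  | .and a b, t => smallA own ev Φ c (.and a b) t
  | .or a b, t => smallA own ev Φ c (.or a b) t
  | .imp a b, t => smallA own ev Φ c (.imp a b) t

variable {Φ : (E → Bool) → α → Prop} {c s k : ℕ}

theorem baseA_of_kind (hs : 1 ≤ s) {φ : Fm α} (h : kind s φ = .small) (t : Bool) :
    baseA own ev Φ c s φ t = smallA own ev Φ c φ t := by
  rw [kind_eq_small_iff hs] at h
  cases φ with
  | neg a => unfold baseA; rw [if_pos h]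
  | var x => rfl
  | bot => rfl
  | and a b => rfl
  | or a b => rfl
  | imp a b => rfl

theorem baseA_sub (φ : Fm α) : ∀ (t : Bool) (μ : Mt V), μ ∈ baseA own ev Φ c s φ t →
    cost ident μ ≤ c ∧ ∀ y, Cons own ev μ y → (φ.eval (Φ y) ↔ t = true) := by
  induction φ with
  | neg a ih =>
    intro t μ hμ
    unfold baseA at hμ
    by_cases h : (Fm.neg a).size ≤ s
    · rw [if_pos h] at hμ; exact hμ
    · rw [if_neg h] at hμ
      obtain ⟨h1, h2⟩ := ih (!t) μ hμ
      refine ⟨h1, fun y hy => ?_⟩
      have h3 := h2 y hy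
      show ¬ (a.eval (Φ y)) ↔ t = true
      rw [h3]
      cases t <;> simp
  | var x => exact fun t μ hμ => hμ
  | bot => exact fun t μ hμ => hμ
  | and a b _ _ => exact fun t μ hμ => hμ
  | or a b _ _ => exact fun t μ hμ => hμ
  | imp a b _ _ => exact fun t μ hμ => hμ

theorem val_baseA
    (hev : ∀ e (p p' : V → V), (∀ v, own e = some v → p v = p' v) → ev e p = ev e p')
    {φ : Fm α} {t : Bool} {ν : Mt V} (h : Val (baseA own ev Φ c s) φ t ν) :
    φ.eval (Φ (ptOf ev ν)) ↔ t = true := by
  obtain ⟨μ, h1, h2⟩ := h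
  exact (baseA_sub φ t μ h1).2 _ (cons_ptOf hev h2)

end base

end BL

open BL

variable {α E V : Type} [Fintype V] [DecidableEq V] {own : E → Option V} {ev : E → (V → V) → Bool}
  {c s k : ℕ}

/-- **The base level.** -/
theorem base_lev {P : Finset (Fm α)}
    (hev : ∀ e (p p' : V → V), (∀ v, own e = some v → p v = p' v) → ev e p = ev e p')
    (Φ : (E → Bool) → α → Prop) (hs : 1 ≤ s) (hP : PClosed P)
    (hT : ∀ φ ∈ P, kind s φ = .small →
      ∃ T : Tr E, T.depth ≤ k ∧ ∀ y, (T.eval y = true ↔ φ.eval (Φ y)))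
    {c : ℕ} (hc : 2 * k ≤ c) :
    ∃ A : Fm α → Bool → Set (Mt V), Lev P s 0 c ident A ∧
      ∀ φ ∈ P, kind s φ = .small → ∀ t, ∀ μ ∈ A φ t, cost ident μ ≤ c ∧
        ∀ y, Cons own ev μ y → (φ.eval (Φ y) ↔ t = true) := by
  refine ⟨baseA own ev Φ c s, ?_, fun φ _ _ t μ hμ => baseA_sub φ t μ hμ⟩
  have hex : ∀ φ : Fm α, φ ∈ P → depth s φ ≤ 0 → ∀ ν : Mt V, c ≤ (free ν).card →
      ∃ t, ∃ μ ∈ baseA own ev Φ c s φ t, Compat μ ν := by
    have hsm : ∀ φ : Fm α, φ ∈ P → kind s φ = .small → ∀ ν : Mt V, c ≤ (free ν).card →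
        ∃ t, ∃ μ ∈ baseA own ev Φ c s φ t, Compat μ ν := by
      intro φ hφ hk ν hν
      obtain ⟨T, hT1, hT2⟩ := hT φ hφ hk
      obtain ⟨μ, t, h1, h2, h3, h4⟩ := walk hev T ident ν (ident_le ν) (by omega)
      refine ⟨t, μ, ?_, h3⟩
      rw [baseA_of_kind hs hk]
      exact ⟨by omega, fun y hy => by rw [← hT2, h4 y hy]⟩
    intro φ
    induction φ with
    | neg a ih =>
      intro hφ hd ν hν
      by_cases h : (Fm.neg a).size ≤ s
      · exact hsm _ hφ (kind_of_size_le h) ν hν
      · rw [depth_neg] at hd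
        obtain ⟨t, μ, h1, h2⟩ := ih (hP.neg a hφ) hd ν hν
        refine ⟨!t, μ, ?_, h2⟩
        unfold baseA
        rw [if_neg h, Bool.not_not]
        exact h1
    | var x =>
      exact fun hφ _ ν hν => hsm _ hφ rfl ν hν
    | bot =>
      exact fun hφ _ ν hν => hsm _ hφ rfl ν hν
    | and a b _ _ =>
      intro hφ hd ν hν
      refine hsm _ hφ ?_ ν hν
      by_contra h
      have h1 := one_le_depth (Or.inl (kind_and (size_lt_of_kind_ne h)))
      omega
    | or a b _ _ =>
      intro hφ hd ν hν
      refine hsm _ hφ ?_ ν hν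
      by_contra h
      have h1 := one_le_depth (Or.inr (Or.inl (kind_or (size_lt_of_kind_ne h))))
      omega
    | imp a b _ _ =>
      intro hφ hd ν hν
      refine hsm _ hφ ?_ ν hν
      by_contra h
      have h1 := one_le_depth (Or.inr (Or.inr (kind_imp (size_lt_of_kind_ne h))))
      omega
  exact
  { cost := fun φ _ _ t μ hμ _ => (baseA_sub φ t μ hμ).1
    inc := by
      intro φ _ _ μ hμ μ' hμ' hcomp
      have h1 := (baseA_sub φ true μ hμ).2 _ (cons_ptOf hev (μ.le_join_left μ' hcomp))
      have h2 := (baseA_sub φ false μ' hμ').2 _ (cons_ptOf hev (μ.le_join_right μ' hcomp))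
      exact absurd (h2.1 (h1.2 rfl)) (by simp)
    ex := fun φ hφ hd ν _ hν => hex φ hφ hd ν (by omega)
    bot := by
      rw [Set.eq_empty_iff_forall_notMem]
      intro μ hμ
      exact ((baseA_sub .bot true μ hμ).2 _ (cons_ptOf hev (le_refl μ))).2 rfl
    small_neg := by
      intro a _ _ ν t u h1 h2
      have e1 := val_baseA hev h1
      have e2 := val_baseA hev h2
      change ¬ (a.eval (Φ (ptOf ev ν))) ↔ t = true at e1
      rw [e2] at e1
      cases t <;> cases u <;> simp_all
    small_and := by
      intro a b _ _ ν t u v h1 h2 h3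
      have e1 := val_baseA hev h1
      have e2 := val_baseA hev h2
      have e3 := val_baseA hev h3
      change (a.eval (Φ (ptOf ev ν)) ∧ b.eval (Φ (ptOf ev ν))) ↔ t = true at e1
      rw [e2, e3] at e1
      cases t <;> cases u <;> cases v <;> simp_all
    small_or := by
      intro a b _ _ ν t u v h1 h2 h3
      have e1 := val_baseA hev h1
      have e2 := val_baseA hev h2
      have e3 := val_baseA hev h3
      change (a.eval (Φ (ptOf ev ν)) ∨ b.eval (Φ (ptOf ev ν))) ↔ t = true at e1
      rw [e2, e3] at e1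
      cases t <;> cases u <;> cases v <;> simp_all
    small_imp := by
      intro a b _ _ ν t u v h1 h2 h3
      have e1 := val_baseA hev h1
      have e2 := val_baseA hev h2
      have e3 := val_baseA hev h3
      change (a.eval (Φ (ptOf ev ν)) → b.eval (Φ (ptOf ev ν))) ↔ t = true at e1
      rw [e2, e3] at e1
      cases t <;> cases u <;> cases v <;> simp_all
    neg := by
      intro a _ hk _ t
      have h1 : ¬ (Fm.neg a).size ≤ s := fun h => by
        rw [kind_of_size_le h] at hk
        exact absurd hk (by simp)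
      conv_lhs => unfold baseA
      rw [if_neg h1]
    orT := by
      intro φ _ hd hk
      have h1 := one_le_depth (s := s) (φ := φ) (Or.inr hk)
      omega
    orF := by
      intro φ _ hd hk
      have h1 := one_le_depth (s := s) (φ := φ) (Or.inr hk)
      omega
    andF := by
      intro φ _ hd hk
      have h1 := one_le_depth (s := s) (φ := φ) (Or.inl hk)
      omega
    andT := by
      intro φ _ hd hk
      have h1 := one_le_depth (s := s) (φ := φ) (Or.inl hk)
      omega }

end AcFrege
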