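import Pool.Agent.Work.MP_c07f0d_lc.AC.LevStep
import Pool.Agent.Work.MP_c07f0d_lc.AC.AcSwitch

/-!
# Iterating the level step
-/

namespace AcFrege

open FregeEF

variable {α V : Type} [Fintype V] [DecidableEq V]

section

variable {P : Finset (Fm α)} {s : ℕ}

theorem odd_pow_sub_even {l : ℕ} (hl : Odd l) : Even (l ^ 5 - l) :=
  Nat.Odd.sub_odd hl.pow hl

theorem room_ineq {q l : ℕ} (h : 65 * q ^ 2 ≤ l) (h1 : 1 ≤ l) : 64 * q ^ 2 * l ^ 4 + l ≤ l ^ 5 := by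
  rcases Nat.eq_zero_or_pos q with hq | hq
  · subst hq
    have : l ≤ l ^ 5 := Nat.le_self_pow (by norm_num) l
    simpa using this
  · have h2 : l ≤ l ^ 4 := Nat.le_self_pow (by norm_num) l
    have h3 : 1 ≤ q ^ 2 := Nat.one_le_pow _ _ hq
    calc 64 * q ^ 2 * l ^ 4 + l ≤ 64 * q ^ 2 * l ^ 4 + q ^ 2 * l ^ 4 := by
          refine Nat.add_le_add_left ?_ _
          calc l ≤ l ^ 4 := h2
            _ = 1 * l ^ 4 := (one_mul _).symm
            _ ≤ q ^ 2 * l ^ 4 := Nat.mul_le_mul_right _ h3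
      _ = 65 * q ^ 2 * l ^ 4 := by ring
      _ ≤ l * l ^ 4 := Nat.mul_le_mul_right _ h
      _ = l ^ 5 := by ring

/-- The induction for the iterated level step, from the level step. -/
theorem lev_iter_of {q u : ℕ}
    (step : ∀ (j l : ℕ) (ρ : Mt V) (A : Fm α → Bool → Set (Mt V)), Lev P s j (4 * q) ρ A →
      64 * q ^ 2 * l ^ 4 + l ≤ (free ρ).card → Even ((free ρ).card - l) →
      ∃ ρ', ρ ≤ ρ' ∧ (free ρ').card = l ∧ ∃ A', Lev P s (j + 1) (4 * q) ρ' A' ∧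
        ∀ φ ∈ P, depth s φ ≤ j → A' φ = A φ)
    (hu : 65 * q ^ 2 ≤ u) (hodd : Odd u) (d : ℕ) :
    ∀ (j : ℕ) (ρ : Mt V) (A : Fm α → Bool → Set (Mt V)), (free ρ).card = u ^ 5 ^ d →
      Lev P s j (4 * q) ρ A →
      ∃ ρ' A', (free ρ').card = u ∧ ρ ≤ ρ' ∧ Lev P s (j + d) (4 * q) ρ' A' ∧
        ∀ φ ∈ P, depth s φ ≤ j → A' φ = A φ := by
  induction d with
  | zero =>
    intro j ρ A hf h
    exact ⟨ρ, A, by rw [hf]; simp, le_refl _, h, fun _ _ _ => rfl⟩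
  | succ d ih =>
    intro j ρ A hf h
    have h1u : 1 ≤ u := hodd.pos
    set l := u ^ 5 ^ d with hl
    have hl5 : u ^ 5 ^ (d + 1) = l ^ 5 := by
      rw [hl, ← pow_mul, pow_succ]
    have hul : u ≤ l := Nat.le_self_pow (by positivity) u
    have hlodd : Odd l := hodd.pow
    obtain ⟨ρ₁, h1, h2, A₁, h3, h4⟩ := step j l ρ A h
      (by rw [hf, hl5]; exact room_ineq (hu.trans hul) (h1u.trans hul))
      (by rw [hf, hl5]; exact odd_pow_sub_even hlodd)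
    obtain ⟨ρ', A', h5, h6, h7, h8⟩ := ih (j + 1) ρ₁ A₁ h2 h3
    refine ⟨ρ', A', h5, h1.trans h6, ?_, fun φ hφ hd => ?_⟩
    · have : j + 1 + d = j + (d + 1) := by ring
      rwa [this] at h7
    · rw [h8 φ hφ (by omega), h4 φ hφ hd]

/-- The iterated level step, from the switching lemma. -/
theorem lev_iter_of_good (hgood : GoodSwitch V (Fm α)) (hs : 1 ≤ s) (hP : PClosed P) {q u : ℕ}
    (d : ℕ) (hu : 65 * q ^ 2 ≤ u) (hodd : Odd u) (hcard : P.card < 2 ^ q)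
    (ρ : Mt V) (A : Fm α → Bool → Set (Mt V)) (hf : (free ρ).card = u ^ 5 ^ d)
    (h : Lev P s 0 (4 * q) ρ A) :
    ∃ ρ' A', (free ρ').card = u ∧ ρ ≤ ρ' ∧ Lev P s d (4 * q) ρ' A' ∧
      ∀ φ ∈ P, depth s φ ≤ 0 → A' φ = A φ := by
  have h1 := lev_iter_of (P := P) (s := s) (fun j l ρ A hL h1 h2 =>
    lev_step_of hgood hs hP hL hcard h1 h2) hu hodd d 0 ρ A hf h
  rwa [Nat.zero_add] at h1

/-- **The iterated level step.** -/
theorem lev_iter (hs : 1 ≤ s) (hP : PClosed P) {q u : ℕ} (d : ℕ) (hu : 65 * q ^ 2 ≤ u)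
    (hodd : Odd u) (hcard : P.card < 2 ^ q) (ρ : Mt V) (A : Fm α → Bool → Set (Mt V))
    (hf : (free ρ).card = u ^ 5 ^ d) (h : Lev P s 0 (4 * q) ρ A) :
    ∃ ρ' A', (free ρ').card = u ∧ ρ ≤ ρ' ∧ Lev P s d (4 * q) ρ' A' ∧
      ∀ φ ∈ P, depth s φ ≤ 0 → A' φ = A φ :=
  lev_iter_of_good (goodSwitch _ _) hs hP d hu hodd hcard ρ A hf h

end

end AcFrege
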