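import Pool.Agent.Work.MP_c07f0d_lc.AC.LevDef

/-!
# Leaf sets give local evaluations
-/

namespace AcFrege

open FregeEF

variable {α V : Type} [Fintype V] [DecidableEq V]

omit [Fintype V] [DecidableEq V] in
theorem Val.mono {A : Fm α → Bool → Set (Mt V)} {φ : Fm α} {t : Bool} {ν ν' : Mt V}
    (h : Val A φ t ν) (hν : ν ≤ ν') : Val A φ t ν' := by
  obtain ⟨μ, h1, h2⟩ := h
  exact ⟨μ, h1, h2.trans hν⟩

/-- some leaf of the block of disjunctions at the root of `φ` is active at `ν` -/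
def ActOr (s : ℕ) (A : Fm α → Bool → Set (Mt V)) (φ : Fm α) (ν : Mt V) : Prop :=
  ∃ l ∈ orLeaves s φ, Val A l.2 l.1 ν

/-- some leaf of the block of conjunctions at the root of `φ` is false at `ν` -/
def ActAnd (s : ℕ) (A : Fm α → Bool → Set (Mt V)) (φ : Fm α) (ν : Mt V) : Prop :=
  ∃ χ ∈ andLeaves s φ, Val A χ false ν

theorem orLeaves_of_kind {s : ℕ} {φ : Fm α} (h1 : kind s φ ≠ .or) (h2 : kind s φ ≠ .imp) :
    orLeaves s φ = [(true, φ)] := by
  cases φ with
  | var x => rfl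
  | bot => rfl
  | neg a => rfl
  | and a b => rfl
  | or a b =>
    simp only [kind] at h1
    simp only [orLeaves]
    split_ifs with h
    · rfl
    · rw [if_neg h] at h1
      exact absurd rfl h1
  | imp a b =>
    simp only [kind] at h2
    simp only [orLeaves]
    split_ifs with h
    · rfl
    · rw [if_neg h] at h2
      exact absurd rfl h2

theorem andLeaves_of_kind {s : ℕ} {φ : Fm α} (h1 : kind s φ ≠ .and) :
    andLeaves s φ = [φ] := by
  cases φ with
  | var x => rfl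
  | bot => rfl
  | neg a => rfl
  | or a b => rfl
  | imp a b => rfl
  | and a b =>
    simp only [kind] at h1
    simp only [andLeaves]
    split_ifs with h
    · rfl
    · rw [if_neg h] at h1
      exact absurd rfl h1

theorem or_not_small {s : ℕ} {a b : Fm α} (h : kind s (.or a b) ≠ .small) :
    ¬ (Fm.or a b).size ≤ s := fun hs => h (by simp only [kind]; rw [if_pos hs])

theorem imp_not_small {s : ℕ} {a b : Fm α} (h : kind s (.imp a b) ≠ .small) :
    ¬ (Fm.imp a b).size ≤ s := fun hs => h (by simp only [kind]; rw [if_pos hs])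

theorem and_not_small {s : ℕ} {a b : Fm α} (h : kind s (.and a b) ≠ .small) :
    ¬ (Fm.and a b).size ≤ s := fun hs => h (by simp only [kind]; rw [if_pos hs])

theorem neg_not_small {s : ℕ} {a : Fm α} (h : kind s (.neg a) ≠ .small) :
    ¬ (Fm.neg a).size ≤ s := fun hs => h (by simp only [kind]; rw [if_pos hs])

theorem le_of_ite_le {p : Prop} [Decidable p] {m j : ℕ} (h : (if p then m else m + 1) ≤ j) :
    m ≤ j := by
  split_ifs at h <;> omega

theorem bool_and : ∀ t u v : Bool, (t = false ↔ u = false ∨ v = false) → t = (u && v) := by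
  decide

theorem bool_or : ∀ t u v : Bool, (t = true ↔ u = true ∨ v = true) → t = (u || v) := by
  decide

theorem bool_imp : ∀ t u v : Bool, (t = true ↔ u = false ∨ v = true) → t = (!u || v) := by
  decide

section

variable {P : Finset (Fm α)} {s j c : ℕ} {ρ : Mt V} {A : Fm α → Bool → Set (Mt V)}

theorem Lev.uniq (h : Lev P s j c ρ A) {φ : Fm α} (hφ : φ ∈ P) (hd : depth s φ ≤ j) {ν : Mt V}
    (h1 : Val A φ true ν) (h2 : Val A φ false ν) : False := by
  obtain ⟨μ, hμ, hν⟩ := h1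
  obtain ⟨μ', hμ', hν'⟩ := h2
  exact h.inc φ hφ hd μ hμ μ' hμ' (Compat.of_le hν hν')

theorem Lev.eq (h : Lev P s j c ρ A) {φ : Fm α} (hφ : φ ∈ P) (hd : depth s φ ≤ j) {ν : Mt V}
    {t u : Bool} (h1 : Val A φ t ν) (h2 : Val A φ u ν) : t = u := by
  cases t <;> cases u
  · rfl
  · exact (h.uniq hφ hd h2 h1).elim
  · exact (h.uniq hφ hd h1 h2).elim
  · rfl

/-- the value of a formula is `true` if and only if a leaf of its block is active -/
theorem Lev.val_iff_or (h : Lev P s j c ρ A) {φ : Fm α} (hφ : φ ∈ P) (hd : depth s φ ≤ j)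
    {ν : Mt V} {t : Bool} (ht : Val A φ t ν) : t = true ↔ ActOr s A φ ν := by
  by_cases hk : kind s φ = .or ∨ kind s φ = .imp
  · obtain ⟨μ, hμ, hν⟩ := ht
    cases t with
    | true =>
      obtain ⟨l, hl, τ, hτ, hle⟩ := h.orT φ hφ hd hk μ hμ
      exact ⟨fun _ => ⟨l, hl, τ, hτ, hle.trans hν⟩, fun _ => rfl⟩
    | false =>
      constructor
      · intro h1
        cases h1
      · rintro ⟨l, hl, τ, hτ, hle⟩
        exact (h.orF φ hφ hd hk μ hμ l hl τ hτ (Compat.of_le hle hν)).elim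
  · rw [not_or] at hk
    unfold ActOr
    rw [orLeaves_of_kind hk.1 hk.2]
    constructor
    · intro h1
      exact ⟨(true, φ), List.mem_singleton.2 rfl, h1 ▸ ht⟩
    · rintro ⟨l, hl, h2⟩
      rw [List.mem_singleton] at hl
      subst hl
      exact h.eq hφ hd ht h2

/-- the value of a formula is `false` if and only if a leaf of its block is false -/
theorem Lev.val_iff_and (h : Lev P s j c ρ A) {φ : Fm α} (hφ : φ ∈ P) (hd : depth s φ ≤ j)
    {ν : Mt V} {t : Bool} (ht : Val A φ t ν) : t = false ↔ ActAnd s A φ ν := by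
  by_cases hk : kind s φ = .and
  · obtain ⟨μ, hμ, hν⟩ := ht
    cases t with
    | false =>
      obtain ⟨l, hl, τ, hτ, hle⟩ := h.andF φ hφ hd hk μ hμ
      exact ⟨fun _ => ⟨l, hl, τ, hτ, hle.trans hν⟩, fun _ => rfl⟩
    | true =>
      constructor
      · intro h1
        cases h1
      · rintro ⟨l, hl, τ, hτ, hle⟩
        exact (h.andT φ hφ hd hk μ hμ l hl τ hτ (Compat.of_le hle hν)).elim
  · unfold ActAnd
    rw [andLeaves_of_kind hk]
    constructor
    · intro h1
      exact ⟨φ, List.mem_singleton.2 rfl, h1 ▸ ht⟩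
    · rintro ⟨l, hl, h2⟩
      rw [List.mem_singleton] at hl
      subst hl
      exact h.eq hφ hd ht h2

theorem actOr_or {a b : Fm α} {ν : Mt V} (hk : ¬ (Fm.or a b).size ≤ s) :
    ActOr s A (.or a b) ν ↔ ActOr s A a ν ∨ ActOr s A b ν := by
  unfold ActOr
  have h1 : orLeaves s (Fm.or a b) = orLeaves s a ++ orLeaves s b := by
    conv_lhs => rw [orLeaves]
    rw [if_neg hk]
  rw [h1]
  constructor
  · rintro ⟨l, hl, h2⟩
    rcases List.mem_append.1 hl with h3 | h3
    · exact Or.inl ⟨l, h3, h2⟩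
    · exact Or.inr ⟨l, h3, h2⟩
  · rintro (⟨l, hl, h2⟩ | ⟨l, hl, h2⟩)
    · exact ⟨l, List.mem_append.2 (Or.inl hl), h2⟩
    · exact ⟨l, List.mem_append.2 (Or.inr hl), h2⟩

theorem actOr_imp {a b : Fm α} {ν : Mt V} (hk : ¬ (Fm.imp a b).size ≤ s) :
    ActOr s A (.imp a b) ν ↔ Val A a false ν ∨ ActOr s A b ν := by
  unfold ActOr
  have h1 : orLeaves s (Fm.imp a b) = (false, a) :: orLeaves s b := by
    conv_lhs => rw [orLeaves]
    rw [if_neg hk]
  rw [h1]
  constructor
  · rintro ⟨l, hl, h2⟩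
    rcases List.mem_cons.1 hl with h3 | h3
    · subst h3
      exact Or.inl h2
    · exact Or.inr ⟨l, h3, h2⟩
  · rintro (h2 | ⟨l, hl, h2⟩)
    · exact ⟨(false, a), List.mem_cons.2 (Or.inl rfl), h2⟩
    · exact ⟨l, List.mem_cons.2 (Or.inr hl), h2⟩

theorem actAnd_and {a b : Fm α} {ν : Mt V} (hk : ¬ (Fm.and a b).size ≤ s) :
    ActAnd s A (.and a b) ν ↔ ActAnd s A a ν ∨ ActAnd s A b ν := by
  unfold ActAnd
  have h1 : andLeaves s (Fm.and a b) = andLeaves s a ++ andLeaves s b := by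
    conv_lhs => rw [andLeaves]
    rw [if_neg hk]
  rw [h1]
  constructor
  · rintro ⟨l, hl, h2⟩
    rcases List.mem_append.1 hl with h3 | h3
    · exact Or.inl ⟨l, h3, h2⟩
    · exact Or.inr ⟨l, h3, h2⟩
  · rintro (⟨l, hl, h2⟩ | ⟨l, hl, h2⟩)
    · exact ⟨l, List.mem_append.2 (Or.inl hl), h2⟩
    · exact ⟨l, List.mem_append.2 (Or.inr hl), h2⟩

theorem depth_neg_le {a : Fm α} (hk : ¬ (Fm.neg a).size ≤ s) (h : depth s (.neg a) ≤ j) :
    depth s a ≤ j := by
  rw [depth, if_neg hk] at h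
  exact h

theorem depth_and_le {a b : Fm α} (hk : ¬ (Fm.and a b).size ≤ s) (h : depth s (.and a b) ≤ j) :
    depth s a ≤ j ∧ depth s b ≤ j := by
  rw [depth, if_neg hk, max_le_iff] at h
  exact ⟨le_of_ite_le h.1, le_of_ite_le h.2⟩

theorem depth_or_le {a b : Fm α} (hk : ¬ (Fm.or a b).size ≤ s) (h : depth s (.or a b) ≤ j) :
    depth s a ≤ j ∧ depth s b ≤ j := by
  rw [depth, if_neg hk, max_le_iff] at h
  exact ⟨le_of_ite_le h.1, le_of_ite_le h.2⟩

theorem depth_imp_le {a b : Fm α} (hk : ¬ (Fm.imp a b).size ≤ s) (h : depth s (.imp a b) ≤ j) :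
    depth s a ≤ j ∧ depth s b ≤ j := by
  rw [depth, if_neg hk, max_le_iff] at h
  exact ⟨by omega, le_of_ite_le h.2⟩

/-- **Leaf sets give local evaluations.** -/
theorem sem_of_lev (hs : 1 ≤ s) (hP : PClosed P) (h : Lev P s j c ρ A) :
    Sem (fun ν : Mt V => (free ν).card) ρ c (fun φ => φ ∈ P ∧ depth s φ ≤ j) (Val A) where
  mono φ t a b _ hab hv := hv.mono hab
  uniq φ a hφ h1 h2 := h.uniq hφ.1 hφ.2 h1 h2
  small φ t a hφ ha hv := by
    obtain ⟨μ, hμ, hle⟩ := hv
    have hcp : Compat μ ρ := Compat.of_le hle ha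
    refine ⟨μ.join ρ hcp, Mt.le_join_right _ _ _, Mt.join_le _ hle ha,
      ⟨μ, hμ, Mt.le_join_left _ _ _⟩, ?_⟩
    have h1 := free_le_free_join_add (le_refl ρ) hcp
    have h2 := h.cost φ hφ.1 hφ.2 t μ hμ hcp
    show (free ρ).card ≤ (free (μ.join ρ hcp)).card + c
    omega
  dec φ a hφ ha hroom := by
    obtain ⟨t, μ, hμ, hcp⟩ := h.ex φ hφ.1 hφ.2 a ha hroom
    have hcp' : Compat μ ρ := hcp.mono (le_refl μ) ha
    refine ⟨μ.join a hcp, Mt.le_join_right _ _ _, ?_, t, ⟨μ, hμ, Mt.le_join_left _ _ _⟩⟩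
    have h1 := free_le_free_join_add ha hcp
    have h2 := h.cost φ hφ.1 hφ.2 t μ hμ hcp'
    show (free a).card ≤ (free (μ.join a hcp)).card + c
    omega
  bot a _ hv := by
    obtain ⟨μ, hμ, _⟩ := hv
    rw [h.bot] at hμ
    exact hμ
  neg φ a t u hφ ht hu := by
    by_cases hk : kind s (.neg φ) = .small
    · exact h.small_neg φ hφ.1 hk a t u ht hu
    · have hns := neg_not_small hk
      have hk' : kind s (.neg φ) = .neg := by
        simp only [kind]
        rw [if_neg hns]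
      obtain ⟨μ, hμ, hle⟩ := ht
      rw [h.neg φ hφ.1 hk' hφ.2 t] at hμ
      have h1 := h.eq (hP.neg _ hφ.1) (depth_neg_le hns hφ.2) ⟨μ, hμ, hle⟩ hu
      rw [← h1, Bool.not_not]
  and φ ψ a t u v hφ ht hu hv := by
    by_cases hk : kind s (.and φ ψ) = .small
    · exact h.small_and φ ψ hφ.1 hk a t u v ht hu hv
    · have hns := and_not_small hk
      have hd := depth_and_le hns hφ.2
      have hm := hP.and _ _ hφ.1
      have h1 := h.val_iff_and hφ.1 hφ.2 ht
      have h2 := h.val_iff_and hm.1 hd.1 hu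
      have h3 := h.val_iff_and hm.2 hd.2 hv
      rw [actAnd_and hns, ← h2, ← h3] at h1
      exact bool_and t u v h1
  or φ ψ a t u v hφ ht hu hv := by
    by_cases hk : kind s (.or φ ψ) = .small
    · exact h.small_or φ ψ hφ.1 hk a t u v ht hu hv
    · have hns := or_not_small hk
      have hd := depth_or_le hns hφ.2
      have hm := hP.or _ _ hφ.1
      have h1 := h.val_iff_or hφ.1 hφ.2 ht
      have h2 := h.val_iff_or hm.1 hd.1 hu
      have h3 := h.val_iff_or hm.2 hd.2 hv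
      rw [actOr_or hns, ← h2, ← h3] at h1
      exact bool_or t u v h1
  imp φ ψ a t u v hφ ht hu hv := by
    by_cases hk : kind s (.imp φ ψ) = .small
    · exact h.small_imp φ ψ hφ.1 hk a t u v ht hu hv
    · have hns := imp_not_small hk
      have hd := depth_imp_le hns hφ.2
      have hm := hP.imp _ _ hφ.1
      have h1 := h.val_iff_or hφ.1 hφ.2 ht
      have h2 : Val A φ false a ↔ u = false :=
        ⟨fun h4 => (h.eq hm.1 hd.1 h4 hu).symm, fun h4 => h4 ▸ hu⟩
      have h3 := h.val_iff_or hm.2 hd.2 hv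
      rw [actOr_imp hns, h2, ← h3] at h1
      exact bool_imp t u v h1

end

end AcFrege
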