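import Pool.Agent.Work.MP_c07f0d_lc.AC.SemDef
import Mathlib.Tactic.Linarith
import Mathlib.Tactic.Ring

/-!
# Soundness of Frege rules in local evaluations
-/

namespace AcFrege

open FregeEF

variable {α S : Type} [Preorder S] {room : S → ℕ} {a₀ : S} {c : ℕ} {In : Fm α → Prop}
  {V : Fm α → Bool → S → Prop}

/-- All instances of the subformulas of a schematic formula have values at the state `b`. -/
def Dd (V : Fm α → Bool → S → Prop) (σ : ℕ → Fm α) (b : S) : Fm ℕ → Prop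
  | .var x => ∃ t, V (σ x) t b
  | .bot => ∃ t, V .bot t b
  | .neg p => Dd V σ b p ∧ ∃ t, V ((Fm.neg p).subst σ) t b
  | .and p q => (Dd V σ b p ∧ Dd V σ b q) ∧ ∃ t, V ((Fm.and p q).subst σ) t b
  | .or p q => (Dd V σ b p ∧ Dd V σ b q) ∧ ∃ t, V ((Fm.or p q).subst σ) t b
  | .imp p q => (Dd V σ b p ∧ Dd V σ b q) ∧ ∃ t, V ((Fm.imp p q).subst σ) t b

omit [Preorder S] in
theorem Dd.top {σ : ℕ → Fm α} {b : S} {p : Fm ℕ} (h : Dd V σ b p) : ∃ t, V (p.subst σ) t b := by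
  cases p with
  | var x => exact h
  | bot => exact h
  | neg p => exact h.2
  | and p q => exact h.2
  | or p q => exact h.2
  | imp p q => exact h.2

theorem Dd.mono (h : Sem room a₀ c In V) (hc : SubClosed In) {σ : ℕ → Fm α} {b b' : S}
    (hb : b ≤ b') : ∀ {p : Fm ℕ}, In (p.subst σ) → Dd V σ b p → Dd V σ b' p
  | .var _, hp, hd => hd.imp fun t ht => h.mono _ t _ _ hp hb ht
  | .bot, hp, hd => hd.imp fun t ht => h.mono _ t _ _ hp hb ht
  | .neg _, hp, hd => ⟨Dd.mono h hc hb (hc.neg _ hp) hd.1, hd.2.imp fun t ht => h.mono _ t _ _ hp hb ht⟩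
  | .and _ _, hp, hd => ⟨⟨Dd.mono h hc hb (hc.and _ _ hp).1 hd.1.1,
      Dd.mono h hc hb (hc.and _ _ hp).2 hd.1.2⟩, hd.2.imp fun t ht => h.mono _ t _ _ hp hb ht⟩
  | .or _ _, hp, hd => ⟨⟨Dd.mono h hc hb (hc.or _ _ hp).1 hd.1.1,
      Dd.mono h hc hb (hc.or _ _ hp).2 hd.1.2⟩, hd.2.imp fun t ht => h.mono _ t _ _ hp hb ht⟩
  | .imp _ _, hp, hd => ⟨⟨Dd.mono h hc hb (hc.imp _ _ hp).1 hd.1.1,
      Dd.mono h hc hb (hc.imp _ _ hp).2 hd.1.2⟩, hd.2.imp fun t ht => h.mono _ t _ _ hp hb ht⟩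

/-- The values are those of the truth assignment `x ↦ value of σ x`. -/
theorem Dd.eval (h : Sem room a₀ c In V) (hc : SubClosed In) {σ : ℕ → Fm α} {b : S} :
    ∀ {p : Fm ℕ}, In (p.subst σ) → Dd V σ b p → ∀ t, V (p.subst σ) t b →
      (p.eval (fun x => V (σ x) true b) ↔ t = true)
  | .var x, hp, _, t, ht => by
    cases t with
    | true => exact ⟨fun _ => rfl, fun _ => ht⟩
    | false => exact ⟨fun h1 => (h.uniq _ _ hp h1 ht).elim, fun h1 => by cases h1⟩
  | .bot, hp, _, t, ht => by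
    cases t with
    | true => exact (h.bot _ hp ht).elim
    | false => exact ⟨fun h1 => h1.elim, fun h1 => by cases h1⟩
  | .neg p, hp, hd, t, ht => by
    obtain ⟨u, hu⟩ := hd.1.top
    have h1 := Dd.eval h hc (hc.neg _ hp) hd.1 u hu
    have h2 := h.neg _ _ t u hp ht hu
    show (¬ p.eval _) ↔ _
    rw [h1, h2]
    cases u <;> simp
  | .and p q, hp, hd, t, ht => by
    obtain ⟨u, hu⟩ := hd.1.1.top
    obtain ⟨v, hv⟩ := hd.1.2.top
    have h1 := Dd.eval h hc (hc.and _ _ hp).1 hd.1.1 u hu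
    have h1' := Dd.eval h hc (hc.and _ _ hp).2 hd.1.2 v hv
    have h2 := h.and _ _ _ t u v hp ht hu hv
    show (p.eval _ ∧ q.eval _) ↔ _
    rw [h1, h1', h2]
    cases u <;> cases v <;> simp
  | .or p q, hp, hd, t, ht => by
    obtain ⟨u, hu⟩ := hd.1.1.top
    obtain ⟨v, hv⟩ := hd.1.2.top
    have h1 := Dd.eval h hc (hc.or _ _ hp).1 hd.1.1 u hu
    have h1' := Dd.eval h hc (hc.or _ _ hp).2 hd.1.2 v hv
    have h2 := h.or _ _ _ t u v hp ht hu hv
    show (p.eval _ ∨ q.eval _) ↔ _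
    rw [h1, h1', h2]
    cases u <;> cases v <;> simp
  | .imp p q, hp, hd, t, ht => by
    obtain ⟨u, hu⟩ := hd.1.1.top
    obtain ⟨v, hv⟩ := hd.1.2.top
    have h1 := Dd.eval h hc (hc.imp _ _ hp).1 hd.1.1 u hu
    have h1' := Dd.eval h hc (hc.imp _ _ hp).2 hd.1.2 v hv
    have h2 := h.imp _ _ _ t u v hp ht hu hv
    show (p.eval _ → q.eval _) ↔ _
    rw [h1, h1', h2]
    cases u <;> cases v <;> simp

private theorem step_dec (h : Sem room a₀ c In V) {φ : Fm α} (hφ : In φ) {b : S} (hb : a₀ ≤ b)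
    {k : ℕ} (hr : (k + 1 + 2) * c ≤ room b) :
    ∃ b', b ≤ b' ∧ room b ≤ room b' + c ∧ (k + 2) * c ≤ room b' ∧ ∃ t, V φ t b' := by
  obtain ⟨b', h1, h2, h3⟩ := h.dec φ b hφ hb
    (le_trans (Nat.mul_le_mul_right c (by omega)) hr)
  refine ⟨b', h1, h2, ?_, h3⟩
  have : (k + 1 + 2) * c = (k + 2) * c + c := by ring
  omega

/-- All subformulas of a schematic formula can be decided at the cost `size * c`. -/
theorem exists_Dd (h : Sem room a₀ c In V) (hc : SubClosed In) {σ : ℕ → Fm α} :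
    ∀ (p : Fm ℕ), In (p.subst σ) → ∀ (k : ℕ) (b : S), a₀ ≤ b → (k + p.size + 2) * c ≤ room b →
      ∃ b', b ≤ b' ∧ room b ≤ room b' + p.size * c ∧ (k + 2) * c ≤ room b' ∧ Dd V σ b' p
  | .var x, hp, k, b, hb, hr => by
    obtain ⟨b', h1, h2, h3, h4⟩ := step_dec h hp hb (k := k) hr
    exact ⟨b', h1, by simpa [Fm.size] using h2, h3, h4⟩
  | .bot, hp, k, b, hb, hr => by
    obtain ⟨b', h1, h2, h3, h4⟩ := step_dec h hp hb (k := k) hr
    exact ⟨b', h1, by simpa [Fm.size] using h2, h3, h4⟩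
  | .neg p, hp, k, b, hb, hr => by
    obtain ⟨b', h1, h2, h3, h4⟩ := exists_Dd h hc p (hc.neg _ hp) (k + 1) b hb
      (le_trans (le_of_eq (by simp only [Fm.size]; ring)) hr)
    obtain ⟨b'', g1, g2, g3, g4⟩ := step_dec h hp (hb.trans h1) (k := k) h3
    refine ⟨b'', h1.trans g1, ?_, g3, ⟨Dd.mono h hc g1 (hc.neg _ hp) h4, g4⟩⟩
    have : (Fm.neg p).size * c = p.size * c + c := by simp only [Fm.size]; ring
    omega
  | .and p q, hp, k, b, hb, hr => by
    obtain ⟨b', h1, h2, h3, h4⟩ := exists_Dd h hc p (hc.and _ _ hp).1 (k + q.size + 1) b hb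
      (le_trans (le_of_eq (by simp only [Fm.size]; ring)) hr)
    obtain ⟨b2, f1, f2, f3, f4⟩ := exists_Dd h hc q (hc.and _ _ hp).2 (k + 1) b' (hb.trans h1)
      (le_trans (le_of_eq (by ring)) h3)
    obtain ⟨b'', g1, g2, g3, g4⟩ := step_dec h hp ((hb.trans h1).trans f1) (k := k) f3
    refine ⟨b'', (h1.trans f1).trans g1, ?_, g3,
      ⟨⟨Dd.mono h hc (f1.trans g1) (hc.and _ _ hp).1 h4, Dd.mono h hc g1 (hc.and _ _ hp).2 f4⟩,
        g4⟩⟩
    have : (Fm.and p q).size * c = p.size * c + q.size * c + c := by simp only [Fm.size]; ring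
    omega
  | .or p q, hp, k, b, hb, hr => by
    obtain ⟨b', h1, h2, h3, h4⟩ := exists_Dd h hc p (hc.or _ _ hp).1 (k + q.size + 1) b hb
      (le_trans (le_of_eq (by simp only [Fm.size]; ring)) hr)
    obtain ⟨b2, f1, f2, f3, f4⟩ := exists_Dd h hc q (hc.or _ _ hp).2 (k + 1) b' (hb.trans h1)
      (le_trans (le_of_eq (by ring)) h3)
    obtain ⟨b'', g1, g2, g3, g4⟩ := step_dec h hp ((hb.trans h1).trans f1) (k := k) f3
    refine ⟨b'', (h1.trans f1).trans g1, ?_, g3,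
      ⟨⟨Dd.mono h hc (f1.trans g1) (hc.or _ _ hp).1 h4, Dd.mono h hc g1 (hc.or _ _ hp).2 f4⟩,
        g4⟩⟩
    have : (Fm.or p q).size * c = p.size * c + q.size * c + c := by simp only [Fm.size]; ring
    omega
  | .imp p q, hp, k, b, hb, hr => by
    obtain ⟨b', h1, h2, h3, h4⟩ := exists_Dd h hc p (hc.imp _ _ hp).1 (k + q.size + 1) b hb
      (le_trans (le_of_eq (by simp only [Fm.size]; ring)) hr)
    obtain ⟨b2, f1, f2, f3, f4⟩ := exists_Dd h hc q (hc.imp _ _ hp).2 (k + 1) b' (hb.trans h1)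
      (le_trans (le_of_eq (by ring)) h3)
    obtain ⟨b'', g1, g2, g3, g4⟩ := step_dec h hp ((hb.trans h1).trans f1) (k := k) f3
    refine ⟨b'', (h1.trans f1).trans g1, ?_, g3,
      ⟨⟨Dd.mono h hc (f1.trans g1) (hc.imp _ _ hp).1 h4, Dd.mono h hc g1 (hc.imp _ _ hp).2 f4⟩,
        g4⟩⟩
    have : (Fm.imp p q).size * c = p.size * c + q.size * c + c := by simp only [Fm.size]; ring
    omega

theorem exists_Dd_list (h : Sem room a₀ c In V) (hc : SubClosed In) {σ : ℕ → Fm α} :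
    ∀ (l : List (Fm ℕ)), (∀ p ∈ l, In (p.subst σ)) → ∀ b : S, a₀ ≤ b →
      (lsize l + 2) * c ≤ room b → ∃ b', b ≤ b' ∧ ∀ p ∈ l, Dd V σ b' p
  | [], _, b, _, _ => ⟨b, le_refl b, by simp⟩
  | p :: l, hl, b, hb, hr => by
    obtain ⟨b', h1, _, h3, h4⟩ := exists_Dd h hc p (hl p (by simp)) (lsize l) b hb
      (le_trans (le_of_eq (by simp only [lsize, List.map_cons, List.sum_cons]; ring)) hr)
    obtain ⟨b'', g1, g2⟩ := exists_Dd_list h hc l (fun q hq => hl q (by simp [hq])) b'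
      (hb.trans h1) h3
    refine ⟨b'', h1.trans g1, fun q hq => ?_⟩
    rcases List.mem_cons.1 hq with rfl | hq
    · exact Dd.mono h hc g1 (hl _ (by simp)) h4
    · exact g2 q hq

/-- No line of a derivation takes the value `false` above `a₀`. -/
theorem sem_deriv (h : Sem room a₀ c In V) (hc : SubClosed In) (R : List Rule)
    (hR : ∀ r ∈ R, ∀ v : ℕ → Prop, (∀ p ∈ r.prem, p.eval v) → r.concl.eval v) {K : ℕ}
    (hK : ∀ r ∈ R, rsize r ≤ K) (hroom : (K + 4) * c ≤ room a₀) {Γ L : List (Fm α)}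
    (hL : IsDeriv R Γ L) (hIn : ∀ φ ∈ L, In φ)
    (hΓ : ∀ φ ∈ Γ, In φ → ∀ a, a₀ ≤ a → ¬ V φ false a) :
    ∀ φ ∈ L, ∀ a, a₀ ≤ a → ¬ V φ false a := by
  induction hL with
  | nil => intro φ hφ; simp at hφ
  | @hyp L φ hL hφ ih =>
    intro θ hθ a ha hV
    rcases List.mem_cons.1 hθ with rfl | hθ
    · exact hΓ _ hφ (hIn _ (by simp)) a ha hV
    · exact ih (fun ψ hψ => hIn ψ (by simp [hψ])) θ hθ a ha hV
  | @step L φ hL hφ ih =>
    intro θ hθ a ha hV
    have ih' := ih (fun ψ hψ => hIn ψ (by simp [hψ]))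
    rcases List.mem_cons.1 hθ with rfl | hθ
    · obtain ⟨r, hr, σ, hp, hcl⟩ := hφ
      have hInθ : In θ := hIn _ (by simp)
      obtain ⟨b, hb1, hb2, hb3, hb4⟩ := h.small _ _ _ hInθ ha hV
      have hall : ∀ p ∈ r.concl :: r.prem, In (p.subst σ) := by
        intro p hp'
        rcases List.mem_cons.1 hp' with rfl | hp'
        · rw [hcl]; exact hInθ
        · exact hIn _ (by simp [hp p hp'])
      have hroomb : (lsize (r.concl :: r.prem) + 2) * c ≤ room b := by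
        have h1 : (lsize (r.concl :: r.prem) + 2) * c ≤ (K + 2) * c :=
          Nat.mul_le_mul_right c (Nat.add_le_add_right (hK r hr) 2)
        have h2 : (K + 4) * c = (K + 2) * c + 2 * c := by ring
        omega
      obtain ⟨b', g1, g2⟩ := exists_Dd_list h hc (σ := σ) (r.concl :: r.prem) hall b hb1 hroomb
      have hprem : ∀ p ∈ r.prem, p.eval (fun x => V (σ x) true b') := by
        intro p hp'
        have hd := g2 p (by simp [hp'])
        obtain ⟨t, ht⟩ := hd.top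
        refine (Dd.eval h hc (hall p (by simp [hp'])) hd t ht).2 ?_
        cases t with
        | true => rfl
        | false => exact (ih' _ (hp p hp') b' (hb1.trans g1) ht).elim
      have hcon := hR r hr _ hprem
      have hf : V (r.concl.subst σ) false b' := by
        rw [hcl]
        exact h.mono _ _ _ _ hInθ g1 hb3
      have := (Dd.eval h hc (hall r.concl (by simp)) (g2 _ (by simp)) false hf).1 hcon
      cases this
    · exact ih' θ hθ a ha hV

/-- A derivation does not contain `⊥`. -/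
theorem sem_no_bot (h : Sem room a₀ c In V) (hc : SubClosed In) (R : List Rule)
    (hR : ∀ r ∈ R, ∀ v : ℕ → Prop, (∀ p ∈ r.prem, p.eval v) → r.concl.eval v) {K : ℕ}
    (hK : ∀ r ∈ R, rsize r ≤ K) (hroom : (K + 4) * c ≤ room a₀) {Γ L : List (Fm α)}
    (hL : IsDeriv R Γ L) (hIn : ∀ φ ∈ L, In φ)
    (hΓ : ∀ φ ∈ Γ, In φ → ∀ a, a₀ ≤ a → ¬ V φ false a) : Fm.bot ∉ L := by
  intro hbot
  have hIb : In .bot := hIn _ hbot
  obtain ⟨b, hb1, _, t, ht⟩ := h.dec .bot a₀ hIb (le_refl a₀)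
    (le_trans (Nat.mul_le_mul_right c (by omega)) hroom)
  cases t with
  | true => exact h.bot _ hIb ht
  | false => exact sem_deriv h hc R hR hK hroom hL hIn hΓ _ hbot b hb1 ht

end AcFrege
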