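import Pool.Agent.Work.MP_c07f0d_lc.AC.StageOne
import Pool.Agent.Work.MP_c07f0d_lc.AC.Sound
import Pool.Agent.Work.MP_c07f0d_lc.AC.Subf
import Pool.Agent.Work.MP_c07f0d_lc.AC.SemOfLev
import Pool.Agent.Work.MP_c07f0d_lc.AC.BaseLev
import Pool.Agent.Work.MP_c07f0d_lc.AC.AxVal
import Pool.Agent.Work.MP_c07f0d_lc.AC.LevIter

/-!
# The integer core of the lower bound
-/

set_option linter.unusedSectionVars false

namespace AcFrege

open FregeEF LineSize GridLine

private lemma exists_rsize (R : List Rule) : ∃ K, ∀ r ∈ R, rsize r ≤ K := by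
  refine ⟨(R.map rsize).sum, fun r hr => ?_⟩
  exact List.single_le_sum (by simp) _ (List.mem_map_of_mem hr)

private lemma free_ident_card {N : ℕ} : (free (ident : Mt (Fin N))).card = N := by
  have h1 : free (ident : Mt (Fin N)) = Finset.univ := by
    ext v
    rw [mem_free]
    simp [ident]
  rw [h1, Finset.card_univ, Fintype.card_fin]

/-- **The integer core of the lower bound.**  The constant `C₁` depends only on the Frege
system. -/
theorem core (F : FregeSystem) :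
    ∃ C₁ : ℕ, 1 ≤ C₁ ∧ ∀ d M J u k s₁ S k₀ s T : ℕ, Odd u → u ^ 5 ^ d ≤ M → 2 ≤ M → 1 ≤ J →
      28 * (2 * k + 1) ≤ J → 1 ≤ s₁ → 360 * s₁ ≤ 2 * (k + 1) ^ 2 →
      3 * (T * (64 * (S / (3 * s₁) + 1))) < 2 ^ (k₀ + 1) →
      C₁ * ((S / (3 * s₁) + 1) * k₀) ^ 4 ≤ s → T < 2 ^ s → C₁ * s ^ 2 ≤ u → 1 ≤ s →
      (∀ φ ∈ pAxioms M J, φ.size ≤ S) →
      ∀ L : List (Fm (PV M J)), IsDeriv F.rules (pAxioms M J) L → (∀ φ ∈ L, depth S φ ≤ d) →
        (subfL L).card ≤ T → Fm.bot ∉ L := by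
  classical
  obtain ⟨K, hK⟩ := exists_rsize F.rules
  refine ⟨4 * K + 100, by omega, ?_⟩
  intro d M J u k s₁ S k₀ s T hodd huM hM hJ hkJ hs₁ hks hTk hD hTs hsu hs hax L hL hdepth hT
  -- the size bound is positive
  have hS : 1 ≤ S := by
    have hv : (pAx (J := J) (fun _ : Fin 3 => (⟨0, by omega⟩ : Fin M))) ∈ pAxioms M J := by
      unfold pAxioms
      exact List.mem_map_of_mem (by simp)
    exact (size_pos _).trans (hax _ hv)
  set P := subfL L with hP
  have hPcl : PClosed P := subClosed_subfL L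
  -- stage one
  obtain ⟨σ, z, hst⟩ := stage_one (J := J) P (S := S) (k := k) (s := s₁) (k₀ := k₀) hkJ hs₁ hks (by
    refine lt_of_le_of_lt ?_ hTk
    exact Nat.mul_le_mul_left _ (Nat.mul_le_mul_right _ hT))
  set N := u ^ 5 ^ d with hN
  have hNodd : Odd N := hodd.pow
  set D := ((S / (3 * s₁) + 1) * k₀) ^ 4 with hDdef
  have hDs : D ≤ s := le_trans (Nat.le_mul_of_pos_left _ (by omega)) hD
  have hu100 : 100 * s ^ 2 ≤ u := le_trans (Nat.mul_le_mul_right _ (by omega)) hsu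
  have hss : s ≤ s ^ 2 := Nat.le_self_pow (by norm_num) s
  have huN : u ≤ N := Nat.le_self_pow (by positivity) u
  -- the bottom level
  obtain ⟨A, hlev, hA⟩ := base_lev (V := Fin N) (own := own M N) (ev := ev)
    (fun e p p' h => ev_congr e p p' h) (fun y i => rho σ z y i = true) (s := S) (k := D) hS hPcl
    (fun φ hφ hk => hst φ hφ ((kind_eq_small_iff hS).1 hk)) (c := 4 * s) (by omega)
  -- the levels
  obtain ⟨ρ, A', hfree, -, hlev', hA'⟩ := lev_iter hS hPcl (q := s) (u := u) d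
    (by omega) hodd (lt_of_le_of_lt hT hTs) ident A (by rw [free_ident_card]) hlev
  have hsem := sem_of_lev hS hPcl hlev'
  refine sem_no_bot hsem (subClosed_depth L d) F.rules F.sound hK ?_ hL ?_ ?_
  · -- the room
    show (K + 4) * (4 * s) ≤ (free ρ).card
    rw [hfree]
    refine le_trans ?_ hsu
    calc (K + 4) * (4 * s) = (4 * K + 16) * s := by ring
      _ ≤ (4 * K + 100) * s ^ 2 := Nat.mul_le_mul (by omega) hss
  · exact fun φ hφ => ⟨mem_subfL_of_mem hφ, hdepth φ hφ⟩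
  · -- the axioms are not false
    intro φ hφ hIn a _ hV
    obtain ⟨μ, hμ, -⟩ := hV
    have hsz : φ.size ≤ S := hax φ hφ
    rw [hA' φ hIn.1 (le_of_eq (depth_of_size_le hsz))] at hμ
    obtain ⟨v, -, rfl⟩ := List.mem_map.1 hφ
    obtain ⟨h1, h2⟩ := hA _ hIn.1 (kind_of_size_le hsz) false μ hμ
    refine ax_val (J := J) (c := 4 * s) hNodd huM (by omega) v σ z μ h1 fun y hy hev => ?_
    have h3 := (h2 y hy).1 hev
    cases h3

end AcFrege
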