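import Mathlib

/-!
# Parameters
-/

namespace DepthLine

/-- The largest odd number whose `B`-th power is at most `M`. -/
lemma exists_odd_root {B : ℕ} (hB : 1 ≤ B) {M : ℕ} (hM : 1 ≤ M) :
    ∃ u : ℕ, Odd u ∧ u ^ B ≤ M ∧ M < (u + 2) ^ B := by
  classical
  have hex : ∃ u : ℕ, Odd u ∧ u ^ B ≤ M := ⟨1, odd_one, by simpa using hM⟩
  set P : ℕ → Prop := fun u => Odd u ∧ u ^ B ≤ M with hP
  have h1 : P (Nat.findGreatest P M) :=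
    Nat.findGreatest_spec (P := P) hM ⟨odd_one, by simpa using hM⟩
  refine ⟨Nat.findGreatest P M, h1.1, h1.2, ?_⟩
  by_contra hcon
  push Not at hcon
  set u := Nat.findGreatest P M with hu
  have h2 : P (u + 2) := ⟨by
    have := h1.1
    rcases this with ⟨k, hk⟩
    exact ⟨k + 1, by omega⟩, hcon⟩
  have h3 : u + 2 ≤ M := (Nat.le_self_pow (by omega) _).trans hcon
  have h4 := Nat.le_findGreatest h3 h2
  omega

/-- The parameters of the lower bound. -/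
theorem exists_par (q : ℕ) :
    ∃ δ : ℝ, 0 < δ ∧ ∀ C : ℕ, 1 ≤ C → ∃ U : ℕ, ∀ B : ℕ, 1 ≤ B → ∀ M n : ℕ, U ^ B ≤ M → 1 ≤ n →
      n ≤ M ^ (q + 5) → ∀ T : ℕ, (T : ℝ) ≤ 2 ^ ((n : ℝ) ^ (δ / B)) →
      ∃ u k₀ s : ℕ, Odd u ∧ C ≤ u ∧ u ^ B ≤ M ∧ 1 ≤ k₀ ∧ C * (T + 1) < 2 ^ k₀ ∧
        s = C * (C * k₀) ^ 4 ∧ C * (T + 1) < 2 ^ s ∧ C * s ^ 2 ≤ u := by
  refine ⟨1 / (16 * ((q : ℝ) + 5)), by positivity, fun C hC => ?_⟩
  set A : ℕ := C ^ 11 * (C + 3) ^ 8 with hA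
  set U : ℕ := A ^ 2 + 2 * A + C + 4 with hU
  refine ⟨U + 2, fun B hB M n hM hn hnM T hT => ?_⟩
  have hBr : (1 : ℝ) ≤ (B : ℝ) := by exact_mod_cast hB
  set δ : ℝ := 1 / (16 * ((q : ℝ) + 5)) / B with hδ
  have hδ0 : 0 < δ := by positivity
  have hM1 : 1 ≤ M := (Nat.one_le_pow _ _ (by omega)).trans hM
  obtain ⟨u, hodd, huM, hMu⟩ := exists_odd_root hB hM1
  have hUu : U ≤ u := by
    by_contra hcon
    push Not at hcon
    have h1 : (u + 2) ^ B ≤ (U + 2) ^ B := Nat.pow_le_pow_left (by omega) _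
    omega
  set t : ℝ := (n : ℝ) ^ δ with ht
  have hnr : (1 : ℝ) ≤ (n : ℝ) := by exact_mod_cast hn
  have ht1 : 1 ≤ t := Real.one_le_rpow hnr hδ0.le
  have ht16 : t ^ 16 ≤ (u : ℝ) + 2 := by
    have hMr : (M : ℝ) ≤ ((u : ℝ) + 2) ^ B := by exact_mod_cast hMu.le
    have hMr0 : (0 : ℝ) ≤ (M : ℝ) := by positivity
    have h1 : (n : ℝ) ≤ (((u : ℝ) + 2) ^ B) ^ (q + 5) := by
      refine le_trans ?_ (pow_le_pow_left₀ hMr0 hMr _)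
      exact_mod_cast hnM
    have h2 : t ≤ ((((u : ℝ) + 2) ^ B) ^ (q + 5)) ^ δ :=
      Real.rpow_le_rpow (by positivity) h1 hδ0.le
    have hu0 : (0 : ℝ) ≤ (u : ℝ) + 2 := by positivity
    have h3 : ((((u : ℝ) + 2) ^ B) ^ (q + 5)) ^ δ = ((u : ℝ) + 2) ^ ((1 : ℝ) / 16) := by
      rw [← pow_mul, ← Real.rpow_natCast, ← Real.rpow_mul hu0]
      congr 1
      rw [hδ]
      push_cast
      field_simp
    rw [h3] at h2
    calc t ^ 16 ≤ (((u : ℝ) + 2) ^ ((1 : ℝ) / 16)) ^ 16 := pow_le_pow_left₀ (by positivity) h2 _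
      _ = (u : ℝ) + 2 := by
        rw [← Real.rpow_natCast, ← Real.rpow_mul hu0]
        norm_num
  set k₀ : ℕ := ⌊t⌋₊ + C + 2 with hk₀
  have hk₀r : (k₀ : ℝ) ≤ ((C : ℝ) + 3) * t := by
    have h1 : ((⌊t⌋₊ : ℕ) : ℝ) ≤ t := Nat.floor_le (by linarith)
    have hC0 : (0 : ℝ) ≤ (C : ℝ) := by positivity
    rw [hk₀]
    push_cast
    nlinarith
  have hCT : C * (T + 1) < 2 ^ k₀ := by
    have h1 : t < (⌊t⌋₊ : ℝ) + 1 := Nat.lt_floor_add_one t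
    have h2 : (T : ℝ) ≤ 2 ^ (⌊t⌋₊ + 1) := by
      refine hT.trans ?_
      rw [← Real.rpow_natCast]
      refine Real.rpow_le_rpow_of_exponent_le (by norm_num) ?_
      push_cast
      exact h1.le
    have h3 : T ≤ 2 ^ (⌊t⌋₊ + 1) := by exact_mod_cast h2
    have h4 : C < 2 ^ C := Nat.lt_two_pow_self
    have h5 : 1 ≤ 2 ^ (⌊t⌋₊ + 1) := Nat.one_le_two_pow
    have h6 : 2 ^ k₀ = 2 ^ C * (2 * 2 ^ (⌊t⌋₊ + 1)) := by
      rw [hk₀, show ⌊t⌋₊ + C + 2 = C + (⌊t⌋₊ + 1 + 1) by ring, pow_add, pow_succ 2 (⌊t⌋₊ + 1)]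
      ring
    rw [h6]
    calc C * (T + 1) ≤ C * (2 * 2 ^ (⌊t⌋₊ + 1)) := Nat.mul_le_mul_left _ (by omega)
      _ < 2 ^ C * (2 * 2 ^ (⌊t⌋₊ + 1)) := Nat.mul_lt_mul_of_pos_right h4 (by omega)
  have hk1 : 1 ≤ k₀ := by omega
  set s : ℕ := C * (C * k₀) ^ 4 with hs
  have hks : k₀ ≤ s := by
    have h1 : k₀ ≤ C * k₀ := Nat.le_mul_of_pos_left _ hC
    have h2 : C * k₀ ≤ (C * k₀) ^ 4 := Nat.le_self_pow (by norm_num) _
    have h3 : (C * k₀) ^ 4 ≤ s := Nat.le_mul_of_pos_left _ hC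
    omega
  refine ⟨u, k₀, s, hodd, by omega, huM, hk1, hCT, hs, hCT.trans_le (Nat.pow_le_pow_right (by norm_num) hks), ?_⟩
  have hr : ((C * s ^ 2 : ℕ) : ℝ) ≤ (u : ℝ) := by
    have e1 : ((C * s ^ 2 : ℕ) : ℝ) = (C : ℝ) ^ 11 * (k₀ : ℝ) ^ 8 := by
      rw [hs]
      push_cast
      ring
    have e2 : (C : ℝ) ^ 11 * (k₀ : ℝ) ^ 8 ≤ (A : ℝ) * t ^ 8 := by
      rw [hA]
      push_cast
      calc (C : ℝ) ^ 11 * (k₀ : ℝ) ^ 8 ≤ (C : ℝ) ^ 11 * (((C : ℝ) + 3) * t) ^ 8 :=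
            mul_le_mul_of_nonneg_left (pow_le_pow_left₀ (by positivity) hk₀r _) (by positivity)
        _ = (C : ℝ) ^ 11 * ((C : ℝ) + 3) ^ 8 * t ^ 8 := by ring
    rw [e1]
    refine e2.trans ?_
    have hU' : ((A : ℝ) ^ 2 + 2 * A + C + 4) ≤ (u : ℝ) := by exact_mod_cast hUu
    have hA0 : (0 : ℝ) ≤ (A : ℝ) := by positivity
    have hC0 : (0 : ℝ) ≤ (C : ℝ) := by positivity
    refine abs_le_of_sq_le_sq' ?_ (by positivity) |>.2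
    have e3 : ((A : ℝ) * t ^ 8) ^ 2 = (A : ℝ) ^ 2 * t ^ 16 := by ring
    rw [e3]
    have h7 : (A : ℝ) ^ 2 * t ^ 16 ≤ (A : ℝ) ^ 2 * ((u : ℝ) + 2) :=
      mul_le_mul_of_nonneg_left ht16 (by positivity)
    nlinarith [sq_nonneg ((A : ℝ) - 1)]
  exact_mod_cast hr

/-- The parameters of the decomposition of the formulas of size at most `C * J ^ 2`. -/
lemma exists_split {J : ℕ} (hJ : 784 ≤ J) (C : ℕ) :
    ∃ k s₁ : ℕ, 28 * (2 * k + 1) ≤ J ∧ 1 ≤ s₁ ∧ 360 * s₁ ≤ 2 * (k + 1) ^ 2 ∧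
      C * J ^ 2 / (3 * s₁) + 1 ≤ 1505280 * C + 1 := by
  set a := J / 56 with ha
  have ha14 : 14 ≤ a := by omega
  have h56 : 56 * a ≤ J := by omega
  have hJa : J ≤ 112 * a := by omega
  set s := a ^ 2 / 180 with hs
  have ha2 : 196 ≤ a ^ 2 := by nlinarith
  have hs1 : 1 ≤ s := by omega
  have hs180 : 180 * s ≤ a ^ 2 := by omega
  have hs360 : a ^ 2 ≤ 360 * s := by omega
  refine ⟨a - 1, s, by omega, hs1, ?_, ?_⟩
  · have : a - 1 + 1 = a := by omega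
    rw [this]
    omega
  · have h1 : J ^ 2 ≤ (112 * a) ^ 2 := Nat.pow_le_pow_left hJa 2
    have h2 : J ^ 2 ≤ 4515840 * s := by nlinarith
    have h3 : C * J ^ 2 ≤ (1505280 * C) * (3 * s) := by nlinarith
    have h4 : C * J ^ 2 / (3 * s) ≤ 1505280 * C :=
      Nat.div_le_of_le_mul (by rw [mul_comm (3 * s)]; exact h3)
    omega

/-- The number `n` of variables and the multiplicity `J = M ^ q`. -/
lemma pow_le_sq {ε : ℝ} (h0 : 0 < ε) (h1 : ε < 1) {q : ℕ} (hq : 6 / ε ≤ q) :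
    ∃ M₀ : ℕ, ∀ M n : ℕ, M₀ ≤ M → n ≤ 3 * M ^ 3 * M ^ q →
      (n : ℝ) ^ (2 - ε) ≤ ((M ^ q : ℕ) : ℝ) ^ 2 := by
  obtain ⟨M₀, hM₀⟩ := exists_nat_ge ((9 : ℝ) ^ (1 / (3 * ε)))
  refine ⟨max 1 M₀, fun M n hM hn => ?_⟩
  have hM1 : 1 ≤ M := (le_max_left _ _).trans hM
  have hM2 : M₀ ≤ M := (le_max_right _ _).trans hM
  have hMr : (1 : ℝ) ≤ (M : ℝ) := by exact_mod_cast hM1
  have hM0 : (0 : ℝ) < (M : ℝ) := by linarith
  have h9 : (9 : ℝ) ≤ (M : ℝ) ^ (3 * ε) := by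
    have h2 : (9 : ℝ) ^ (1 / (3 * ε)) ≤ (M : ℝ) := hM₀.trans (by exact_mod_cast hM2)
    calc (9 : ℝ) = ((9 : ℝ) ^ (1 / (3 * ε))) ^ (3 * ε) := by
          rw [← Real.rpow_mul (by norm_num)]
          have : 1 / (3 * ε) * (3 * ε) = 1 := by field_simp
          rw [this, Real.rpow_one]
      _ ≤ (M : ℝ) ^ (3 * ε) := Real.rpow_le_rpow (by positivity) h2 (by positivity)
  have hnr : (n : ℝ) ≤ 3 * (M : ℝ) ^ ((q : ℝ) + 3) := by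
    have h2 : (n : ℝ) ≤ 3 * (M : ℝ) ^ 3 * (M : ℝ) ^ q := by exact_mod_cast hn
    refine h2.trans (le_of_eq ?_)
    rw [Real.rpow_add hM0, Real.rpow_natCast]
    norm_num
    ring
  have h2ε : (0 : ℝ) ≤ 2 - ε := by linarith
  calc (n : ℝ) ^ (2 - ε) ≤ (3 * (M : ℝ) ^ ((q : ℝ) + 3)) ^ (2 - ε) :=
        Real.rpow_le_rpow (by positivity) hnr h2ε
    _ = 3 ^ (2 - ε) * (M : ℝ) ^ (((q : ℝ) + 3) * (2 - ε)) := by
        rw [Real.mul_rpow (by norm_num) (by positivity), ← Real.rpow_mul hM0.le]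
    _ ≤ (M : ℝ) ^ (3 * ε) * (M : ℝ) ^ (((q : ℝ) + 3) * (2 - ε)) := by
        refine mul_le_mul_of_nonneg_right (le_trans ?_ h9) (by positivity)
        calc (3 : ℝ) ^ (2 - ε) ≤ 3 ^ (2 : ℝ) :=
              Real.rpow_le_rpow_of_exponent_le (by norm_num) (by linarith)
          _ = 9 := by norm_num
    _ = (M : ℝ) ^ (3 * ε + ((q : ℝ) + 3) * (2 - ε)) := by rw [← Real.rpow_add hM0]
    _ ≤ (M : ℝ) ^ ((2 * q : ℕ) : ℝ) := by
        refine Real.rpow_le_rpow_of_exponent_le hMr ?_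
        have h3 : 6 ≤ (q : ℝ) * ε := by rwa [div_le_iff₀ h0] at hq
        push_cast
        nlinarith
    _ = ((M ^ q : ℕ) : ℝ) ^ 2 := by
        rw [Real.rpow_natCast]
        push_cast
        rw [← pow_mul, mul_comm]

end DepthLine
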