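import Pool.Agent.Work.MP_c07f0d_lc.AC.Subf
import Pool.Agent.Work.MP_c07f0d_lc.AC.Par

/-!
# The final theorem from the integer core
-/

set_option linter.unusedSectionVars false

namespace AcFrege

open FregeEF LineSize GridLine DepthLine

/-- The integer core of the lower bound. -/
def CoreLower (F : FregeSystem) : Prop :=
  ∃ C₁ : ℕ, 1 ≤ C₁ ∧ ∀ d M J u k s₁ S k₀ s T : ℕ, Odd u → u ^ 5 ^ d ≤ M → 2 ≤ M → 1 ≤ J →
    28 * (2 * k + 1) ≤ J → 1 ≤ s₁ → 360 * s₁ ≤ 2 * (k + 1) ^ 2 →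
    3 * (T * (64 * (S / (3 * s₁) + 1))) < 2 ^ (k₀ + 1) →
    C₁ * ((S / (3 * s₁) + 1) * k₀) ^ 4 ≤ s → T < 2 ^ s → C₁ * s ^ 2 ≤ u → 1 ≤ s →
    (∀ φ ∈ pAxioms M J, φ.size ≤ S) →
    ∀ L : List (Fm (PV M J)), IsDeriv F.rules (pAxioms M J) L → (∀ φ ∈ L, depth S φ ≤ d) →
      (subfL L).card ≤ T → Fm.bot ∉ L

/-- The upper bound. -/
def UpperP (F : FregeSystem) : Prop :=
  ∃ c : ℕ, ∀ M J : ℕ, 2 ≤ M → 1 ≤ J → ∃ L, IsDeriv F.rules (pAxioms M J) L ∧ Fm.bot ∈ L ∧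
    L.length ≤ c * Fintype.card (PV M J) ^ 3 ∧
    ∀ φ ∈ L, φ.size ≤ c * Fintype.card (PV M J) ^ 2

/-- The final theorem. -/
theorem final (C₀ : ℕ) (hsize : ∀ M J : ℕ, 2 ≤ M → 1 ≤ J → ∀ φ ∈ pAxioms M J, φ.size ≤ C₀ * J ^ 2)
    (hcard : ∀ M J : ℕ, Fintype.card (PV M J) = 3 * M ^ 2 * (M - 1) * J)
    (hcore : ∀ F, CoreLower F) (hupper : ∀ F, UpperP F)
    (ε : ℝ) (h0 : 0 < ε) (h1 : ε < 1) :
    ∃ (q : ℕ) (δ : ℝ), 0 < δ ∧ ∀ (C : ℕ) (F : FregeSystem), C₀ ≤ C → ∃ c : ℕ, ∀ M : ℕ, c ≤ M →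
      (Fintype.card (PV M (M ^ q)) : ℝ) ^ (2 - ε) ≤ ((M ^ q : ℕ) : ℝ) ^ 2 ∧
      (∀ φ ∈ pAxioms M (M ^ q), φ.size ≤ C₀ * (M ^ q) ^ 2) ∧
      (∃ L, IsDeriv F.rules (pAxioms M (M ^ q)) L ∧ Fm.bot ∈ L ∧
        L.length ≤ c * Fintype.card (PV M (M ^ q)) ^ 3 ∧
        ∀ φ ∈ L, φ.size ≤ c * Fintype.card (PV M (M ^ q)) ^ 2) ∧
      (∀ d : ℕ, c ^ 5 ^ d ≤ M → ∀ L, IsDeriv F.rules (pAxioms M (M ^ q)) L → Fm.bot ∈ L →
        (∀ φ ∈ L, depth (C * (M ^ q) ^ 2) φ ≤ d) →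
        (2 : ℝ) ^ ((Fintype.card (PV M (M ^ q)) : ℝ) ^ (δ / 5 ^ d)) < (subfL L).card) := by
  obtain ⟨q₀, hq₀⟩ := exists_nat_ge (6 / ε)
  set q := q₀ + 1 with hqdef
  have hq : 6 / ε ≤ (q : ℝ) := by
    rw [hqdef]
    push_cast
    linarith
  obtain ⟨M₁, hM₁⟩ := pow_le_sq h0 h1 hq
  obtain ⟨δ, hδ, hpar⟩ := exists_par q
  refine ⟨q, δ, hδ, fun C F hC => ?_⟩
  obtain ⟨c₁, hc₁⟩ := hupper F
  obtain ⟨C₁, hC₁, hcoreF⟩ := hcore F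
  set m₁ := 1505280 * C + 1 with hm₁
  set C' := C₁ + 192 * m₁ with hC'
  obtain ⟨U, hU⟩ := hpar C' (by omega)
  refine ⟨c₁ + M₁ + U + 784, fun M hM => ?_⟩
  have hM2 : 2 ≤ M := by omega
  have hJ : 784 ≤ M ^ q := by
    calc 784 ≤ M := by omega
      _ ≤ M ^ q := Nat.le_self_pow (by omega) _
  have hJ1 : 1 ≤ M ^ q := by omega
  have hn : Fintype.card (PV M (M ^ q)) ≤ 3 * M ^ 3 * M ^ q := by
    rw [hcard]
    refine Nat.mul_le_mul_right _ ?_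
    calc 3 * M ^ 2 * (M - 1) ≤ 3 * M ^ 2 * M := Nat.mul_le_mul_left _ (Nat.sub_le _ _)
      _ = 3 * M ^ 3 := by ring
  refine ⟨hM₁ M _ (by omega) hn, hsize M _ hM2 hJ1, ?_, ?_⟩
  · obtain ⟨L, h1, h2, h3, h4⟩ := hc₁ M _ hM2 hJ1
    exact ⟨L, h1, h2, h3.trans (Nat.mul_le_mul_right _ (by omega)),
      fun φ hφ => (h4 φ hφ).trans (Nat.mul_le_mul_right _ (by omega))⟩
  intro d hd L hL hbot hdepth
  by_contra hcon
  push Not at hcon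
  have hn1 : 1 ≤ Fintype.card (PV M (M ^ q)) := by
    rw [hcard]
    exact Nat.mul_pos (Nat.mul_pos (Nat.mul_pos (by norm_num) (Nat.pow_pos (by omega)))
      (by omega)) (by omega)
  have hn5 : Fintype.card (PV M (M ^ q)) ≤ M ^ (q + 5) := by
    refine hn.trans ?_
    have h3 : 3 ≤ M ^ 2 := le_trans (by norm_num) (Nat.pow_le_pow_left hM2 2)
    calc 3 * M ^ 3 * M ^ q ≤ M ^ 2 * M ^ 3 * M ^ q :=
          Nat.mul_le_mul_right _ (Nat.mul_le_mul_right _ h3)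
      _ = M ^ (q + 5) := by ring
  have hdU : U ^ 5 ^ d ≤ M := (Nat.pow_le_pow_left (by omega) _).trans hd
  set T := (subfL L).card with hTdef
  obtain ⟨u, k₀, s, hodd, _, huM, hk₀, hT, hs, hTs, hsu⟩ :=
    hU (5 ^ d) (Nat.one_le_pow _ _ (by norm_num)) M _ hdU hn1 hn5 T (by
      refine hcon.trans (le_of_eq ?_)
      push_cast
      rfl)
  obtain ⟨k, s₁, hk, hs₁, hks, hm⟩ := exists_split hJ C
  set m := C * (M ^ q) ^ 2 / (3 * s₁) + 1 with hmdef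
  refine hcoreF d M (M ^ q) u k s₁ (C * (M ^ q) ^ 2) k₀ s T hodd huM hM2 hJ1 hk hs₁ hks ?_ ?_
    ?_ ?_ ?_ ?_ L hL hdepth le_rfl hbot
  · rw [← hmdef]
    have h2 : 3 * (T * (64 * m)) ≤ C' * (T + 1) := by
      have h3 : 3 * (T * (64 * m)) = (192 * m) * T := by ring
      rw [h3]
      refine Nat.mul_le_mul ?_ (Nat.le_succ _)
      have : 192 * m ≤ 192 * m₁ := Nat.mul_le_mul_left _ hm
      omega
    have h4 : 2 ^ k₀ ≤ 2 ^ (k₀ + 1) := Nat.pow_le_pow_right (by norm_num) (by omega)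
    omega
  · rw [← hmdef, hs]
    have h2 : m ≤ C' := by omega
    refine Nat.mul_le_mul (by omega) (Nat.pow_le_pow_left (Nat.mul_le_mul_right _ h2) _)
  · have h2 : T ≤ C' * (T + 1) :=
      (Nat.le_succ _).trans (Nat.le_mul_of_pos_left _ (by omega))
    exact lt_of_le_of_lt h2 hTs
  · refine le_trans (Nat.mul_le_mul_right _ ?_) hsu
    omega
  · rw [hs]
    have h2 : 1 ≤ C' := by omega
    have h3 : 1 ≤ (C' * k₀) ^ 4 := Nat.one_le_pow _ _ (Nat.mul_pos (by omega) (by omega))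
    exact Nat.mul_pos (by omega) (by omega)
  · intro φ hφ
    exact (hsize M _ hM2 hJ1 φ hφ).trans (Nat.mul_le_mul_right _ hC)

end AcFrege
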