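import Pool.Agent.Work.MP_c07f0d_lc.Defs
import Mathlib.Order.Basic

/-!
# Abstract local evaluations of formulas
-/

namespace AcFrege

open FregeEF

/-- A set of formulas closed under subformulas. -/
structure SubClosed {α : Type} (In : Fm α → Prop) : Prop where
  neg : ∀ φ, In (.neg φ) → In φ
  and : ∀ φ ψ, In (.and φ ψ) → In φ ∧ In ψ
  or : ∀ φ ψ, In (.or φ ψ) → In φ ∧ In ψ
  imp : ∀ φ ψ, In (.imp φ ψ) → In φ ∧ In ψ

/-- A local evaluation of the formulas of a set `In`: `V φ t a` means that `φ` has the value `t`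
at the state `a`.  Values persist, are unique, are taken at states close to `a₀`, can be reached
at the cost `c` as long as there is room, and respect the truth tables. -/
structure Sem {α S : Type} [Preorder S] (room : S → ℕ) (a₀ : S) (c : ℕ) (In : Fm α → Prop)
    (V : Fm α → Bool → S → Prop) : Prop where
  mono : ∀ φ t a b, In φ → a ≤ b → V φ t a → V φ t b
  uniq : ∀ φ a, In φ → V φ true a → V φ false a → False
  small : ∀ φ t a, In φ → a₀ ≤ a → V φ t a →
    ∃ b, a₀ ≤ b ∧ b ≤ a ∧ V φ t b ∧ room a₀ ≤ room b + c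
  dec : ∀ φ a, In φ → a₀ ≤ a → 3 * c ≤ room a →
    ∃ b, a ≤ b ∧ room a ≤ room b + c ∧ ∃ t, V φ t b
  bot : ∀ a, In .bot → V .bot true a → False
  neg : ∀ φ a t u, In (.neg φ) → V (.neg φ) t a → V φ u a → t = !u
  and : ∀ φ ψ a t u v, In (.and φ ψ) → V (.and φ ψ) t a → V φ u a → V ψ v a → t = (u && v)
  or : ∀ φ ψ a t u v, In (.or φ ψ) → V (.or φ ψ) t a → V φ u a → V ψ v a → t = (u || v)
  imp : ∀ φ ψ a t u v, In (.imp φ ψ) → V (.imp φ ψ) t a → V φ u a → V ψ v a → t = (!u || v)

/-- The size of a rule. -/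
def rsize (r : Rule) : ℕ := lsize (r.concl :: r.prem)

end AcFrege
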