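import Pool.Agent.Work.MP_c07f0d_lc.AC.AcMat
import Pool.Agent.Work.MP_c07f0d_lc.AC.ACDefs
import Pool.Agent.Work.MP_c07f0d_lc.AC.SemDef

/-!
# Leaf sets of formulas: definitions
-/

namespace AcFrege

open FregeEF

variable {α V : Type} [Fintype V] [DecidableEq V]

/-- The signed leaves of the block of disjunctions and implications at the root. -/
def orLeaves (s : ℕ) : Fm α → List (Bool × Fm α)
  | .or a b => if (Fm.or a b).size ≤ s then [(true, .or a b)] else orLeaves s a ++ orLeaves s b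
  | .imp a b => if (Fm.imp a b).size ≤ s then [(true, .imp a b)] else (false, a) :: orLeaves s b
  | .var x => [(true, .var x)]
  | .bot => [(true, .bot)]
  | .neg a => [(true, .neg a)]
  | .and a b => [(true, .and a b)]

/-- The leaves of the block of conjunctions at the root. -/
def andLeaves (s : ℕ) : Fm α → List (Fm α)
  | .and a b => if (Fm.and a b).size ≤ s then [.and a b] else andLeaves s a ++ andLeaves s b
  | .var x => [.var x]
  | .bot => [.bot]
  | .neg a => [.neg a]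
  | .or a b => [.or a b]
  | .imp a b => [.imp a b]

/-- `φ` has the value `t` at `ν`. -/
def Val (A : Fm α → Bool → Set (Mt V)) (φ : Fm α) (t : Bool) (ν : Mt V) : Prop :=
  ∃ μ ∈ A φ t, μ ≤ ν

/-- The leaf sets `A φ true`, `A φ false` evaluate the formulas `φ` of `P` with depth at most `j`
above the base `ρ`, at the cost `c`. -/
structure Lev (P : Finset (Fm α)) (s j c : ℕ) (ρ : Mt V) (A : Fm α → Bool → Set (Mt V)) : Prop where
  cost : ∀ φ ∈ P, depth s φ ≤ j → ∀ t, ∀ μ ∈ A φ t, Compat μ ρ → AcFrege.cost ρ μ ≤ c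
  inc : ∀ φ ∈ P, depth s φ ≤ j → ∀ μ ∈ A φ true, ∀ μ' ∈ A φ false, ¬ Compat μ μ'
  ex : ∀ φ ∈ P, depth s φ ≤ j → ∀ ν, ρ ≤ ν → 3 * c ≤ (free ν).card →
    ∃ t, ∃ μ ∈ A φ t, Compat μ ν
  bot : A .bot true = ∅
  small_neg : ∀ a, .neg a ∈ P → kind s (.neg a) = .small → ∀ ν t u,
    Val A (.neg a) t ν → Val A a u ν → t = !u
  small_and : ∀ a b, .and a b ∈ P → kind s (.and a b) = .small → ∀ ν t u v,
    Val A (.and a b) t ν → Val A a u ν → Val A b v ν → t = (u && v)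
  small_or : ∀ a b, .or a b ∈ P → kind s (.or a b) = .small → ∀ ν t u v,
    Val A (.or a b) t ν → Val A a u ν → Val A b v ν → t = (u || v)
  small_imp : ∀ a b, .imp a b ∈ P → kind s (.imp a b) = .small → ∀ ν t u v,
    Val A (.imp a b) t ν → Val A a u ν → Val A b v ν → t = (!u || v)
  neg : ∀ a, .neg a ∈ P → kind s (.neg a) = .neg → depth s (.neg a) ≤ j → ∀ t,
    A (.neg a) t = A a (!t)
  orT : ∀ φ ∈ P, depth s φ ≤ j → kind s φ = .or ∨ kind s φ = .imp → ∀ μ ∈ A φ true,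
    ∃ l ∈ orLeaves s φ, ∃ τ ∈ A l.2 l.1, τ ≤ μ
  orF : ∀ φ ∈ P, depth s φ ≤ j → kind s φ = .or ∨ kind s φ = .imp → ∀ μ ∈ A φ false,
    ∀ l ∈ orLeaves s φ, ∀ τ ∈ A l.2 l.1, ¬ Compat τ μ
  andF : ∀ φ ∈ P, depth s φ ≤ j → kind s φ = .and → ∀ μ ∈ A φ false,
    ∃ χ ∈ andLeaves s φ, ∃ τ ∈ A χ false, τ ≤ μ
  andT : ∀ φ ∈ P, depth s φ ≤ j → kind s φ = .and → ∀ μ ∈ A φ true,
    ∀ χ ∈ andLeaves s φ, ∀ τ ∈ A χ false, ¬ Compat τ μ

/-- `P` is closed under subformulas. -/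
def PClosed (P : Finset (Fm α)) : Prop := SubClosed fun φ => φ ∈ P

end AcFrege
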