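import Pool.Agent.Work.MP_c07f0d_lc.AC.LevDef
import Pool.Agent.Work.MP_c07f0d_lc.AC.Subf
import Pool.Agent.Work.MP_c07f0d_lc.AC.AcSwitch

/-!
# One more level of leaf sets
-/

namespace AcFrege

open FregeEF

variable {α V : Type} [Fintype V] [DecidableEq V]

variable {P : Finset (Fm α)} {s j c l : ℕ} {ρ ρ' : Mt V} {A B : Fm α → Bool → Set (Mt V)}

theorem mem_of_mem_orLeaves (hP : PClosed P) : ∀ {φ : Fm α}, φ ∈ P → ∀ {x : Bool × Fm α},
    x ∈ orLeaves s φ → x.2 ∈ P
  | .or a b, hφ, x, hx => by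
    by_cases h1 : (Fm.or a b).size ≤ s
    · rw [orLeaves, if_pos h1, List.mem_singleton] at hx
      rw [hx]; exact hφ
    · rw [orLeaves_or (by omega), List.mem_append] at hx
      rcases hx with hx | hx
      · exact mem_of_mem_orLeaves hP (hP.or a b hφ).1 hx
      · exact mem_of_mem_orLeaves hP (hP.or a b hφ).2 hx
  | .imp a b, hφ, x, hx => by
    by_cases h1 : (Fm.imp a b).size ≤ s
    · rw [orLeaves, if_pos h1, List.mem_singleton] at hx
      rw [hx]; exact hφ
    · rw [orLeaves_imp (by omega), List.mem_cons] at hx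
      rcases hx with hx | hx
      · rw [hx]; exact (hP.imp a b hφ).1
      · exact mem_of_mem_orLeaves hP (hP.imp a b hφ).2 hx
  | .var y, hφ, x, hx => by
    rw [orLeaves, List.mem_singleton] at hx
    rw [hx]; exact hφ
  | .bot, hφ, x, hx => by
    rw [orLeaves, List.mem_singleton] at hx
    rw [hx]; exact hφ
  | .neg a, hφ, x, hx => by
    rw [orLeaves, List.mem_singleton] at hx
    rw [hx]; exact hφ
  | .and a b, hφ, x, hx => by
    rw [orLeaves, List.mem_singleton] at hx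
    rw [hx]; exact hφ

theorem mem_of_mem_andLeaves (hP : PClosed P) : ∀ {φ : Fm α}, φ ∈ P → ∀ {χ : Fm α},
    χ ∈ andLeaves s φ → χ ∈ P
  | .and a b, hφ, x, hx => by
    by_cases h1 : (Fm.and a b).size ≤ s
    · rw [andLeaves, if_pos h1, List.mem_singleton] at hx
      rw [hx]; exact hφ
    · rw [andLeaves_and (by omega), List.mem_append] at hx
      rcases hx with hx | hx
      · exact mem_of_mem_andLeaves hP (hP.and a b hφ).1 hx
      · exact mem_of_mem_andLeaves hP (hP.and a b hφ).2 hx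
  | .var y, hφ, x, hx => by
    rw [andLeaves, List.mem_singleton] at hx
    rw [hx]; exact hφ
  | .bot, hφ, x, hx => by
    rw [andLeaves, List.mem_singleton] at hx
    rw [hx]; exact hφ
  | .neg a, hφ, x, hx => by
    rw [andLeaves, List.mem_singleton] at hx
    rw [hx]; exact hφ
  | .or a b, hφ, x, hx => by
    rw [andLeaves, List.mem_singleton] at hx
    rw [hx]; exact hφ
  | .imp a b, hφ, x, hx => by
    rw [andLeaves, List.mem_singleton] at hx
    rw [hx]; exact hφ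

/-- The kinds of the formulas that start a block. -/
def IsBlk (s : ℕ) (φ : Fm α) : Prop := kind s φ = .and ∨ kind s φ = .or ∨ kind s φ = .imp

/-- The value of a block that is forced by one leaf. -/
def sg (s : ℕ) (φ : Fm α) : Bool := if kind s φ = .and then false else true

/-- The terms of a block. -/
def blk (s : ℕ) (A : Fm α → Bool → Set (Mt V)) (φ : Fm α) : Set (Mt V) :=
  if kind s φ = .and then {τ | ∃ χ ∈ andLeaves s φ, τ ∈ A χ false}
  else {τ | ∃ x ∈ orLeaves s φ, τ ∈ A x.2 x.1}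

/-- The new leaf sets. -/
def nxtL (s j : ℕ) (A B : Fm α → Bool → Set (Mt V)) : Fm α → Bool → Set (Mt V)
  | .neg a, t => if (Fm.neg a).size ≤ s then A (.neg a) t else nxtL s j A B a (!t)
  | .var x, t => A (.var x) t
  | .bot, t => A .bot t
  | .and a b, t => if depth s (.and a b) = j + 1 then B (.and a b) t else A (.and a b) t
  | .or a b, t => if depth s (.or a b) = j + 1 then B (.or a b) t else A (.or a b) t
  | .imp a b, t => if depth s (.imp a b) = j + 1 then B (.imp a b) t else A (.imp a b) t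

omit [Fintype V] [DecidableEq V] in
theorem nxtL_of_blk {φ : Fm α} (h : IsBlk s φ) (hd : depth s φ = j + 1) :
    nxtL s j A B φ = B φ := by
  funext t
  cases φ with
  | var x => simp [IsBlk, kind] at h
  | bot => simp [IsBlk, kind] at h
  | neg a =>
    simp only [IsBlk, kind] at h
    split_ifs at h <;> simp at h
  | and a b => rw [nxtL, if_pos hd]
  | or a b => rw [nxtL, if_pos hd]
  | imp a b => rw [nxtL, if_pos hd]

theorem nxtL_of_le (hP : PClosed P) (h : Lev P s j c ρ A) : ∀ {φ : Fm α}, φ ∈ P →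
    depth s φ ≤ j → nxtL s j A B φ = A φ
  | .var x, _, _ => by funext t; rw [nxtL]
  | .bot, _, _ => by funext t; rw [nxtL]
  | .and a b, _, hd => by funext t; rw [nxtL, if_neg (by omega)]
  | .or a b, _, hd => by funext t; rw [nxtL, if_neg (by omega)]
  | .imp a b, _, hd => by funext t; rw [nxtL, if_neg (by omega)]
  | .neg a, hφ, hd => by
    funext t
    rw [nxtL]
    split_ifs with h1
    · rfl
    · rw [nxtL_of_le hP h (hP.neg a hφ) ((depth_le_neg a).trans hd),
        h.neg a hφ (kind_neg (by omega)) hd]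

/-- The properties of the new leaf sets of the blocks. -/
structure NewLev (P : Finset (Fm α)) (s j c : ℕ) (ρ' : Mt V) (A B : Fm α → Bool → Set (Mt V)) :
    Prop where
  cost : ∀ φ ∈ P, IsBlk s φ → depth s φ = j + 1 → ∀ t, ∀ μ ∈ B φ t, AcFrege.cost ρ' μ ≤ c
  one : ∀ φ ∈ P, IsBlk s φ → depth s φ = j + 1 → ∀ μ ∈ B φ (sg s φ), ∃ τ ∈ blk s A φ, τ ≤ μ
  zero : ∀ φ ∈ P, IsBlk s φ → depth s φ = j + 1 → ∀ μ ∈ B φ (!sg s φ), ∀ τ ∈ blk s A φ,
    ¬ Compat τ μ
  ex : ∀ φ ∈ P, IsBlk s φ → depth s φ = j + 1 → ∀ ν, ρ' ≤ ν → 3 * c ≤ (free ν).card →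
    ∃ t, ∃ μ ∈ B φ t, Compat μ ν

theorem NewLev.inc (hN : NewLev P s j c ρ' A B) {φ : Fm α} (hφ : φ ∈ P) (hb : IsBlk s φ)
    (h0 : depth s φ = j + 1) : ∀ μ ∈ B φ true, ∀ μ' ∈ B φ false, ¬ Compat μ μ' := by
  have g1 := hN.one _ hφ hb h0
  have g2 := hN.zero _ hφ hb h0
  intro μ hμ μ' hμ' hc
  unfold sg at g1 g2
  by_cases hk : kind s φ = Kind.and
  · rw [if_pos hk] at g1 g2
    obtain ⟨τ, hτ, hτμ⟩ := g1 μ' hμ'
    exact g2 μ hμ τ hτ ((hc.mono (le_refl _) hτμ).symm)
  · rw [if_neg hk] at g1 g2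
    obtain ⟨τ, hτ, hτμ⟩ := g1 μ hμ
    exact g2 μ' hμ' τ hτ (hc.mono hτμ (le_refl _))

/-- The cases for a formula of depth at most `j + 1`. -/
theorem lev_cases {φ : Fm α} (hd : depth s φ ≤ j + 1) : depth s φ ≤ j ∨
    (IsBlk s φ ∧ depth s φ = j + 1) ∨ kind s φ = .neg := by
  by_cases h1 : depth s φ ≤ j
  · exact Or.inl h1
  · have h2 : depth s φ = j + 1 := by omega
    cases h3 : kind s φ with
    | small =>
      exfalso
      cases φ with
      | var x => simp [depth] at h2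
      | bot => simp [depth] at h2
      | neg a =>
        simp only [kind] at h3
        split_ifs at h3 with h4
        rw [depth_of_size_le h4] at h2
        omega
      | and a b =>
        simp only [kind] at h3
        split_ifs at h3 with h4
        rw [depth_of_size_le h4] at h2
        omega
      | or a b =>
        simp only [kind] at h3
        split_ifs at h3 with h4
        rw [depth_of_size_le h4] at h2
        omega
      | imp a b =>
        simp only [kind] at h3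
        split_ifs at h3 with h4
        rw [depth_of_size_le h4] at h2
        omega
    | neg => exact Or.inr (Or.inr rfl)
    | and => exact Or.inr (Or.inl ⟨Or.inl h3, h2⟩)
    | or => exact Or.inr (Or.inl ⟨Or.inr (Or.inl h3), h2⟩)
    | imp => exact Or.inr (Or.inl ⟨Or.inr (Or.inr h3), h2⟩)

/-- The basic properties of the new leaf sets. -/
theorem nxtL_good (hP : PClosed P) (h : Lev P s j c ρ A) (hρ : ρ ≤ ρ')
    (hN : NewLev P s j c ρ' A B) (φ : Fm α) : φ ∈ P → depth s φ ≤ j + 1 →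
    (∀ t, ∀ μ ∈ nxtL s j A B φ t, Compat μ ρ' → AcFrege.cost ρ' μ ≤ c) ∧
    (∀ μ ∈ nxtL s j A B φ true, ∀ μ' ∈ nxtL s j A B φ false, ¬ Compat μ μ') ∧
    (∀ ν, ρ' ≤ ν → 3 * c ≤ (free ν).card → ∃ t, ∃ μ ∈ nxtL s j A B φ t, Compat μ ν) := by
  induction φ with
  | neg a ih =>
    intro hφ hd
    by_cases h0 : depth s (.neg a) ≤ j
    · rw [nxtL_of_le hP h hφ h0]
      exact ⟨fun t μ hμ hc => (cost_anti_left hρ).trans
        (h.cost _ hφ h0 t μ hμ (hc.mono (le_refl _) hρ)), h.inc _ hφ h0,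
        fun ν hν hf => h.ex _ hφ h0 ν (hρ.trans hν) hf⟩
    · have h1 : s < (Fm.neg a).size := by
        by_contra h1
        rw [depth_of_size_le (by omega)] at h0
        omega
      have h2 : ∀ t, nxtL s j A B (.neg a) t = nxtL s j A B a (!t) := by
        intro t
        rw [nxtL, if_neg (by omega)]
      obtain ⟨g1, g2, g3⟩ := ih (hP.neg a hφ) ((depth_le_neg a).trans hd)
      simp only [h2]
      refine ⟨fun t μ hμ hc => g1 (!t) μ hμ hc, ?_, ?_⟩
      · intro μ hμ μ' hμ' hc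
        exact g2 μ' hμ' μ hμ hc.symm
      · intro ν hν hf
        obtain ⟨t, μ, hμ, hc⟩ := g3 ν hν hf
        exact ⟨!t, μ, by rw [Bool.not_not]; exact hμ, hc⟩
  | _ =>
    intro hφ hd
    rcases lev_cases hd with h0 | ⟨hb, h0⟩ | h0
    · rw [nxtL_of_le hP h hφ h0]
      exact ⟨fun t μ hμ hc => (cost_anti_left hρ).trans
        (h.cost _ hφ h0 t μ hμ (hc.mono (le_refl _) hρ)), h.inc _ hφ h0,
        fun ν hν hf => h.ex _ hφ h0 ν (hρ.trans hν) hf⟩
    · rw [nxtL_of_blk hb h0]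
      exact ⟨fun t μ hμ _ => hN.cost _ hφ hb h0 t μ hμ, hN.inc hφ hb h0, hN.ex _ hφ hb h0⟩
    · exfalso
      simp only [kind] at h0
      first
        | exact Kind.noConfusion h0
        | (split_ifs at h0)

theorem lev_next (hs : 1 ≤ s) (hP : PClosed P) (h : Lev P s j c ρ A) (hρ : ρ ≤ ρ')
    (hN : NewLev P s j c ρ' A B) : Lev P s (j + 1) c ρ' (nxtL s j A B) := by
  have small : ∀ φ ∈ P, kind s φ = .small → nxtL s j A B φ = A φ := by
    intro φ hφ hk
    apply nxtL_of_le hP h hφ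
    rw [depth_of_size_le ((kind_eq_small_iff hs).1 hk)]
    exact Nat.zero_le _
  have small' : ∀ φ ∈ P, φ.size ≤ s → nxtL s j A B φ = A φ :=
    fun φ hφ hk => small φ hφ (kind_of_size_le hk)
  have orl : ∀ φ ∈ P, depth s φ ≤ j + 1 → kind s φ = .or ∨ kind s φ = .imp →
      ∀ x ∈ orLeaves s φ, nxtL s j A B x.2 = A x.2 := by
    intro φ hφ hd hk x hx
    apply nxtL_of_le hP h (mem_of_mem_orLeaves hP hφ hx)
    have := depth_lt_of_mem_orLeaves (t := x.1) (χ := x.2) hk hx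
    omega
  have andl : ∀ φ ∈ P, depth s φ ≤ j + 1 → kind s φ = .and →
      ∀ χ ∈ andLeaves s φ, nxtL s j A B χ = A χ := by
    intro φ hφ hd hk x hx
    apply nxtL_of_le hP h (mem_of_mem_andLeaves hP hφ hx)
    have := depth_lt_of_mem_andLeaves hk hx
    omega
  constructor
  · intro φ hφ hd
    exact (nxtL_good hP h hρ hN φ hφ hd).1
  · intro φ hφ hd
    exact (nxtL_good hP h hρ hN φ hφ hd).2.1
  · intro φ hφ hd
    exact (nxtL_good hP h hρ hN φ hφ hd).2.2
  · show nxtL s j A B .bot true = ∅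
    rw [nxtL]
    exact h.bot
  · intro a ha hk ν t u
    have h1 := (kind_eq_small_iff hs).1 hk
    simp only [Fm.size] at h1
    unfold Val
    rw [small _ ha hk, small' a (hP.neg a ha) (by omega)]
    exact h.small_neg a ha hk ν t u
  · intro a b ha hk ν t u v
    have h1 := (kind_eq_small_iff hs).1 hk
    simp only [Fm.size] at h1
    unfold Val
    rw [small _ ha hk, small' a (hP.and a b ha).1 (by omega),
      small' b (hP.and a b ha).2 (by omega)]
    exact h.small_and a b ha hk ν t u v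
  · intro a b ha hk ν t u v
    have h1 := (kind_eq_small_iff hs).1 hk
    simp only [Fm.size] at h1
    unfold Val
    rw [small _ ha hk, small' a (hP.or a b ha).1 (by omega),
      small' b (hP.or a b ha).2 (by omega)]
    exact h.small_or a b ha hk ν t u v
  · intro a b ha hk ν t u v
    have h1 := (kind_eq_small_iff hs).1 hk
    simp only [Fm.size] at h1
    unfold Val
    rw [small _ ha hk, small' a (hP.imp a b ha).1 (by omega),
      small' b (hP.imp a b ha).2 (by omega)]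
    exact h.small_imp a b ha hk ν t u v
  · intro a ha hk hd t
    have h1 : s < (Fm.neg a).size := size_lt_of_kind_ne (by rw [hk]; exact Kind.noConfusion)
    rw [nxtL, if_neg (by omega)]
  · intro φ hφ hd hk μ hμ
    have g := orl φ hφ hd hk
    rcases lev_cases hd with h0 | ⟨hb, h0⟩ | h0
    · rw [nxtL_of_le hP h hφ h0] at hμ
      obtain ⟨x, hx, τ, hτ, hle⟩ := h.orT φ hφ h0 hk μ hμ
      exact ⟨x, hx, τ, by rw [g x hx]; exact hτ, hle⟩
    · rw [nxtL_of_blk hb h0] at hμ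
      have hk' : kind s φ ≠ .and := by rcases hk with hk | hk <;> rw [hk] <;> exact Kind.noConfusion
      have g1 := hN.one φ hφ hb h0
      unfold sg blk at g1
      rw [if_neg hk', if_neg hk'] at g1
      obtain ⟨τ, ⟨x, hx, hτ⟩, hle⟩ := g1 μ hμ
      exact ⟨x, hx, τ, by rw [g x hx]; exact hτ, hle⟩
    · rcases hk with hk | hk <;> rw [hk] at h0 <;> exact Kind.noConfusion h0
  · intro φ hφ hd hk μ hμ x hx τ hτ
    have g := orl φ hφ hd hk
    rw [g x hx] at hτ
    rcases lev_cases hd with h0 | ⟨hb, h0⟩ | h0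
    · rw [nxtL_of_le hP h hφ h0] at hμ
      exact h.orF φ hφ h0 hk μ hμ x hx τ hτ
    · rw [nxtL_of_blk hb h0] at hμ
      have hk' : kind s φ ≠ .and := by rcases hk with hk | hk <;> rw [hk] <;> exact Kind.noConfusion
      have g1 := hN.zero φ hφ hb h0
      unfold sg blk at g1
      rw [if_neg hk', if_neg hk'] at g1
      exact g1 μ hμ τ ⟨x, hx, hτ⟩
    · rcases hk with hk | hk <;> rw [hk] at h0 <;> exact (Kind.noConfusion h0)
  · intro φ hφ hd hk μ hμ
    have g := andl φ hφ hd hk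
    rcases lev_cases hd with h0 | ⟨hb, h0⟩ | h0
    · rw [nxtL_of_le hP h hφ h0] at hμ
      obtain ⟨x, hx, τ, hτ, hle⟩ := h.andF φ hφ h0 hk μ hμ
      exact ⟨x, hx, τ, by rw [g x hx]; exact hτ, hle⟩
    · rw [nxtL_of_blk hb h0] at hμ
      have g1 := hN.one φ hφ hb h0
      unfold sg blk at g1
      rw [if_pos hk, if_pos hk] at g1
      obtain ⟨τ, ⟨x, hx, hτ⟩, hle⟩ := g1 μ hμ
      exact ⟨x, hx, τ, by rw [g x hx]; exact hτ, hle⟩
    · rw [hk] at h0
      exact Kind.noConfusion h0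
  · intro φ hφ hd hk μ hμ x hx τ hτ
    have g := andl φ hφ hd hk
    rw [g x hx] at hτ
    rcases lev_cases hd with h0 | ⟨hb, h0⟩ | h0
    · rw [nxtL_of_le hP h hφ h0] at hμ
      exact h.andT φ hφ h0 hk μ hμ x hx τ hτ
    · rw [nxtL_of_blk hb h0] at hμ
      have g1 := hN.zero φ hφ hb h0
      unfold sg blk at g1
      rw [if_pos hk, if_pos hk] at g1
      exact g1 μ hμ τ ⟨x, hx, hτ⟩
    · rw [hk] at h0
      exact (Kind.noConfusion h0)

/-- The simultaneous switching statement that is used in `lev_step`. -/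
def GoodSwitch (V : Type) [Fintype V] [DecidableEq V] (ι : Type) : Prop :=
  ∀ (P : Finset ι) (D : ι → Set (Mt V)) (ρ : Mt V) (l s : ℕ), P.card < 2 ^ s →
    (∀ i ∈ P, ∀ t ∈ D i, Compat t ρ → cost ρ t ≤ 4 * s) →
    64 * s ^ 2 * l ^ 4 + l ≤ (free ρ).card → Even ((free ρ).card - l) →
    ∃ ρ', ρ ≤ ρ' ∧ (free ρ').card = l ∧ ∀ i ∈ P, Rep (D i) (4 * s) ρ'

/-- One more level of leaf sets, for a suitable extension of the base. -/
theorem lev_step_of (hgood : GoodSwitch V (Fm α)) (hs : 1 ≤ s) (hP : PClosed P) {q : ℕ}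
    (h : Lev P s j (4 * q) ρ A) (hcard : P.card < 2 ^ q) (hF : 64 * q ^ 2 * l ^ 4 + l ≤ (free ρ).card)
    (hl : Even ((free ρ).card - l)) :
    ∃ ρ', ρ ≤ ρ' ∧ (free ρ').card = l ∧ ∃ A', Lev P s (j + 1) (4 * q) ρ' A' ∧
      ∀ φ ∈ P, depth s φ ≤ j → A' φ = A φ := by
  classical
  set P' : Finset (Fm α) := P.filter fun φ => IsBlk s φ ∧ depth s φ = j + 1 with hP'
  have hterm : ∀ φ ∈ P', ∀ t ∈ blk s A φ, Compat t ρ → cost ρ t ≤ 4 * q := by
    intro φ hφ t ht hc
    rw [hP', Finset.mem_filter] at hφ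
    obtain ⟨hφP, hb, hd⟩ := hφ
    unfold blk at ht
    split_ifs at ht with hk
    · obtain ⟨χ, hχ, ht⟩ := ht
      have := depth_lt_of_mem_andLeaves hk hχ
      exact h.cost χ (mem_of_mem_andLeaves hP hφP hχ) (by omega) _ t ht hc
    · obtain ⟨x, hx, ht⟩ := ht
      have hk' : kind s φ = .or ∨ kind s φ = .imp := hb.resolve_left hk
      have := depth_lt_of_mem_orLeaves (t := x.1) (χ := x.2) hk' hx
      exact h.cost x.2 (mem_of_mem_orLeaves hP hφP hx) (by omega) _ t ht hc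
  obtain ⟨ρ', hρ, hcardρ, hrep⟩ := hgood P' (blk s A) ρ l q
    (lt_of_le_of_lt (Finset.card_filter_le _ _) hcard) hterm hF hl
  have hex : ∀ φ : Fm α, ∃ A1 A0 : Set (Mt V), φ ∈ P' →
      (∀ μ, μ ∈ A1 ∨ μ ∈ A0 → ρ' ≤ μ ∧ cost ρ' μ ≤ 4 * q) ∧
      (∀ μ ∈ A1, ∃ t ∈ blk s A φ, t ≤ μ) ∧
      (∀ μ ∈ A0, ∀ t ∈ blk s A φ, ¬ Compat t μ) ∧
      (∀ ν, ρ' ≤ ν → 3 * (4 * q) ≤ (free ν).card → ∃ μ, (μ ∈ A1 ∨ μ ∈ A0) ∧ Compat μ ν) := by
    intro φ
    by_cases hφ : φ ∈ P'
    · obtain ⟨A1, A0, g⟩ := hrep φ hφ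
      exact ⟨A1, A0, fun _ => g⟩
    · exact ⟨∅, ∅, fun hc => absurd hc hφ⟩
  choose A1 A0 hA using hex
  let B : Fm α → Bool → Set (Mt V) := fun φ t => if t = sg s φ then A1 φ else A0 φ
  have hB1 : ∀ φ, B φ (sg s φ) = A1 φ := fun φ => if_pos rfl
  have hB0 : ∀ φ, B φ (!sg s φ) = A0 φ := fun φ => if_neg (by cases sg s φ <;> simp)
  have hmem : ∀ φ ∈ P, IsBlk s φ → depth s φ = j + 1 → φ ∈ P' := fun φ h1 h2 h3 => by
    rw [hP', Finset.mem_filter]
    exact ⟨h1, h2, h3⟩
  have hN : NewLev P s j (4 * q) ρ' A B := by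
    constructor
    · intro φ h1 h2 h3 t μ hμ
      refine ((hA φ (hmem φ h1 h2 h3)).1 μ ?_).2
      by_cases ht : t = sg s φ
      · left
        rw [ht, hB1] at hμ
        exact hμ
      · right
        have : B φ t = A0 φ := if_neg ht
        rw [this] at hμ
        exact hμ
    · intro φ h1 h2 h3 μ hμ
      rw [hB1] at hμ
      exact (hA φ (hmem φ h1 h2 h3)).2.1 μ hμ
    · intro φ h1 h2 h3 μ hμ
      rw [hB0] at hμ
      exact (hA φ (hmem φ h1 h2 h3)).2.2.1 μ hμ
    · intro φ h1 h2 h3 ν hν hf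
      obtain ⟨μ, hμ, hc⟩ := (hA φ (hmem φ h1 h2 h3)).2.2.2 ν hν hf
      rcases hμ with hμ | hμ
      · exact ⟨sg s φ, μ, by rw [hB1]; exact hμ, hc⟩
      · exact ⟨!sg s φ, μ, by rw [hB0]; exact hμ, hc⟩
  exact ⟨ρ', hρ, hcardρ, nxtL s j A B, lev_next hs hP h hρ hN,
    fun φ hφ hd => nxtL_of_le hP h hφ hd⟩

theorem goodSwitch (V : Type) [Fintype V] [DecidableEq V] (ι : Type) : GoodSwitch V ι :=
  fun P D ρ _ _ h1 h2 h3 h4 => exists_good P D ρ h1 h2 h3 h4

/-- One more level of leaf sets, for a suitable extension of the base. -/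
theorem lev_step (hs : 1 ≤ s) (hP : PClosed P) {q : ℕ} (h : Lev P s j (4 * q) ρ A)
    (hcard : P.card < 2 ^ q) (hF : 64 * q ^ 2 * l ^ 4 + l ≤ (free ρ).card)
    (hl : Even ((free ρ).card - l)) :
    ∃ ρ', ρ ≤ ρ' ∧ (free ρ').card = l ∧ ∃ A', Lev P s (j + 1) (4 * q) ρ' A' ∧
      ∀ φ ∈ P, depth s φ ≤ j → A' φ = A φ :=
  lev_step_of (goodSwitch V (Fm α)) hs hP h hcard hF hl

end AcFrege
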