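import Pool.Agent.Work.MP_c07f0d_lc.LS.Core
import Pool.Agent.Work.MP_c07f0d_lc.AC.DegTree

/-!
# Stage one: small formulas become shallow decision trees after one star per block
-/

set_option linter.unusedSectionVars false

namespace AcFrege

open Finset LineSize FregeEF

open Classical in
/-- After a suitable restriction which leaves one free variable in every block, every formula of
size at most `S` of the set `P` is computed by a shallow decision tree. -/
theorem stage_one {E : Type} [Fintype E] [DecidableEq E] {J : ℕ} (P : Finset (Fm (E × Fin J)))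
    {S k s k₀ : ℕ} (hJ : 28 * (2 * k + 1) ≤ J) (hs : 1 ≤ s) (hks : 360 * s ≤ 2 * (k + 1) ^ 2)
    (hN : 3 * (P.card * (64 * (S / (3 * s) + 1))) < 2 ^ (k₀ + 1)) :
    ∃ (σ : E → Fin J) (z : E × Fin J → Bool), ∀ φ ∈ P, φ.size ≤ S →
      ∃ T : AcFrege.Tr E, T.depth ≤ ((S / (3 * s) + 1) * k₀) ^ 4 ∧
        ∀ y : E → Bool, (T.eval y = true ↔ φ.eval (fun i => rho σ z y i = true)) := by
  have hdec := fun T : LineSize.Tr (E × Fin J) => decomp hs T
  choose mT PT hmT hlenT hleafT hdegT using hdec
  have hm : ∀ φ : Fm (E × Fin J), φ.size ≤ S → mT (nf true φ) ≤ S / (3 * s) := by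
    intro φ hφ
    rw [Nat.le_div_iff_mul_le (by omega)]
    have h1 := hmT (nf true φ)
    have h2 := nf_leaves φ true
    have e : mT (nf true φ) * (3 * s) = 3 * s * mT (nf true φ) := by ring
    omega
  set Ps : List (LineSize.Tr (E × Fin J)) :=
    P.toList.flatMap fun φ => if φ.size ≤ S then PT (nf true φ) else [] with hPs
  have hPlen : ∀ L : List (Fm (E × Fin J)),
      (L.flatMap fun φ => if φ.size ≤ S then PT (nf true φ) else []).length
        ≤ L.length * (64 * (S / (3 * s) + 1)) := by
    intro L
    induction L with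
    | nil => simp
    | cons φ L ih =>
      rw [List.flatMap_cons, List.length_append, List.length_cons, add_mul, one_mul]
      have h1 : (if φ.size ≤ S then PT (nf true φ) else []).length
          ≤ 64 * (S / (3 * s) + 1) := by
        split_ifs with h
        · have h2 := hlenT (nf true φ)
          have h3 := hm φ h
          omega
        · simp
      omega
  obtain ⟨σ, z, hgood⟩ := exists_good (k := k) Ps (by
    intro Q hQ
    rw [hPs, List.mem_flatMap] at hQ
    obtain ⟨φ, _, hQ⟩ := hQ
    split_ifs at hQ with h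
    · have := hleafT (nf true φ) Q hQ
      omega
    · simp at hQ) hJ k₀ (by
    have h1 := hPlen P.toList
    rw [← hPs, Finset.length_toList] at h1
    omega)
  refine ⟨σ, z, fun φ hφ hS => ?_⟩
  have h1 : LowDeg ((S / (3 * s) + 1) * k₀)
      (rv fun y => (nf true φ).ev (rho σ z y)) := by
    refine (hdegT (nf true φ) _ _ _ (fun y => rho σ z y) k₀ ?_).mono
      (Nat.mul_le_mul_right _ (Nat.add_le_add_right (hm φ hS) 1))
    intro Q hQ
    refine hgood Q ?_
    rw [hPs, List.mem_flatMap]
    refine ⟨φ, Finset.mem_toList.2 hφ, ?_⟩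
    rw [if_pos hS]
    exact hQ
  obtain ⟨T, hT, hT'⟩ := exists_tree _ _ h1
  refine ⟨T, hT, fun y => ?_⟩
  rw [hT']
  exact (nf_ev (rho σ z y) φ).1

end AcFrege
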